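import Pool.Agent.Helper71.FL.ConeL

/-! FL-17: counting components.
Plan.  For `S ∈ Comp (N+1)` let `W = rst N (N+1) d S` (irreducible by `PreIrr_pull`, nonempty), `D ∈ Comp N` with `W ⊆ D`
(`exists_Comp`, `fol_bound`).
* `rst_dense`: every `f ∈ RE N` vanishing on `W` vanishes on `D`.  Non-conic `S`, point `A0`: `exists_sep` gives `G`; if
  `pt A' G ≠ 0`, `A' ∈ IntS`, then `A' ∈ S`; the product of `F` (`exists_PR_of_RE`) with a function vanishing on non-coprime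
  restrictions (`cop_open` at `res A0`) satisfies the hypothesis of `dom`; so `F * c` vanishes on `D ∩ {U ≠ 0}`, `D` is
  irreducible and `U`, `c` do not vanish at `res A0 ∈ D`.  Conic `S`: `S = V(D)` (below), so `D ⊆ W`.
* `cone A ∈ S` for all `A ∈ D`: `cone_res_mem`, `rst_dense`, `comp_closed` (the map `cone` is regular, `pb_reg`, `cone_eq_pb`).
* Injectivity.  `S1`, `S2` with the same `D`.  If `S1` is non-conic with point `A0`: `cone (res A0) ∈ S2`, `exists_sep` for `S1`,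
  `uniq` for every `F` vanishing on `S1`: `S2 ⊆ S1` (`comp_closed`), so equal.  If both are conic:
  `S_i = V(D) = {B ∈ FolS (N+1) d | ∃ φ, ∃ A ∈ D, B = pb φ A}`: every `A' ∈ S_i` is `pb φ A`, factor `φ = κ φ'` with `φ'` of
  rank `N`, `A'' = pb κ A`, `A' = pb φ' A''`, `A'' = pb ψ A'` with `ψ` a section of `φ'`, `A''` coprime by `cop_of_cop_pb`, so
  `A'' ∈ rst N (N+1) d S_i ⊆ D`; `V(D)` is irreducible (`PreIrr_pull`) and contains `S_i`: equality by maximality. -/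

set_option autoImplicit false

namespace Pool.Agent.Helper71.FL

open MvPolynomial
open Pool.Agent.Helper93 (TT OF RE HomS IntS FolS Cop Comp PreIrr pb prj rst)

/-- the input of the classification: every component either consists of linear pullbacks from `N`
variables, or contains a form, lying on no other component, with good restriction -/
def CL (N d : ℕ) : Prop :=
  ∀ S ∈ Comp (RE (N + 1)) (FolS (N + 1) d),
    (∀ A' ∈ S, ∃ φ : Fin N → Fin (N + 1) → ℂ, ∃ A ∈ IntS N d, A' = pb φ A) ∨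
    ∃ A' ∈ S, (∀ S2 ∈ Comp (RE (N + 1)) (FolS (N + 1) d), A' ∈ S2 → S2 = S) ∧
      Cop (res A') ∧ Good (dd (res A'))

private theorem pb_id {N : ℕ} (A : OF N) :
    pb (fun i k : Fin N => if i = k then (1 : ℂ) else 0) A = A := by
  have h1 : ∀ p : MvPolynomial (Fin N) ℂ,
      Pool.Agent.Helper93.lsub (fun i k : Fin N => if i = k then (1 : ℂ) else 0) p = p := by
    intro p
    unfold Pool.Agent.Helper93.lsub
    have h2 : (fun k : Fin N => ∑ l, C (if k = l then (1 : ℂ) else 0) *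
        (X l : MvPolynomial (Fin N) ℂ)) = X := by
      funext k
      rw [Finset.sum_eq_single k]
      · rw [if_pos rfl, C_1, one_mul]
      · intro l _ hl
        rw [if_neg (Ne.symm hl), C_0, zero_mul]
      · intro h'; exact absurd (Finset.mem_univ _) h'
    rw [h2]
    exact MvPolynomial.aeval_X_left_apply p
  funext i
  unfold pb
  rw [Finset.sum_eq_single i]
  · simp only [if_true, C_1, one_mul]
    exact h1 (A i)
  · intro l _ hl
    simp only [if_neg hl, C_0, zero_mul]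
  · intro h'; exact absurd (Finset.mem_univ _) h'

/-- factorisation of a linear map through a surjection -/
private theorem fac {N : ℕ} (φ : Fin N → Fin (N + 1) → ℂ) :
    ∃ (κ : Fin N → Fin N → ℂ) (φ' : Fin N → Fin (N + 1) → ℂ) (ψ : Fin (N + 1) → Fin N → ℂ),
      φ = (fun i k => ∑ j, κ i j * φ' j k) ∧
      (fun i k => ∑ j, φ' i j * ψ j k) = (fun i k => if i = k then (1 : ℂ) else 0) := by
  classical
  let L : (Fin (N + 1) → ℂ) →ₗ[ℂ] (Fin N → ℂ) := Matrix.toLin' (Matrix.of φ)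
  have hker : LinearMap.ker L ≠ ⊥ := by
    apply LinearMap.ker_ne_bot_of_finrank_lt
    simp
  obtain ⟨v, hv, hv0⟩ := (Submodule.ne_bot_iff _).mp hker
  let U : Submodule ℂ (Fin (N + 1) → ℂ) := Submodule.span ℂ {v}
  have hU : Module.finrank ℂ U = 1 := finrank_span_singleton hv0
  have hq := Submodule.finrank_quotient_add_finrank U
  rw [hU, Module.finrank_fin_fun] at hq
  have hq' : Module.finrank ℂ ((Fin (N + 1) → ℂ) ⧸ U) = Module.finrank ℂ (Fin N → ℂ) := by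
    rw [Module.finrank_fin_fun]; omega
  let e : ((Fin (N + 1) → ℂ) ⧸ U) ≃ₗ[ℂ] (Fin N → ℂ) := LinearEquiv.ofFinrankEq _ _ hq'
  have hUk : U ≤ LinearMap.ker L := by
    rw [Submodule.span_singleton_le_iff_mem]
    exact hv
  let L' : (Fin (N + 1) → ℂ) →ₗ[ℂ] (Fin N → ℂ) := e.toLinearMap ∘ₗ U.mkQ
  let K : (Fin N → ℂ) →ₗ[ℂ] (Fin N → ℂ) := (U.liftQ L hUk) ∘ₗ e.symm.toLinearMap
  have hKL : L = K ∘ₗ L' := by
    apply LinearMap.ext
    intro x
    simp [K, L']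
  have hsurj : LinearMap.range L' = ⊤ := by
    rw [LinearMap.range_eq_top]
    exact e.surjective.comp (Submodule.mkQ_surjective U)
  obtain ⟨R, hR⟩ := L'.exists_rightInverse_of_surjective hsurj
  refine ⟨LinearMap.toMatrix' K, LinearMap.toMatrix' L', LinearMap.toMatrix' R, ?_, ?_⟩
  · have h1 : LinearMap.toMatrix' L = LinearMap.toMatrix' K * LinearMap.toMatrix' L' := by
      rw [hKL, LinearMap.toMatrix'_comp]
    have h2 : LinearMap.toMatrix' L = Matrix.of φ := LinearMap.toMatrix'_toLin' _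
    rw [h2] at h1
    funext i k
    have h3 := congrFun (congrFun h1 i) k
    rw [Matrix.mul_apply] at h3
    exact h3
  · have h1 : LinearMap.toMatrix' (L' ∘ₗ R) = LinearMap.toMatrix' L' * LinearMap.toMatrix' R :=
      LinearMap.toMatrix'_comp _ _
    rw [hR, LinearMap.toMatrix'_id] at h1
    funext i k
    have h3 := congrFun (congrFun h1 i) k
    rw [Matrix.mul_apply, Matrix.one_apply] at h3
    exact h3.symm

/-- a coprime linear pullback from fewer variables is a pullback by a surjection, with section -/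
private theorem conic_fac {N d : ℕ} {A' : OF (N + 1)} (hA' : A' ∈ FolS (N + 1) d)
    {φ : Fin N → Fin (N + 1) → ℂ} {A : OF N} (hA : A ∈ IntS N d) (h : A' = pb φ A) :
    ∃ (φ' : Fin N → Fin (N + 1) → ℂ) (ψ : Fin (N + 1) → Fin N → ℂ) (A2 : OF N),
      A2 ∈ FolS N d ∧ A' = pb φ' A2 ∧ A2 = pb ψ A' := by
  obtain ⟨κ, φ', ψ, h1, h2⟩ := fac φ
  have h3 : A' = pb φ' (pb κ A) := by
    rw [pb_pb, ← h1, h]
  refine ⟨φ', ψ, pb κ A, ⟨Pool.Agent.Helper93.pb_IntS κ hA, ?_⟩, h3, ?_⟩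
  · apply cop_of_cop_pb φ' ψ h2
    rw [← h3]
    exact hA'.2
  · rw [h3, pb_pb, h2, pb_id]

private theorem conic_rst {N d : ℕ} {S : Set (OF (N + 1))} (hSF : S ⊆ FolS (N + 1) d)
    (h : ∀ A' ∈ S, ∃ φ : Fin N → Fin (N + 1) → ℂ, ∃ A ∈ IntS N d, A' = pb φ A)
    {A' : OF (N + 1)} (hA' : A' ∈ S) :
    ∃ φ' : Fin N → Fin (N + 1) → ℂ, ∃ A2 ∈ rst N (N + 1) d S, A' = pb φ' A2 := by
  obtain ⟨φ, A, hA, hφ⟩ := h A' hA'
  obtain ⟨φ', ψ, A2, h1, h2, h3⟩ := conic_fac (hSF hA') hA hφ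
  exact ⟨φ', A2, ⟨h1, ψ, A', hA', h3⟩, h2⟩

private theorem res_mem_rst {N d : ℕ} {S : Set (OF (N + 1))} (hSF : S ⊆ FolS (N + 1) d)
    {A' : OF (N + 1)} (hA' : A' ∈ S) (h2 : Cop (res A')) : res A' ∈ rst N (N + 1) d S := by
  refine ⟨⟨?_, h2⟩, _, A', hA', res_eq_pb A'⟩
  rw [res_eq_pb]
  exact Pool.Agent.Helper93.pb_IntS _ (hSF hA').1

private theorem rst_preirr {N d : ℕ} (hN : 0 < N) {S : Set (OF (N + 1))}
    (hS : S ∈ Comp (RE (N + 1)) (FolS (N + 1) d)) :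
    PreIrr (RE N : Set (OF N → ℂ)) (rst N (N + 1) d S) :=
  Pool.Agent.Helper93.PreIrr_pull hN hS.1.2.2 (fun _ hA => (hS.1.1 hA).1)

theorem rst_dense {N d : ℕ} (hN : 0 < N) (hd : 0 < d) {S : Set (OF (N + 1))}
    (hS : S ∈ Comp (RE (N + 1)) (FolS (N + 1) d)) {A' : OF (N + 1)} (hA' : A' ∈ S)
    (h1 : ∀ S2 ∈ Comp (RE (N + 1)) (FolS (N + 1) d), A' ∈ S2 → S2 = S)
    (h2 : Cop (res A')) (h3 : Good (dd (res A'))) {D : Set (OF N)}
    (hD : D ∈ Comp (RE N) (FolS N d)) (hW : rst N (N + 1) d S ⊆ D) {f : OF N → ℂ}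
    (hf : f ∈ RE N) (h0 : ∀ A ∈ rst N (N + 1) d S, f A = 0) : ∀ A ∈ D, f A = 0 := by
  obtain ⟨G, hG1, hG2⟩ := exists_sep (Nat.succ_pos N) hS hA' h1
  have hres : res A' ∈ rst N (N + 1) d S := res_mem_rst hS.1.1 hA' h2
  have hresD : res A' ∈ D := hW hres
  have hresF : res A' ∈ FolS N d := hD.1.1 hresD
  obtain ⟨c, hc, hcA, hcB⟩ := Pool.Agent.Helper93.cop_open hN (d := d) hresF.1.1 h2
  obtain ⟨F, hF⟩ := exists_PR_of_RE (d := d) hf
  obtain ⟨C1, hC1⟩ := exists_PR_of_RE (d := d) hc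
  obtain ⟨U, hU1, hU2⟩ := dom hd (hS.1.1 hA').1 h3 hG1 (F := F * C1) (by
    intro A2 hA2 hA2G
    have hA2S : A2 ∈ S := hG2 A2 hA2 hA2G
    have hint : res A2 ∈ IntS N d := by
      rw [res_eq_pb]
      exact Pool.Agent.Helper93.pb_IntS _ hA2
    rw [map_mul, ← hF _ hint.1, ← hC1 _ hint.1]
    by_cases hz : c (res A2) = 0
    · rw [hz, mul_zero]
    · have hcop : Cop (res A2) := hcB _ hint.1 hz
      rw [h0 _ (res_mem_rst hS.1.1 hA2S hcop), zero_mul])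
  rcases hD.1.2.2 f hf (c * (fun A : OF N => pt d A U))
    ((RE N).mul_mem hc (pt_mem_RE U)) (by
      intro A hA
      have hAI : A ∈ IntS N d := (hD.1.1 hA).1
      show f A * (c A * pt d A U) = 0
      by_cases hz : pt d A U = 0
      · rw [hz, mul_zero, mul_zero]
      · have h5 := hU2 A hAI hz
        rw [map_mul, ← hF _ hAI.1, ← hC1 _ hAI.1] at h5
        rw [← mul_assoc, h5, zero_mul]) with h4 | h4
  · exact h4
  · exfalso
    exact (mul_ne_zero hcA hU1) (h4 _ hresD)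

theorem conic_eq {N d : ℕ} (hN : 0 < N) {S : Set (OF (N + 1))}
    (hS : S ∈ Comp (RE (N + 1)) (FolS (N + 1) d))
    (h : ∀ A' ∈ S, ∃ φ : Fin N → Fin (N + 1) → ℂ, ∃ A ∈ IntS N d, A' = pb φ A)
    {D : Set (OF N)} (hD : D ∈ Comp (RE N) (FolS N d)) (hW : rst N (N + 1) d S ⊆ D) :
    S = {B | B ∈ FolS (N + 1) d ∧ ∃ φ : Fin N → Fin (N + 1) → ℂ, ∃ A ∈ D, B = pb φ A} := by
  have hsub : S ⊆ {B | B ∈ FolS (N + 1) d ∧
      ∃ φ : Fin N → Fin (N + 1) → ℂ, ∃ A ∈ D, B = pb φ A} := by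
    intro A' hA'
    obtain ⟨φ', A2, hA2, hφ'⟩ := conic_rst hS.1.1 h hA'
    exact ⟨hS.1.1 hA', φ', A2, hW hA2, hφ'⟩
  have hV : PreIrr (RE (N + 1) : Set (OF (N + 1) → ℂ)) {B | B ∈ FolS (N + 1) d ∧
      ∃ φ : Fin N → Fin (N + 1) → ℂ, ∃ A ∈ D, B = pb φ A} :=
    Pool.Agent.Helper93.PreIrr_pull (Nat.succ_pos N) hD.1.2.2 (fun A hA => (hD.1.1 hA).1)
  exact hsub.antisymm (hS.2 ⟨fun B hB => hB.1, hS.1.2.1.mono hsub, hV⟩ hsub)

/-- cones over the component `D` lie on `S` -/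
private theorem cone_mem {N d : ℕ} (hN : 0 < N) (hd : 0 < d) (h : CL N d) {S : Set (OF (N + 1))}
    (hS : S ∈ Comp (RE (N + 1)) (FolS (N + 1) d)) {D : Set (OF N)}
    (hD : D ∈ Comp (RE N) (FolS N d)) (hW : rst N (N + 1) d S ⊆ D) {A : OF N} (hA : A ∈ D) :
    cone A ∈ S := by
  have hAF : A ∈ FolS N d := hD.1.1 hA
  have hcF : cone A ∈ FolS (N + 1) d := ⟨cone_mem_IntS hAF.1, cop_cone hN hAF.2⟩
  rcases h S hS with hc | ⟨A', hA', h1, h2, h3⟩
  · rw [conic_eq hN hS hc hD hW]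
    exact ⟨hcF, _, A, hA, cone_eq_pb A⟩
  · apply comp_closed hS hcF
    intro f hf hfS
    obtain ⟨g, hg, hfg⟩ := Pool.Agent.Helper93.pb_reg (d := d)
      (fun (l : Fin N) (k : Fin (N + 1)) => if k = l.succ then (1 : ℂ) else 0) hf
    have h4 : ∀ B ∈ rst N (N + 1) d S, g B = 0 := by
      intro B hB
      have h5 := hfg B hB.1.1.1
      rw [← h5]
      show f (pb _ B) = 0
      rw [← cone_eq_pb]
      exact hfS _ (cone_res_mem hN hS hB)
    have h6 := rst_dense hN hd hS hA' h1 h2 h3 hD hW hg h4 A hA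
    have h7 := hfg A hAF.1.1
    rw [cone_eq_pb]
    exact h7.trans h6

/-- a component with a good point is determined by its restriction -/
private theorem inj_aux {N d : ℕ} (hN : 0 < N) (hd : 0 < d) (h : CL N d)
    {S1 S2 : Set (OF (N + 1))}
    (hS1 : S1 ∈ Comp (RE (N + 1)) (FolS (N + 1) d))
    (hS2 : S2 ∈ Comp (RE (N + 1)) (FolS (N + 1) d)) {D : Set (OF N)}
    (hD : D ∈ Comp (RE N) (FolS N d)) (hW1 : rst N (N + 1) d S1 ⊆ D)
    (hW2 : rst N (N + 1) d S2 ⊆ D) {A' : OF (N + 1)} (hA' : A' ∈ S1)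
    (h1 : ∀ S2 ∈ Comp (RE (N + 1)) (FolS (N + 1) d), A' ∈ S2 → S2 = S1)
    (h2 : Cop (res A')) (h3 : Good (dd (res A'))) : S2 = S1 := by
  obtain ⟨G, hG1, hG2⟩ := exists_sep (Nat.succ_pos N) hS1 hA' h1
  have hresD : res A' ∈ D := hW1 (res_mem_rst hS1.1.1 hA' h2)
  have hcone : cone (res A') ∈ S2 := cone_mem hN hd h hS2 hD hW2 hresD
  have hsub : S2 ⊆ S1 := by
    intro p hp
    apply comp_closed hS1 (hS2.1.1 hp)
    intro f hf hfS
    obtain ⟨F, hF⟩ := exists_PR_of_RE (d := d) hf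
    have h4 := uniq hd (hS1.1.1 hA').1 h3 hG1 (F := F) (by
      intro A2 hA2 hA2G
      rw [← hF A2 hA2.1]
      exact hfS A2 (hG2 A2 hA2 hA2G)) (fun B hB => (hS2.1.1 hB).1) hS2.1.2.2 hcone p hp
    rw [hF p (hS2.1.1 hp).1.1]
    exact h4
  exact hsub.antisymm (hS2.2 hS1.1 hsub)

theorem ncard_le {N d : ℕ} (hN : 0 < N) (hd : 0 < d) (h : CL N d) :
    (Comp (RE (N + 1)) (FolS (N + 1) d)).ncard ≤ (Comp (RE N) (FolS N d)).ncard := by
  classical
  obtain ⟨J, hJ⟩ := Pool.Agent.Helper93.fol_bound d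
  obtain ⟨Z, hZ1, hZ2⟩ := hJ N hN
  have hex : ∀ S ∈ Comp (RE (N + 1)) (FolS (N + 1) d),
      ∃ D ∈ Comp (RE N) (FolS N d), rst N (N + 1) d S ⊆ D := by
    intro S hS
    have hne : (rst N (N + 1) d S).Nonempty := by
      rcases h S hS with hc | ⟨A', hA', h1, h2, h3⟩
      · obtain ⟨A', hA'⟩ := hS.1.2.1
        obtain ⟨φ', A2, hA2, _⟩ := conic_rst hS.1.1 hc hA'
        exact ⟨A2, hA2⟩
      · exact ⟨res A', res_mem_rst hS.1.1 hA' h2⟩
    exact Pool.Agent.Helper93.exists_Comp (RE N) hZ2 hZ1 ⟨hne, rst_preirr hN hS⟩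
      (fun B hB => hB.1)
  choose! Φ hΦ1 hΦ2 using hex
  apply Set.ncard_le_ncard_of_injOn Φ hΦ1 ?_ (Pool.Agent.Helper93.comp_finite hN)
  intro S1 hS1 S2 hS2 h12
  have hW1 := hΦ2 S1 hS1
  have hW2 := hΦ2 S2 hS2
  have hD := hΦ1 S1 hS1
  rw [← h12] at hW2
  rcases h S1 hS1 with hc1 | ⟨A', hA', h1, h2, h3⟩
  · rcases h S2 hS2 with hc2 | ⟨A', hA', h1, h2, h3⟩
    · rw [conic_eq hN hS1 hc1 hD hW1, conic_eq hN hS2 hc2 hD hW2]
    · exact inj_aux hN hd h hS2 hS1 hD hW2 hW1 hA' h1 h2 h3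
  · exact (inj_aux hN hd h hS1 hS2 hD hW1 hW2 hA' h1 h2 h3).symm

theorem ncard_const {d : ℕ} (hd : 0 < d) (N0 : ℕ) (hN0 : 0 < N0) (h : ∀ N, N0 ≤ N → CL N d)
    (N : ℕ) (hN : N0 ≤ N) :
    (Comp (RE N) (FolS N d)).ncard = (Comp (RE N0) (FolS N0 d)).ncard := by
  induction N, hN using Nat.le_induction with
  | base => rfl
  | succ n hn ih =>
    have hn0 : 0 < n := lt_of_lt_of_le hN0 hn
    rw [← ih]
    exact le_antisymm (ncard_le hn0 hd (h n hn))
      (Pool.Agent.Helper93.comp_mono hn0 (Nat.le_succ n))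

end Pool.Agent.Helper71.FL
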