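import Pool.Agent.Helper71.FL.Defs

/-! FL-18: a criterion for `Good` (Koszul computation of helper1).
Proof.  Let `b` be as in the definition; for `i = 0,1,2` `g_i^K b = c_i ∧ θ` (one common `K ≥ 1`, write `g_i` for the power,
the hypothesis `hreg` covers all powers).  `g_j c_i - g_i c_j` is annihilated by `∧ θ`, so it is `Xi (e_ij)`;
`g_2 e_01 - g_1 e_02 + g_0 e_12` lies in `ker Xi = range M`, `= M f`, `δ f = adj (M f) ∈ (g) F_1`, so by regularity of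
`g_0, g_1, g_2, δ` (δ is a nonzerodivisor modulo `(g)`) `f = g_2 f_01 - g_1 f_02 + g_0 f_12`; `e_ij := e_ij - M f_ij` has zero Koszul
sum, so `e_ij = g_j a_i - g_i a_j` (regular sequence), `c_i := c_i - Xi a_i` satisfies `g_j c_i = g_i c_j`, `c_i = g_i c`,
`g_0 (b - c ∧ θ) = 0`, `g_0` is a nonzerodivisor. -/

set_option autoImplicit false

namespace Pool.Agent.Helper71.FL

/-- `g0, g1, g2, δ` is a regular sequence (elementary form, the quotient condition is not needed) -/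
def Reg4 {S : Type} [CommRing S] (g0 g1 g2 δ : S) : Prop :=
  (∀ a, g0 * a = 0 → a = 0) ∧
  (∀ a, (∃ u, g1 * a = g0 * u) → ∃ u, a = g0 * u) ∧
  (∀ a, (∃ u v, g2 * a = g0 * u + g1 * v) → ∃ u v, a = g0 * u + g1 * v) ∧
  (∀ a, (∃ u v w, δ * a = g0 * u + g1 * v + g2 * w) → ∃ u v w, a = g0 * u + g1 * v + g2 * w)

private def NZ {S : Type} [CommRing S] (I : Ideal S) (x : S) : Prop := ∀ a, x * a ∈ I → a ∈ I

private theorem mem_sup' {S : Type} [CommRing S] {I : Ideal S} {x a : S} :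
    a ∈ I ⊔ Ideal.span {x} ↔ ∃ i ∈ I, ∃ u, a = i + x * u := by
  rw [Submodule.mem_sup]
  constructor
  · rintro ⟨i, hi, z, hz, rfl⟩
    obtain ⟨u, rfl⟩ := Ideal.mem_span_singleton'.1 hz
    exact ⟨i, hi, u, by ring⟩
  · rintro ⟨i, hi, u, rfl⟩
    exact ⟨i, hi, x * u, Ideal.mem_span_singleton'.2 ⟨u, by ring⟩, rfl⟩

private theorem p1 {S : Type} [CommRing S] {I : Ideal S} {x : S} (h : NZ I x) (n : ℕ) :
    NZ I (x ^ n) := by
  induction n with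
  | zero => intro a ha; simpa using ha
  | succ n ih =>
    intro a ha
    refine ih a (h _ ?_)
    rwa [← mul_assoc, ← pow_succ']

private theorem p2 {S : Type} [CommRing S] {I : Ideal S} {x y : S} (hx : NZ I x)
    (hy : NZ (I ⊔ Ideal.span {x}) y) (n : ℕ) : NZ (I ⊔ Ideal.span {x ^ (n + 1)}) y := by
  induction n with
  | zero => simpa using hy
  | succ n ih =>
    intro a ha
    obtain ⟨i, hi, u, h1⟩ := mem_sup'.1 ha
    obtain ⟨i', hi', b, h2⟩ := mem_sup'.1 (ih a (mem_sup'.2 ⟨i, hi, x * u, by rw [h1]; ring⟩))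
    have h3 : x ^ (n + 1) * (y * b - x * u) = i - y * i' := by
      have h4 : y * a = y * i' + y * (x ^ (n + 1) * b) := by rw [h2]; ring
      linear_combination h1 - h4
    have h5 : y * b - x * u ∈ I := p1 hx (n + 1) _ (by
      rw [h3]; exact I.sub_mem hi (I.mul_mem_left _ hi'))
    obtain ⟨i2, hi2, c, h6⟩ := mem_sup'.1 (hy b (mem_sup'.2 ⟨_, h5, u, by ring⟩))
    refine mem_sup'.2 ⟨i' + x ^ (n + 1) * i2, I.add_mem hi' (I.mul_mem_left _ hi2), c, ?_⟩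
    rw [h2, h6]; ring

private theorem p3 {S : Type} [CommRing S] {I : Ideal S} {x y z : S} (hx : NZ I x)
    (hy : NZ (I ⊔ Ideal.span {x}) y) (hz : NZ (I ⊔ Ideal.span {x} ⊔ Ideal.span {y}) z) (n : ℕ) :
    NZ (I ⊔ Ideal.span {x ^ (n + 1)} ⊔ Ideal.span {y}) z := by
  induction n with
  | zero => simpa using hz
  | succ n ih =>
    intro a ha
    obtain ⟨j, hj, v, h1⟩ := mem_sup'.1 ha
    obtain ⟨i, hi, u, rfl⟩ := mem_sup'.1 hj
    obtain ⟨j', hj', c, h2⟩ := mem_sup'.1 (ih a (mem_sup'.2 ⟨i + x ^ (n + 1) * (x * u),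
      mem_sup'.2 ⟨i, hi, x * u, rfl⟩, v, by rw [h1]; ring⟩))
    obtain ⟨i', hi', b, rfl⟩ := mem_sup'.1 hj'
    have h3 : y * (z * c - v) = (i - z * i') + x ^ (n + 1) * (x * u - z * b) := by
      have h4 : z * a = z * i' + z * (x ^ (n + 1) * b) + z * (y * c) := by rw [h2]; ring
      linear_combination h1 - h4
    obtain ⟨i2, hi2, d, h5⟩ := mem_sup'.1 (p2 hx hy n _ (mem_sup'.2 ⟨i - z * i',
      I.sub_mem hi (I.mul_mem_left _ hi'), x * u - z * b, h3⟩))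
    have h6 : z * b - x * u + y * d ∈ I := p1 hx (n + 1) _ (by
      have h7 : x ^ (n + 1) * (z * b - x * u + y * d) = (i - z * i') - y * i2 := by
        linear_combination h3 - y * h5
      rw [h7]
      exact I.sub_mem (I.sub_mem hi (I.mul_mem_left _ hi')) (I.mul_mem_left _ hi2))
    obtain ⟨j3, hj3, f, h8⟩ := mem_sup'.1 (hz b (mem_sup'.2 ⟨(z * b - x * u + y * d) + x * u,
      mem_sup'.2 ⟨_, h6, u, rfl⟩, -d, by ring⟩))
    obtain ⟨i3, hi3, e, rfl⟩ := mem_sup'.1 hj3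
    refine mem_sup'.2 ⟨(i' + x ^ (n + 1) * i3) + x ^ (n + 1 + 1) * e,
      mem_sup'.2 ⟨_, I.add_mem hi' (I.mul_mem_left _ hi3), e, rfl⟩, x ^ (n + 1) * f + c, ?_⟩
    rw [h2, h8]; ring

private theorem p4 {S : Type} [CommRing S] {I : Ideal S} {x y z w : S} (hx : NZ I x)
    (hy : NZ (I ⊔ Ideal.span {x}) y) (hz : NZ (I ⊔ Ideal.span {x} ⊔ Ideal.span {y}) z)
    (hw : NZ (I ⊔ Ideal.span {x} ⊔ Ideal.span {y} ⊔ Ideal.span {z}) w) (n : ℕ) :
    NZ (I ⊔ Ideal.span {x ^ (n + 1)} ⊔ Ideal.span {y} ⊔ Ideal.span {z}) w := by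
  induction n with
  | zero => simpa using hw
  | succ n ih =>
    intro a ha
    obtain ⟨j0, hj0, t, h1⟩ := mem_sup'.1 ha
    obtain ⟨j, hj, v, rfl⟩ := mem_sup'.1 hj0
    obtain ⟨i, hi, u, rfl⟩ := mem_sup'.1 hj
    obtain ⟨k0, hk0, d, h2⟩ := mem_sup'.1 (ih a (mem_sup'.2 ⟨(i + x ^ (n + 1) * (x * u)) + y * v,
      mem_sup'.2 ⟨i + x ^ (n + 1) * (x * u), mem_sup'.2 ⟨i, hi, x * u, rfl⟩, v, rfl⟩, t,
      by rw [h1]; ring⟩))
    obtain ⟨k, hk, c, rfl⟩ := mem_sup'.1 hk0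
    obtain ⟨i', hi', b, rfl⟩ := mem_sup'.1 hk
    have h3 : z * (w * d - t) = ((i - w * i') + x ^ (n + 1) * (x * u - w * b)) +
        y * (v - w * c) := by
      have h4 : w * a = w * i' + w * (x ^ (n + 1) * b) + w * (y * c) + w * (z * d) := by
        rw [h2]; ring
      linear_combination h1 - h4
    obtain ⟨l0, hl0, q, h5⟩ := mem_sup'.1 (p3 hx hy hz n _ (mem_sup'.2
      ⟨(i - w * i') + x ^ (n + 1) * (x * u - w * b), mem_sup'.2 ⟨i - w * i',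
      I.sub_mem hi (I.mul_mem_left _ hi'), x * u - w * b, rfl⟩, v - w * c, h3⟩))
    obtain ⟨i2, hi2, r, rfl⟩ := mem_sup'.1 hl0
    -- w d - t = i2 + x^(n+1) r + y q
    have h6 : y * (w * c - v + z * q) = ((i - w * i') - z * i2) +
        x ^ (n + 1) * (x * u - w * b - z * r) := by
      linear_combination h3 - z * h5
    obtain ⟨i3, hi3, s, h7⟩ := mem_sup'.1 (p2 hx hy n _ (mem_sup'.2 ⟨(i - w * i') - z * i2,
      I.sub_mem (I.sub_mem hi (I.mul_mem_left _ hi')) (I.mul_mem_left _ hi2),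
      x * u - w * b - z * r, h6⟩))
    have h8 : w * b - x * u + z * r + y * s ∈ I := p1 hx (n + 1) _ (by
      have h9 : x ^ (n + 1) * (w * b - x * u + z * r + y * s) =
          ((i - w * i') - z * i2) - y * i3 := by
        linear_combination h6 - y * h7
      rw [h9]
      exact I.sub_mem (I.sub_mem (I.sub_mem hi (I.mul_mem_left _ hi'))
        (I.mul_mem_left _ hi2)) (I.mul_mem_left _ hi3))
    obtain ⟨m0, hm0, g, h10⟩ := mem_sup'.1 (hw b (mem_sup'.2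
      ⟨((w * b - x * u + z * r + y * s) + x * u) + y * (-s),
      mem_sup'.2 ⟨_, mem_sup'.2 ⟨_, h8, u, rfl⟩, -s, rfl⟩, -r, by ring⟩))
    obtain ⟨m1, hm1, f, rfl⟩ := mem_sup'.1 hm0
    obtain ⟨i4, hi4, e, rfl⟩ := mem_sup'.1 hm1
    refine mem_sup'.2 ⟨((i' + x ^ (n + 1) * i4) + x ^ (n + 1 + 1) * e) +
      y * (x ^ (n + 1) * f + c), mem_sup'.2 ⟨(i' + x ^ (n + 1) * i4) + x ^ (n + 1 + 1) * e,
      mem_sup'.2 ⟨_, I.add_mem hi' (I.mul_mem_left _ hi4), e, rfl⟩, x ^ (n + 1) * f + c, rfl⟩,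
      x ^ (n + 1) * g + d, ?_⟩
    rw [h2, h10]; ring

private theorem reg4_iff {S : Type} [CommRing S] {g0 g1 g2 δ : S} : Reg4 g0 g1 g2 δ ↔
    NZ (⊥ : Ideal S) g0 ∧ NZ ((⊥ : Ideal S) ⊔ Ideal.span {g0}) g1 ∧
    NZ ((⊥ : Ideal S) ⊔ Ideal.span {g0} ⊔ Ideal.span {g1}) g2 ∧
    NZ ((⊥ : Ideal S) ⊔ Ideal.span {g0} ⊔ Ideal.span {g1} ⊔ Ideal.span {g2}) δ := by
  have m1 : ∀ a : S, a ∈ (⊥ : Ideal S) ⊔ Ideal.span {g0} ↔ ∃ u, a = g0 * u := by
    intro a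
    rw [mem_sup']
    constructor
    · rintro ⟨i, hi, u, rfl⟩
      have : i = 0 := by simpa using hi
      exact ⟨u, by rw [this, zero_add]⟩
    · rintro ⟨u, rfl⟩
      exact ⟨0, Ideal.zero_mem _, u, by rw [zero_add]⟩
  have m2 : ∀ a : S, a ∈ (⊥ : Ideal S) ⊔ Ideal.span {g0} ⊔ Ideal.span {g1} ↔
      ∃ u v, a = g0 * u + g1 * v := by
    intro a
    rw [mem_sup']
    constructor
    · rintro ⟨i, hi, v, rfl⟩
      obtain ⟨u, rfl⟩ := (m1 i).1 hi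
      exact ⟨u, v, rfl⟩
    · rintro ⟨u, v, rfl⟩
      exact ⟨g0 * u, (m1 _).2 ⟨u, rfl⟩, v, rfl⟩
  have m3 : ∀ a : S, a ∈ (⊥ : Ideal S) ⊔ Ideal.span {g0} ⊔ Ideal.span {g1} ⊔ Ideal.span {g2} ↔
      ∃ u v w, a = g0 * u + g1 * v + g2 * w := by
    intro a
    rw [mem_sup']
    constructor
    · rintro ⟨i, hi, w, rfl⟩
      obtain ⟨u, v, rfl⟩ := (m2 i).1 hi
      exact ⟨u, v, w, rfl⟩
    · rintro ⟨u, v, w, rfl⟩
      exact ⟨g0 * u + g1 * v, (m2 _).2 ⟨u, v, rfl⟩, w, rfl⟩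
  unfold Reg4 NZ
  simp only [m1, m2, m3, Ideal.mem_bot]

/-- powers of the first three members of a regular sequence (Matsumura, Theorem 16.1: if
`x, y, z, w` and `x', y, z, w` are regular then so is `x x', y, z, w`, and the same in the other places) -/
theorem Reg4.pow {S : Type} [CommRing S] {g0 g1 g2 δ : S} (h : Reg4 g0 g1 g2 δ) (k : ℕ) (hk : 0 < k) :
    Reg4 (g0 ^ k) (g1 ^ k) (g2 ^ k) δ := by
  obtain ⟨n, rfl⟩ : ∃ n, k = n + 1 := ⟨k - 1, by omega⟩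
  obtain ⟨a1, a2, a3, a4⟩ := reg4_iff.1 h
  have b1 := p1 a1 (n + 1)
  have b2 := p2 a1 a2 n
  have b3 := p3 a1 a2 a3 n
  have b4 := p4 a1 a2 a3 a4 n
  have c2 := p1 b2 (n + 1)
  have c3 := p2 b2 b3 n
  have c4 := p3 b2 b3 b4 n
  have d3 := p1 c3 (n + 1)
  have d4 := p2 c3 c4 n
  exact reg4_iff.2 ⟨b1, c2, d3, d4⟩

theorem good_of_cech {S : Type} [CommRing S] {ι p q : Type} [Fintype ι] [Fintype p] [Fintype q]
    (θ : ι → ι → S) (Xi : (p → S) →ₗ[S] (ι → S)) (M : (q → S) →ₗ[S] (p → S))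
    (adj : (p → S) →ₗ[S] (q → S)) (g0 g1 g2 δ : S)
    (h1 : ∀ ξ : ι → S, (∀ i j k, w12 ξ θ i j k = 0) ↔ ∃ e, Xi e = ξ)
    (h2 : ∀ e, Xi e = 0 ↔ ∃ f, M f = e) (h3 : ∀ f, adj (M f) = δ • f)
    (hg0 : AnnI θ g0) (hg1 : AnnI θ g1) (hg2 : AnnI θ g2)
    (hreg : ∀ k, 0 < k → Reg4 (g0 ^ k) (g1 ^ k) (g2 ^ k) δ) : Good θ := by
  intro b hb
  obtain ⟨K0, c0, e0⟩ := hb g0 hg0
  obtain ⟨K1, c1, e1⟩ := hb g1 hg1
  obtain ⟨K2, c2, e2⟩ := hb g2 hg2
  obtain ⟨G0, G1, G2, c0, c1, c2, hr, e0, e1, e2⟩ : ∃ (G0 G1 G2 : S) (c0 c1 c2 : ι → S),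
      Reg4 G0 G1 G2 δ ∧ (∀ i j k, G0 * b i j k = w12 c0 θ i j k) ∧
      (∀ i j k, G1 * b i j k = w12 c1 θ i j k) ∧ (∀ i j k, G2 * b i j k = w12 c2 θ i j k) := by
    refine ⟨g0 ^ (K0 + K1 + K2 + 1), g1 ^ (K0 + K1 + K2 + 1), g2 ^ (K0 + K1 + K2 + 1),
      fun l => g0 ^ (K1 + K2 + 1) * c0 l, fun l => g1 ^ (K0 + K2 + 1) * c1 l,
      fun l => g2 ^ (K0 + K1 + 1) * c2 l, hreg _ (by omega), ?_, ?_, ?_⟩
    · intro i j k
      rw [w12_smul, ← e0 i j k]; ring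
    · intro i j k
      rw [w12_smul, ← e1 i j k]; ring
    · intro i j k
      rw [w12_smul, ← e2 i j k]; ring
  obtain ⟨r1, r2, r3, r4⟩ := hr
  have key : ∀ (Ga Gb : S) (ca cb : ι → S), (∀ i j k, Ga * b i j k = w12 ca θ i j k) →
      (∀ i j k, Gb * b i j k = w12 cb θ i j k) → ∃ e, Xi e = fun l => Gb * ca l - Ga * cb l := by
    intro Ga Gb ca cb ha hb'
    refine (h1 _).1 fun i j k => ?_
    rw [w12_sub (fun l => Gb * ca l) (fun l => Ga * cb l) θ i j k, w12_smul, w12_smul,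
      ← ha, ← hb']
    ring
  obtain ⟨e01, x01⟩ := key G0 G1 c0 c1 e0 e1
  obtain ⟨e02, x02⟩ := key G0 G2 c0 c2 e0 e2
  obtain ⟨e12, x12⟩ := key G1 G2 c1 c2 e1 e2
  have hx : Xi (G2 • e01 - G1 • e02 + G0 • e12) = 0 := by
    rw [map_add, map_sub, map_smul, map_smul, map_smul, x01, x02, x12]
    funext l
    simp only [Pi.add_apply, Pi.sub_apply, Pi.smul_apply, smul_eq_mul, Pi.zero_apply]
    ring
  obtain ⟨f, hf⟩ := (h2 _).1 hx
  have hδ : δ • f = G2 • adj e01 - G1 • adj e02 + G0 • adj e12 := by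
    rw [← h3, hf, map_add, map_sub, map_smul, map_smul, map_smul]
  have hu : ∀ t, ∃ u v w, f t = G0 * u + G1 * v + G2 * w := fun t =>
    r4 (f t) ⟨adj e12 t, -(adj e02 t), adj e01 t, by
      have h5 := congrFun hδ t
      simp only [Pi.add_apply, Pi.sub_apply, Pi.smul_apply, smul_eq_mul] at h5
      rw [h5]; ring⟩
  choose u v w hu using hu
  have hfu : f = G0 • u + G1 • v + G2 • w := by
    funext t
    simp only [Pi.add_apply, Pi.smul_apply, smul_eq_mul]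
    exact hu t
  have hMf : M f = G0 • M u + G1 • M v + G2 • M w := by
    rw [hfu, map_add, map_add, map_smul, map_smul, map_smul]
  have ha : ∀ s, ∃ u' v', e01 s - M w s = G0 * u' + G1 * v' := fun s =>
    r3 _ ⟨-(e12 s - M u s), e02 s + M v s, by
      have h5 := congrFun hf s
      have h6 := congrFun hMf s
      simp only [Pi.add_apply, Pi.sub_apply, Pi.smul_apply, smul_eq_mul] at h5 h6
      linear_combination h6 - h5⟩
  choose a1 a0 ha using ha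
  have hea : e01 = M w + G0 • a1 + G1 • a0 := by
    funext s
    simp only [Pi.add_apply, Pi.smul_apply, smul_eq_mul]
    linear_combination ha s
  have hXM : Xi (M w) = 0 := (h2 _).2 ⟨w, rfl⟩
  have hc : ∀ l, ∃ c, c0 l - Xi a0 l = G0 * c := fun l =>
    r2 _ ⟨c1 l + Xi a1 l, by
      have h5 := congrFun x01 l
      rw [hea, map_add, map_add, map_smul, map_smul, hXM] at h5
      simp only [Pi.add_apply, Pi.smul_apply, smul_eq_mul, Pi.zero_apply] at h5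
      linear_combination -h5⟩
  choose c hc using hc
  refine ⟨c, fun i j k => ?_⟩
  refine sub_eq_zero.1 (r1 _ ?_)
  have h5 : w12 (Xi a0) θ i j k = 0 := (h1 _).2 ⟨a0, rfl⟩ i j k
  have h6 : G0 * w12 c θ i j k = w12 c0 θ i j k - w12 (Xi a0) θ i j k := by
    rw [← w12_smul, ← w12_sub]
    congr 1
    funext l
    exact (hc l).symm
  rw [mul_sub, h6, h5, e0]
  ring

end Pool.Agent.Helper71.FL
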