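import Pool.Agent.Helper71.FL.Uniq
import Pool.Agent.Helper93.Final

/-! FL-16: components are closed and stable under linear substitutions; cones; functions separating components.
`comp_pb`: `PreIrr_pull` with `Z = S` shows that `{B ∈ FolS M d | ∃ φ, ∃ A ∈ S, B = pb φ A}` is irreducible; it contains `S`, so it is
`S` by maximality.  `comp_closed`: `S ∪ {p}`-closure `cl` is irreducible (`PreIrr_cl`).  `exists_sep`: the other components are
finitely many and closed; product of functions. -/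

set_option autoImplicit false

namespace Pool.Agent.Helper71.FL

open MvPolynomial
open Pool.Agent.Helper93 (TT OF RE HomS IntS FolS Cop Comp PreIrr pb prj rst lsub)

theorem comp_closed {N d : ℕ} {S : Set (OF N)} (hS : S ∈ Comp (RE N) (FolS N d)) {p : OF N}
    (hp : p ∈ FolS N d) (h : ∀ f ∈ RE N, (∀ q ∈ S, f q = 0) → f p = 0) : p ∈ S := by
  obtain ⟨⟨h1, h2⟩, h3⟩ := hS
  have h4 := Pool.Agent.Helper93.subset_cl (RE N) h1
  have h5 : (fun t => t ⊆ FolS N d ∧ Pool.Agent.Helper93.Irr (RE N) t)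
      (Pool.Agent.Helper93.cl (RE N) (FolS N d) S) :=
    ⟨fun q hq => hq.1, h2.1.mono h4, Pool.Agent.Helper93.PreIrr_cl (RE N) h1 h2.2⟩
  exact h3 h5 h4 ⟨hp, h⟩

private theorem lsub_pb_aux {N M : ℕ} (φ : Fin N → Fin M → ℂ) (k : Fin N) :
    lsub φ (X k) = ∑ l, C (φ k l) * X l := by
  unfold lsub
  rw [aeval_X]

private theorem lsub_lsub {N M K : ℕ} (φ : Fin N → Fin M → ℂ) (ψ : Fin M → Fin K → ℂ)
    (p : MvPolynomial (Fin N) ℂ) :
    lsub ψ (lsub φ p) = lsub (fun i k => ∑ j, φ i j * ψ j k) p := by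
  have h1 : (lsub ψ).comp (lsub φ) = lsub (fun i k => ∑ j, φ i j * ψ j k) := by
    apply MvPolynomial.algHom_ext
    intro k
    rw [AlgHom.comp_apply, lsub_pb_aux, lsub_pb_aux, map_sum]
    simp only [map_mul, lsub_pb_aux]
    have hC : ∀ c : ℂ, lsub ψ (C c) = C c := by
      intro c
      exact AlgHom.commutes (lsub ψ) c
    simp only [hC, Finset.mul_sum, map_sum, map_mul, Finset.sum_mul]
    rw [Finset.sum_comm]
    apply Finset.sum_congr rfl
    intro l _
    apply Finset.sum_congr rfl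
    intro j _
    ring
  rw [← h1, AlgHom.comp_apply]

private theorem lsub_C {N M : ℕ} (φ : Fin N → Fin M → ℂ) (c : ℂ) : lsub φ (C c) = C c :=
  AlgHom.commutes (lsub φ) c

private theorem lsub_id {N : ℕ} (p : MvPolynomial (Fin N) ℂ) :
    lsub (fun i k : Fin N => if i = k then (1 : ℂ) else 0) p = p := by
  have h1 : lsub (fun i k : Fin N => if i = k then (1 : ℂ) else 0) = AlgHom.id ℂ _ := by
    apply MvPolynomial.algHom_ext
    intro k
    rw [lsub_pb_aux, Finset.sum_eq_single k]
    · simp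
    · intro l _ hl
      rw [if_neg (Ne.symm hl), C_0, zero_mul]
    · intro h'; exact absurd (Finset.mem_univ _) h'
  rw [h1]; rfl

private theorem pb_idm {N : ℕ} (A : OF N) :
    pb (fun i k : Fin N => if i = k then (1 : ℂ) else 0) A = A := by
  funext i
  unfold pb
  rw [Finset.sum_eq_single i]
  · simp only [if_true, C_1, one_mul]
    exact lsub_id (A i)
  · intro l _ hl
    simp only [if_neg hl, C_0, zero_mul]
  · intro h'; exact absurd (Finset.mem_univ _) h'

theorem comp_pb {N d : ℕ} (hN : 0 < N) {S : Set (OF N)} (hS : S ∈ Comp (RE N) (FolS N d))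
    {A : OF N} (hA : A ∈ S) (φ : Fin N → Fin N → ℂ) (h : pb φ A ∈ FolS N d) : pb φ A ∈ S := by
  obtain ⟨⟨h1, h2⟩, h3⟩ := hS
  have h4 : S ⊆ {B | B ∈ FolS N d ∧ ∃ φ : Fin N → Fin N → ℂ, ∃ A ∈ S, B = pb φ A} := by
    intro B hB
    exact ⟨h1 hB, _, B, hB, (pb_idm B).symm⟩
  have h5 : (fun t => t ⊆ FolS N d ∧ Pool.Agent.Helper93.Irr (RE N) t)
      {B | B ∈ FolS N d ∧ ∃ φ : Fin N → Fin N → ℂ, ∃ A ∈ S, B = pb φ A} :=
    ⟨fun q hq => hq.1, h2.1.mono h4,
      Pool.Agent.Helper93.PreIrr_pull hN h2.2 (fun B hB => (h1 hB).1)⟩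
  exact h3 h5 h4 ⟨h, φ, A, hA, rfl⟩

/-- `res` is the pullback by the inclusion of the hyperplane `x_0 = 0` -/
theorem res_eq_pb {N : ℕ} (A' : OF (N + 1)) :
    res A' = pb (fun (k : Fin (N + 1)) (l : Fin N) => if k = l.succ then (1 : ℂ) else 0) A' := by
  have h1 : (at0 N ℂ : MvPolynomial (Fin (N + 1)) ℂ →ₐ[ℂ] MvPolynomial (Fin N) ℂ) =
      lsub (fun (k : Fin (N + 1)) (l : Fin N) => if k = l.succ then (1 : ℂ) else 0) := by
    apply MvPolynomial.algHom_ext
    intro k
    rw [lsub_pb_aux]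
    unfold at0
    rw [aeval_X]
    refine Fin.cases ?_ ?_ k
    · rw [Fin.cons_zero]
      symm
      apply Finset.sum_eq_zero
      intro l _
      rw [if_neg (Ne.symm (Fin.succ_ne_zero l)), C_0, zero_mul]
    · intro m
      rw [Fin.cons_succ, Finset.sum_eq_single m]
      · rw [if_pos rfl, C_1, one_mul]
      · intro l _ hl
        rw [if_neg (fun h => hl (Fin.succ_injective _ h).symm), C_0, zero_mul]
      · intro h'; exact absurd (Finset.mem_univ _) h'
  funext i
  unfold res pb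
  rw [Finset.sum_eq_single i.succ]
  · rw [h1]
    simp only [if_true, C_1, one_mul]
  · intro k _ hk
    simp only [if_neg hk, C_0, zero_mul]
  · intro h'; exact absurd (Finset.mem_univ _) h'

private theorem lsub_succ {N : ℕ} (p : MvPolynomial (Fin N) ℂ) :
    lsub (fun (l : Fin N) (k : Fin (N + 1)) => if k = l.succ then (1 : ℂ) else 0) p =
      rename Fin.succ p := by
  have h1 : lsub (fun (l : Fin N) (k : Fin (N + 1)) => if k = l.succ then (1 : ℂ) else 0) =
      (rename Fin.succ : MvPolynomial (Fin N) ℂ →ₐ[ℂ] MvPolynomial (Fin (N + 1)) ℂ) := by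
    apply MvPolynomial.algHom_ext
    intro k
    rw [lsub_pb_aux, rename_X, Finset.sum_eq_single k.succ]
    · rw [if_pos rfl, C_1, one_mul]
    · intro l _ hl
      rw [if_neg hl, C_0, zero_mul]
    · intro h'; exact absurd (Finset.mem_univ _) h'
  rw [h1]

/-- `cone` is the pullback by the projection forgetting `x_0` -/
theorem cone_eq_pb {N : ℕ} (A : OF N) :
    cone A = pb (fun (l : Fin N) (k : Fin (N + 1)) => if k = l.succ then (1 : ℂ) else 0) A := by
  funext i
  unfold cone pb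
  refine Fin.cases ?_ ?_ i
  · rw [Fin.cons_zero]
    symm
    apply Finset.sum_eq_zero
    intro l _
    simp only [if_neg (Ne.symm (Fin.succ_ne_zero l)), C_0, zero_mul]
  · intro m
    rw [Fin.cons_succ, Finset.sum_eq_single m]
    · simp only [if_true, C_1, one_mul, lsub_succ]
      rfl
    · intro l _ hl
      have hl' : ¬ (m.succ = l.succ) := fun h => hl (Fin.succ_injective _ h).symm
      simp only [if_neg hl', C_0, zero_mul]
    · intro h'; exact absurd (Finset.mem_univ _) h'

theorem pb_pb {N M K : ℕ} (φ : Fin N → Fin M → ℂ) (ψ : Fin M → Fin K → ℂ) (A : OF N) :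
    pb ψ (pb φ A) = pb (fun i k => ∑ j, φ i j * ψ j k) A := by
  funext k
  unfold pb
  simp only [map_sum, map_mul, lsub_C, lsub_lsub, Finset.mul_sum, Finset.sum_mul]
  rw [Finset.sum_comm]
  apply Finset.sum_congr rfl
  intro i _
  apply Finset.sum_congr rfl
  intro j _
  ring

/-- a permutation matrix which turns the projection onto the first coordinates into the projection
forgetting `x_0` -/
private theorem cop_lin {N : ℕ} (ρ σ : Fin N → Fin N → ℂ)
    (h1 : (fun i k => ∑ j, ρ i j * σ j k) = fun i k => if i = k then (1 : ℂ) else 0)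
    (h2 : (fun i k => ∑ j, σ i j * ρ j k) = fun i k => if i = k then (1 : ℂ) else 0)
    {A : OF N} (hA : Cop A) : Cop (pb ρ A) := by
  intro p hp
  have h3 : ∀ i, lsub σ p ∣ A i := by
    intro i
    have h4 : A = pb σ (pb ρ A) := by rw [pb_pb, h1, pb_idm]
    rw [h4]
    show lsub σ p ∣ ∑ j, C (σ j i) * lsub σ (pb ρ A j)
    apply Finset.dvd_sum
    intro j _
    exact Dvd.dvd.mul_left (map_dvd (lsub σ) (hp j)) _
  have h5 := hA _ h3
  have h6 : lsub ρ (lsub σ p) = p := by rw [lsub_lsub, h2, lsub_id]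
  rw [← h6]
  exact h5.map (lsub ρ)

theorem cop_cone {N : ℕ} (hN : 0 < N) {A : OF N} (hA : Cop A) : Cop (cone A) := by
  have hle : N ≤ N + 1 := Nat.le_succ N
  have h1 := Pool.Agent.Helper93.cop_prj hN hle hA
  -- the cyclic permutation matrix
  let e : Fin (N + 1) ≃ Fin (N + 1) := finRotate (N + 1)
  let ρ : Fin (N + 1) → Fin (N + 1) → ℂ := fun i k => if k = e i then 1 else 0
  let σ : Fin (N + 1) → Fin (N + 1) → ℂ := fun i k => if k = e.symm i then 1 else 0
  have hρσ : (fun i k => ∑ j, ρ i j * σ j k) = fun i k => if i = k then (1 : ℂ) else 0 := by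
    funext i k
    rw [Finset.sum_eq_single (e i)]
    · simp only [ρ, σ, if_true, one_mul, Equiv.symm_apply_apply]
      by_cases hik : i = k
      · rw [if_pos hik, if_pos hik.symm]
      · rw [if_neg hik, if_neg (fun h => hik h.symm)]
    · intro j _ hj
      simp only [ρ, if_neg hj, zero_mul]
    · intro h'; exact absurd (Finset.mem_univ _) h'
  have hσρ : (fun i k => ∑ j, σ i j * ρ j k) = fun i k => if i = k then (1 : ℂ) else 0 := by
    funext i k
    rw [Finset.sum_eq_single (e.symm i)]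
    · simp only [ρ, σ, if_true, one_mul, Equiv.apply_symm_apply]
      by_cases hik : i = k
      · rw [if_pos hik, if_pos hik.symm]
      · rw [if_neg hik, if_neg (fun h => hik h.symm)]
    · intro j _ hj
      simp only [σ, if_neg hj, zero_mul]
    · intro h'; exact absurd (Finset.mem_univ _) h'
  have h2 := cop_lin ρ σ hρσ hσρ h1
  have h3 : cone A = pb ρ (pb (prj hle) A) := by
    rw [cone_eq_pb, pb_pb]
    congr 1
    funext l k
    rw [Finset.sum_eq_single (Fin.castLE hle l)]
    · have h4 : e (Fin.castLE hle l) = l.succ := by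
        apply Fin.ext
        show ((finRotate (N + 1)) (Fin.castLE hle l) : Fin (N + 1)).val = l.succ.val
        rw [finRotate_of_lt (by simp)]
        simp
      simp only [prj, ρ, if_true, one_mul, h4]
    · intro j _ hj
      simp only [prj, if_neg hj, zero_mul]
    · intro h'; exact absurd (Finset.mem_univ _) h'
  rw [h3]
  exact h2

/-- coprimality of the pullback by a map with a section implies coprimality -/
theorem cop_of_cop_pb {N M : ℕ} {A : OF N} (φ : Fin N → Fin M → ℂ) (ψ : Fin M → Fin N → ℂ)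
    (h1 : (fun i k => ∑ j, φ i j * ψ j k) = (fun i k => if i = k then (1 : ℂ) else 0))
    (h : Cop (pb φ A)) : Cop A := by
  intro p hp
  have h2 : ∀ i, lsub φ p ∣ pb φ A i := by
    intro i
    show lsub φ p ∣ ∑ j, C (φ j i) * lsub φ (A j)
    apply Finset.dvd_sum
    intro j _
    exact Dvd.dvd.mul_left (map_dvd (lsub φ) (hp j)) _
  have h3 := h _ h2
  have h4 : lsub ψ (lsub φ p) = p := by rw [lsub_lsub, h1, lsub_id]
  rw [← h4]
  exact h3.map (lsub ψ)

theorem cone_mem_IntS {N d : ℕ} {A : OF N} (hA : A ∈ IntS N d) : cone A ∈ IntS (N + 1) d := by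
  rw [cone_eq_pb]
  exact Pool.Agent.Helper93.pb_IntS _ hA

/-- cones over restrictions of members of a component belong to the component -/
theorem cone_res_mem {N d : ℕ} (hN : 0 < N) {S : Set (OF (N + 1))}
    (hS : S ∈ Comp (RE (N + 1)) (FolS (N + 1) d)) {A : OF N} (hA : A ∈ rst N (N + 1) d S) :
    cone A ∈ S := by
  obtain ⟨h1, φ, A', hA', h2⟩ := hA
  have h3 : cone A ∈ FolS (N + 1) d := ⟨cone_mem_IntS h1.1, cop_cone hN h1.2⟩
  rw [cone_eq_pb, h2, pb_pb] at h3 ⊢
  exact comp_pb (Nat.succ_pos N) hS hA' _ h3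

/-- a point on one component only is separated from the other components and from the forms with a
common factor -/
theorem exists_sep {N d : ℕ} (hN : 0 < N) {S : Set (OF N)} (hS : S ∈ Comp (RE N) (FolS N d))
    {A0 : OF N} (hA0 : A0 ∈ S) (h : ∀ S2 ∈ Comp (RE N) (FolS N d), A0 ∈ S2 → S2 = S) :
    ∃ G : PR N d, pt d A0 G ≠ 0 ∧ ∀ A ∈ IntS N d, pt d A G ≠ 0 → A ∈ S := by
  classical
  have hA0F : A0 ∈ FolS N d := hS.1.1 hA0
  have hfin : (Comp (RE N) (FolS N d)).Finite := Pool.Agent.Helper93.comp_finite hN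
  have hex : ∀ S2 ∈ Comp (RE N) (FolS N d), S2 ≠ S →
      ∃ f ∈ RE N, (∀ q ∈ S2, f q = 0) ∧ f A0 ≠ 0 := by
    intro S2 hS2 hne
    by_contra hcon
    push Not at hcon
    exact hne (h S2 hS2 (comp_closed hS2 hA0F hcon))
  choose! f hf hf0 hfA using hex
  obtain ⟨c, hc, hcA, hcB⟩ := Pool.Agent.Helper93.cop_open hN (d := d) hA0F.1.1 hA0F.2
  let T : Finset (Set (OF N)) := hfin.toFinset.erase S
  have hT : ∀ S2 ∈ T, S2 ∈ Comp (RE N) (FolS N d) ∧ S2 ≠ S := by
    intro S2 hS2
    exact ⟨hfin.mem_toFinset.mp (Finset.mem_of_mem_erase hS2), Finset.ne_of_mem_erase hS2⟩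
  have hg : c * ∏ S2 ∈ T, f S2 ∈ RE N :=
    (RE N).mul_mem hc ((RE N).prod_mem (fun S2 hS2 => hf S2 (hT S2 hS2).1 (hT S2 hS2).2))
  obtain ⟨G, hG⟩ := exists_PR_of_RE (d := d) hg
  refine ⟨G, ?_, ?_⟩
  · rw [← hG A0 hA0F.1.1, Pi.mul_apply, Finset.prod_apply]
    exact mul_ne_zero hcA (Finset.prod_ne_zero_iff.mpr
      (fun S2 hS2 => hfA S2 (hT S2 hS2).1 (hT S2 hS2).2))
  · intro A hA hAG
    rw [← hG A hA.1, Pi.mul_apply, Finset.prod_apply] at hAG
    have hcop : Cop A := hcB A hA.1 (left_ne_zero_of_mul hAG)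
    have hprod := right_ne_zero_of_mul hAG
    have hAF : A ∈ FolS N d := ⟨hA, hcop⟩
    obtain ⟨J, hJ⟩ := Pool.Agent.Helper93.fol_bound d
    obtain ⟨Z, hZ1, hZ2⟩ := hJ N hN
    have hirr : Pool.Agent.Helper93.Irr (RE N) ({A} : Set (OF N)) := by
      refine ⟨Set.singleton_nonempty A, ?_⟩
      intro f1 _ g1 _ hfg
      rcases mul_eq_zero.mp (hfg A rfl) with h1 | h1
      · left
        intro q hq
        rw [Set.mem_singleton_iff.mp hq]; exact h1
      · right
        intro q hq
        rw [Set.mem_singleton_iff.mp hq]; exact h1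
    obtain ⟨S2, hS2, hAS2⟩ := Pool.Agent.Helper93.exists_Comp (RE N) hZ2 hZ1 hirr
      (Set.singleton_subset_iff.mpr hAF)
    have hAS2' : A ∈ S2 := hAS2 rfl
    by_cases hne : S2 = S
    · rw [← hne]; exact hAS2'
    · exfalso
      apply hprod
      apply Finset.prod_eq_zero (i := S2)
      · exact Finset.mem_erase.mpr ⟨hne, hfin.mem_toFinset.mpr hS2⟩
      · exact hf0 S2 hS2 hne A hAS2'

end Pool.Agent.Helper71.FL
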