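import Pool.Agent.Helper71.FL.Defs

/-! FL-1: Artinian algebras, socle elements, truncated polynomial rings.
Proofs: `socle`: the maximal ideal `n = ker aug` is nilpotent (finitely generated by nilpotents), take the largest `k`
with `n^k * J ≠ ⊥` and a nonzero element of it.  `quot`: finite module quotient, kernel elements lift to nilpotents.
`Tr.art`: `B[z]/(z^(m+1))` is spanned over `B` by `z^0..z^m`; an element of the kernel of `aug` is (nilpotent constant)
plus a multiple of `z`, both nilpotent. -/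

set_option autoImplicit false

namespace Pool.Agent.Helper71.FL

open MvPolynomial

theorem Art.socle {B : Type} [CommRing B] [Algebra ℂ B] {aug : B →ₐ[ℂ] ℂ} (h : Art B aug)
    (J : Ideal B) (hJ : J ≠ ⊥) :
    ∃ ε ∈ J, ε ≠ 0 ∧ ∀ b, b * ε = algebraMap ℂ B (aug b) * ε := by
  classical
  have hfin : Module.Finite ℂ B := h.fin
  have hN : IsNoetherian ℂ B := isNoetherian_of_isNoetherianRing_of_finite ℂ B
  have hNB : IsNoetherianRing B := isNoetherian_of_tower ℂ hN
  obtain ⟨k, hk⟩ : ∃ k : ℕ, (RingHom.ker (aug : B →+* ℂ)) ^ k ≤ (⊥ : Ideal B) := by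
    refine Ideal.exists_pow_le_of_le_radical_of_fg ?_
      ((isNoetherianRing_iff_ideal_fg B).mp hNB _)
    intro b hb
    obtain ⟨j, hj⟩ := h.nil b (by simpa using hb)
    exact ⟨j, by simpa using hj⟩
  have hex : ∃ j : ℕ, (RingHom.ker (aug : B →+* ℂ)) ^ j * J = ⊥ := by
    refine ⟨k, ?_⟩
    rw [eq_bot_iff]
    exact le_trans (Ideal.mul_mono_left hk) (by simp)
  have h0 : Nat.find hex ≠ 0 := by
    intro h0
    have h1 := Nat.find_spec hex
    rw [h0] at h1
    exact hJ (by simpa using h1)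
  obtain ⟨m, hm⟩ := Nat.exists_eq_succ_of_ne_zero h0
  have hlt : m < Nat.find hex := by omega
  have hne := Nat.find_min hex hlt
  obtain ⟨ε, hε, hε0⟩ := Submodule.exists_mem_ne_zero_of_ne_bot hne
  refine ⟨ε, Ideal.mul_le_right hε, hε0, fun b => ?_⟩
  have hmem : b - algebraMap ℂ B (aug b) ∈ RingHom.ker (aug : B →+* ℂ) := by
    rw [RingHom.mem_ker]
    show aug (b - algebraMap ℂ B (aug b)) = 0
    rw [map_sub, AlgHom.commutes]
    simp
  have h2 : (b - algebraMap ℂ B (aug b)) * ε ∈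
      (RingHom.ker (aug : B →+* ℂ)) ^ (Nat.find hex) * J := by
    rw [hm, Nat.succ_eq_add_one, pow_succ', mul_assoc]
    exact Ideal.mul_mem_mul hmem hε
  rw [Nat.find_spec hex, Ideal.mem_bot] at h2
  have h3 : b * ε - algebraMap ℂ B (aug b) * ε = 0 := by rw [← sub_mul]; exact h2
  exact sub_eq_zero.mp h3

/-- augmentation of a quotient -/
noncomputable def qaug {B : Type} [CommRing B] [Algebra ℂ B] (aug : B →ₐ[ℂ] ℂ) (J : Ideal B)
    (hJ : ∀ b ∈ J, aug b = 0) : (B ⧸ J) →ₐ[ℂ] ℂ := Ideal.Quotient.liftₐ J aug hJ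

theorem qaug_mk {B : Type} [CommRing B] [Algebra ℂ B] (aug : B →ₐ[ℂ] ℂ) (J : Ideal B)
    (hJ : ∀ b ∈ J, aug b = 0) (b : B) : qaug aug J hJ (Ideal.Quotient.mk J b) = aug b := rfl

theorem Art.quot {B : Type} [CommRing B] [Algebra ℂ B] {aug : B →ₐ[ℂ] ℂ} (h : Art B aug)
    (J : Ideal B) (hJ : ∀ b ∈ J, aug b = 0) : Art (B ⧸ J) (qaug aug J hJ) := by
  have hfin : Module.Finite ℂ B := h.fin
  refine ⟨?_, ?_⟩
  · exact Module.Finite.of_surjective (Ideal.Quotient.mkₐ ℂ J).toLinearMap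
      (Ideal.Quotient.mkₐ_surjective ℂ J)
  · intro b hb
    obtain ⟨b, rfl⟩ := Ideal.Quotient.mk_surjective b
    rw [qaug_mk] at hb
    exact (h.nil b hb).map (Ideal.Quotient.mk J)

/-- the truncated polynomial ring `B[z]/(z^(m+1))` -/
abbrev Tr (B : Type) [CommRing B] (m : ℕ) : Type :=
  Polynomial B ⧸ Ideal.span {(Polynomial.X : Polynomial B) ^ (m + 1)}

/-- its augmentation -/
noncomputable def traug {B : Type} [CommRing B] [Algebra ℂ B] (aug : B →ₐ[ℂ] ℂ) (m : ℕ) :
    Tr B m →ₐ[ℂ] ℂ :=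
  Ideal.Quotient.liftₐ _ (aug.comp ((Polynomial.aeval (0 : B)).restrictScalars ℂ)) (by
    intro a ha
    obtain ⟨c, rfl⟩ := Ideal.mem_span_singleton.mp ha
    simp)

theorem traug_mk {B : Type} [CommRing B] [Algebra ℂ B] (aug : B →ₐ[ℂ] ℂ) (m : ℕ)
    (p : Polynomial B) : traug aug m (Ideal.Quotient.mk _ p) = aug (p.coeff 0) := by
  show aug (Polynomial.aeval (0 : B) p) = aug (p.coeff 0)
  rw [Polynomial.coeff_zero_eq_aeval_zero]

theorem Tr.art {B : Type} [CommRing B] [Algebra ℂ B] {aug : B →ₐ[ℂ] ℂ} (h : Art B aug) (m : ℕ) :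
    Art (Tr B m) (traug aug m) := by
  have hfin : Module.Finite ℂ B := h.fin
  refine ⟨?_, ?_⟩
  · have h1 : Module.Finite B (Tr B m) :=
      (Polynomial.monic_X_pow (m + 1) : ((Polynomial.X : Polynomial B) ^ (m + 1)).Monic).finite_quotient
    exact Module.Finite.trans B (Tr B m)
  · intro b hb
    obtain ⟨p, rfl⟩ := Ideal.Quotient.mk_surjective b
    rw [traug_mk] at hb
    have h1 : p = Polynomial.C (p.coeff 0) + Polynomial.X * p.divX := by
      rw [add_comm, Polynomial.X_mul_divX_add]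
    rw [h1, map_add, map_mul]
    refine Commute.isNilpotent_add (Commute.all _ _) ?_ ?_
    · exact ((h.nil _ hb).map (Polynomial.C : B →+* Polynomial B)).map (Ideal.Quotient.mk _)
    · refine Commute.isNilpotent_mul_right (Commute.all _ _) ?_
      refine ⟨m + 1, ?_⟩
      rw [← map_pow]
      exact Ideal.Quotient.eq_zero_iff_mem.mpr (Ideal.mem_span_singleton_self _)

end Pool.Agent.Helper71.FL
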