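import Pool.Agent.Helper71.FL.Th

/-! FL-11: integrable 1-forms and closed decomposable 2-forms. -/

set_option autoImplicit false

namespace Pool.Agent.Helper71.FL

open MvPolynomial

section
variable {N d : ℕ} {B : Type} [CommRing B] [Algebra ℂ B]

private theorem pdc {σ R : Type} [CommRing R] (i j : σ) (p : MvPolynomial σ R) :
    pderiv i (pderiv j p) = pderiv j (pderiv i p) := by
  classical
  have h : ⁅(pderiv i : Derivation R (MvPolynomial σ R) (MvPolynomial σ R)),
      (pderiv j : Derivation R (MvPolynomial σ R) (MvPolynomial σ R))⁆ = 0 := by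
    apply MvPolynomial.derivation_ext
    intro k
    rw [Derivation.commutator_apply]
    rw [pderiv_X, pderiv_X]
    simp only [Pi.single_apply, Derivation.coe_zero, Pi.zero_apply]
    have h0 : ∀ (a b : σ) (q : Prop) [Decidable q], pderiv a (if q then (1 : MvPolynomial σ R) else 0)
        = 0 := by
      intro a b q _
      split_ifs
      · exact pderiv_one
      · exact map_zero _
    rw [h0 i i, h0 j j, sub_zero]
  have h2 := congrArg (fun D : Derivation R (MvPolynomial σ R) (MvPolynomial σ R) => D p) h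
  simp only [Derivation.commutator_apply, Derivation.coe_zero, Pi.zero_apply] at h2
  exact sub_eq_zero.mp h2

private theorem two_cancel {σ : Type} {p : MvPolynomial σ B} (h : 2 * p = 0) : p = 0 := by
  have h2 : (C (algebraMap ℂ B (1 / 2)) : MvPolynomial σ B) * 2 = 1 := by
    have h3 : (2 : MvPolynomial σ B) = C (algebraMap ℂ B 2) := by
      rw [map_ofNat, map_ofNat]
    rw [h3, ← C_mul, ← map_mul]
    norm_num
  calc p = (C (algebraMap ℂ B (1 / 2)) * 2) * p := by rw [h2, one_mul]
    _ = C (algebraMap ℂ B (1 / 2)) * (2 * p) := by ring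
    _ = 0 := by rw [h, mul_zero]

private theorem inv_mul {σ : Type} (d : ℕ) (p : MvPolynomial σ B) :
    C (algebraMap ℂ B (1 / ((d : ℂ) + 2))) * (C (algebraMap ℂ B ((d : ℂ) + 2)) * p) = p := by
  rw [← mul_assoc, ← C_mul, ← map_mul]
  have h : (d : ℂ) + 2 ≠ 0 := by
    have h1 : ((d : ℂ) + 2) = ((d + 2 : ℕ) : ℂ) := by push_cast; ring
    rw [h1]
    exact_mod_cast Nat.succ_ne_zero (d + 1)
  rw [one_div_mul_cancel h, map_one, C_1, one_mul]

private theorem C_d {σ : Type} (d : ℕ) : (C (algebraMap ℂ B ((d : ℂ) + 2)) : MvPolynomial σ B) =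
    (d : MvPolynomial σ B) + 2 := by
  rw [map_add, map_add, map_natCast, map_natCast, map_ofNat, map_ofNat]

theorem dd_closed (A : Fin N → MvPolynomial (Fin N) B) : Closed (dd A) := by
  intro i j k
  unfold dd
  simp only [map_sub]
  rw [pdc j i (A k), pdc k i (A j), pdc k j (A i)]
  ring

theorem dd_hom {A : Fin N → MvPolynomial (Fin N) B} (hA : ∀ i, (A i).IsHomogeneous (d + 1))
    (i j : Fin N) : (dd A i j).IsHomogeneous d := by
  unfold dd
  exact ((hA j).pderiv (i := i)).sub ((hA i).pderiv (i := j))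

/-- `d (A ∧ dA) = dA ∧ dA` -/
theorem dd_dec {A : Fin N → MvPolynomial (Fin N) B} (hA : ∀ i j k, w12 A (dd A) i j k = 0) :
    Dec (dd A) := by
  refine ⟨fun i => ?_, fun i j => ?_, fun i j k l => ?_⟩
  · unfold dd; ring
  · unfold dd; ring
  · apply two_cancel
    have h1 := congrArg (pderiv i) (hA j k l)
    have h2 := congrArg (pderiv j) (hA i k l)
    have h3 := congrArg (pderiv k) (hA i j l)
    have h4 := congrArg (pderiv l) (hA i j k)
    unfold w12 dd at h1 h2 h3 h4
    simp only [map_add, map_sub, pderiv_mul, map_zero] at h1 h2 h3 h4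
    unfold pf dd
    linear_combination h1 - h2 + h3 - h4
      - (A i * (-pdc j k (A l) + pdc j l (A k) - pdc k l (A j))
        + A j * (pdc i k (A l) - pdc i l (A k) + pdc k l (A i))
        + A k * (pdc i l (A j) - pdc i j (A l) - pdc j l (A i))
        + A l * (pdc i j (A k) - pdc i k (A j) + pdc j k (A i)))

private theorem rad_der {A : Fin N → MvPolynomial (Fin N) B} (h : (∑ i, X i * A i) = 0)
    (j : Fin N) : A j + ∑ i, X i * pderiv j (A i) = 0 := by
  classical
  have h1 := congrArg (pderiv j) h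
  rw [map_sum, map_zero] at h1
  have h2 : ∀ i, pderiv j (X i * A i) = (if i = j then A i else 0) + X i * pderiv j (A i) := by
    intro i
    rw [pderiv_mul, pderiv_X]
    by_cases h3 : i = j
    · simp [h3]
    · simp [h3]
  rw [Finset.sum_congr rfl (fun i _ => h2 i), Finset.sum_add_distrib] at h1
  simpa using h1

/-- Euler: the contraction of `dA` with the radial field is `(d + 2) A` -/
theorem euler_dd {A : Fin N → MvPolynomial (Fin N) B} (hA : A ∈ IntB N d B) (j : Fin N) :
    ct X (dd A) j = C (algebraMap ℂ B ((d : ℂ) + 2)) * A j := by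
  obtain ⟨h1, h2, -⟩ := hA
  have e := (h1 j).sum_X_mul_pderiv
  have r := rad_der h2 j
  have s : ct X (dd A) j = ∑ i, X i * pderiv i (A j) - ∑ i, X i * pderiv j (A i) := by
    unfold ct dd
    rw [← Finset.sum_sub_distrib]
    exact Finset.sum_congr rfl (fun i _ => by ring)
  rw [s, e, C_d, nsmul_eq_mul]
  push_cast
  linear_combination - r

/-- from closed decomposable 2-forms back to 1-forms -/
theorem IntB_of_closed {θ : Fin N → Fin N → MvPolynomial (Fin N) B} (hc : Closed θ) (hd : Dec θ)
    (hθ : ∀ i j, (θ i j).IsHomogeneous d) :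
    (fun j => C (algebraMap ℂ B (1 / ((d : ℂ) + 2))) * ct X θ j) ∈ IntB N d B ∧
    ∀ i j, dd (fun j => C (algebraMap ℂ B (1 / ((d : ℂ) + 2))) * ct X θ j) i j = θ i j := by
  classical
  have hct : ∀ j, (ct X θ j).IsHomogeneous (d + 1) := by
    intro j
    unfold ct
    apply IsHomogeneous.sum
    intro i _
    have h := (isHomogeneous_X B i).mul (hθ i j)
    rwa [add_comm] at h
  have key : ∀ i j, dd (fun j => C (algebraMap ℂ B (1 / ((d : ℂ) + 2))) * ct X θ j) i j
      = θ i j := by
    intro i j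
    have hp : ∀ i j, pderiv i (ct X θ j) = θ i j + ∑ k, X k * pderiv i (θ k j) := by
      intro i j
      unfold ct
      rw [map_sum]
      have h2 : ∀ k, pderiv i (X k * θ k j) = (if k = i then θ k j else 0)
          + X k * pderiv i (θ k j) := by
        intro k
        rw [pderiv_mul, pderiv_X]
        by_cases h3 : k = i
        · simp [h3]
        · simp [h3]
      rw [Finset.sum_congr rfl (fun k _ => h2 k), Finset.sum_add_distrib]
      simp
    have he := (hθ i j).sum_X_mul_pderiv
    have hs : (∑ k, X k * pderiv i (θ k j)) - ∑ k, X k * pderiv j (θ k i)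
        = ∑ k, X k * pderiv k (θ i j) := by
      rw [← Finset.sum_sub_distrib]
      apply Finset.sum_congr rfl
      intro k _
      have h1 := hc i j k
      have h2 : pderiv i (θ k j) = - pderiv i (θ j k) := by rw [hd.2.1 k j, map_neg]
      rw [h2]
      linear_combination - X k * h1
    have h3 : dd (fun j => C (algebraMap ℂ B (1 / ((d : ℂ) + 2))) * ct X θ j) i j =
        C (algebraMap ℂ B (1 / ((d : ℂ) + 2))) * (C (algebraMap ℂ B ((d : ℂ) + 2)) * θ i j) := by
      unfold dd
      simp only [pderiv_C_mul]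
      rw [hp i j, hp j i, C_d]
      rw [nsmul_eq_mul] at he
      have h4 := hd.2.1 j i
      linear_combination C (algebraMap ℂ B (1 / ((d : ℂ) + 2))) * (hs + he - h4)
    rw [h3, inv_mul]
  refine ⟨⟨fun i => ?_, ?_, fun i j k => ?_⟩, key⟩
  · have h := (isHomogeneous_C (Fin N) (algebraMap ℂ B (1 / ((d : ℂ) + 2)))).mul (hct i)
    rwa [zero_add] at h
  · have h1 : (∑ i, X i * ct X θ i) = 0 := by
      apply two_cancel
      have h2 : (∑ i, X i * ct X θ i) = ∑ i, ∑ k, X i * (X k * θ k i) := by
        apply Finset.sum_congr rfl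
        intro i _
        unfold ct
        rw [Finset.mul_sum]
      have h3 : (∑ i, ∑ k, X i * (X k * θ k i)) = - ∑ i, ∑ k, X i * (X k * θ k i) := by
        conv_lhs => rw [Finset.sum_comm]
        rw [← Finset.sum_neg_distrib]
        apply Finset.sum_congr rfl
        intro i _
        rw [← Finset.sum_neg_distrib]
        apply Finset.sum_congr rfl
        intro k _
        rw [hd.2.1 i k]
        ring
      rw [h2]
      linear_combination h3
    have h2 : (∑ i, X i * (C (algebraMap ℂ B (1 / ((d : ℂ) + 2))) * ct X θ i)) =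
        C (algebraMap ℂ B (1 / ((d : ℂ) + 2))) * ∑ i, X i * ct X θ i := by
      rw [Finset.mul_sum]
      exact Finset.sum_congr rfl (fun i _ => by ring)
    rw [h2, h1, mul_zero]
  · have h1 : w12 (fun j => C (algebraMap ℂ B (1 / ((d : ℂ) + 2))) * ct X θ j)
        (dd (fun j => C (algebraMap ℂ B (1 / ((d : ℂ) + 2))) * ct X θ j)) i j k =
        w12 (fun j => C (algebraMap ℂ B (1 / ((d : ℂ) + 2))) * ct X θ j) θ i j k := by
      unfold w12
      rw [key, key, key]
    rw [h1, w12_smul, w12_ct hd, mul_zero]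

private theorem at0_Xs (i : Fin N) : at0 N B (X i.succ) = X i := by
  unfold at0
  rw [aeval_X, Fin.cons_succ]

private theorem at0_dd (A' : Fin (N + 1) → MvPolynomial (Fin (N + 1)) B) (i j : Fin N) :
    at0 N B (dd A' i.succ j.succ) = dd (res A') i j := by
  unfold dd res
  rw [map_sub, at0_pderiv_succ, at0_pderiv_succ]

theorem res_IntB {A' : Fin (N + 1) → MvPolynomial (Fin (N + 1)) B} (hA : A' ∈ IntB (N + 1) d B) :
    res A' ∈ IntB N d B := by
  obtain ⟨h1, h2, h3⟩ := hA
  refine ⟨fun i => at0_hom (h1 i.succ), ?_, fun i j k => ?_⟩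
  · have h := congrArg (at0 N B) h2
    rw [Fin.sum_univ_succ, map_add, map_mul, at0_X0, zero_mul, zero_add, map_sum, map_zero] at h
    rw [← h]
    apply Finset.sum_congr rfl
    intro i _
    rw [map_mul, at0_Xs]
    rfl
  · have h := congrArg (at0 N B) (h3 i.succ j.succ k.succ)
    rw [map_zero] at h
    rw [← h]
    unfold w12
    simp only [map_add, map_mul]
    rw [at0_dd, at0_dd, at0_dd]
    rfl

theorem conv_Th {A' : Fin (N + 1) → MvPolynomial (Fin (N + 1)) B} (i j : Fin N) :
    dd A' i.succ j.succ = Th (dd (res A')) (fun j => dd A' 0 j.succ) i j := by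
  have h : pderiv i.succ (dd A' 0 j.succ) - pderiv j.succ (dd A' 0 i.succ)
      = pderiv 0 (dd A' i.succ j.succ) := by
    unfold dd
    simp only [map_sub]
    rw [pdc i.succ 0, pdc j.succ 0, pdc j.succ i.succ (A' 0)]
    ring
  unfold Th
  show _ = _ + int0 N B (pderiv i.succ (dd A' 0 j.succ) - pderiv j.succ (dd A' 0 i.succ))
  rw [h, int0_pderiv, at0_dd]
  ring

theorem conv_sol {A' : Fin (N + 1) → MvPolynomial (Fin (N + 1)) B} (hA : A' ∈ IntB (N + 1) d B)
    (i j k : Fin N) : w12 (fun j => dd A' 0 j.succ)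
      (Th (dd (res A')) (fun j => dd A' 0 j.succ)) i j k = 0 := by
  have hd := dd_dec hA.2.2
  have h := hd.2.2 0 i.succ j.succ k.succ
  unfold w12
  rw [← conv_Th, ← conv_Th, ← conv_Th]
  unfold pf at h
  rw [hd.2.1 k.succ i.succ]
  linear_combination h

/-- the 2-form on the larger space -/
private noncomputable def glue (T : Fin N → Fin N → MvPolynomial (Fin (N + 1)) B)
    (ξ : Fin N → MvPolynomial (Fin (N + 1)) B) :
    Fin (N + 1) → Fin (N + 1) → MvPolynomial (Fin (N + 1)) B :=
  Fin.cons (Fin.cons 0 ξ) (fun i => Fin.cons (- ξ i) (T i))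

private theorem glue_00 (T : Fin N → Fin N → MvPolynomial (Fin (N + 1)) B)
    (ξ : Fin N → MvPolynomial (Fin (N + 1)) B) : glue T ξ 0 0 = 0 := rfl

private theorem glue_0s (T : Fin N → Fin N → MvPolynomial (Fin (N + 1)) B)
    (ξ : Fin N → MvPolynomial (Fin (N + 1)) B) (j : Fin N) : glue T ξ 0 j.succ = ξ j := rfl

private theorem glue_s0 (T : Fin N → Fin N → MvPolynomial (Fin (N + 1)) B)
    (ξ : Fin N → MvPolynomial (Fin (N + 1)) B) (j : Fin N) : glue T ξ j.succ 0 = - ξ j := rfl

private theorem glue_ss (T : Fin N → Fin N → MvPolynomial (Fin (N + 1)) B)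
    (ξ : Fin N → MvPolynomial (Fin (N + 1)) B) (i j : Fin N) : glue T ξ i.succ j.succ = T i j := rfl

private theorem at0_C (b : B) : at0 N B (C b) = C b := by
  unfold at0
  rw [aeval_C]
  rfl

private theorem pd0_Th (θ0 : Fin N → Fin N → MvPolynomial (Fin N) B)
    (ξ : Fin N → MvPolynomial (Fin (N + 1)) B) (i j : Fin N) :
    pderiv 0 (Th θ0 ξ i j) = pderiv i.succ (ξ j) - pderiv j.succ (ξ i) := by
  unfold Th
  rw [map_add, pderiv0_emb, pderiv_int0, zero_add]

private theorem glue_closed {θ0 : Fin N → Fin N → MvPolynomial (Fin N) B}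
    {ξ : Fin N → MvPolynomial (Fin (N + 1)) B}
    (hT : ∀ i j k : Fin N, pderiv i.succ (Th θ0 ξ j k) + pderiv j.succ (Th θ0 ξ k i)
      + pderiv k.succ (Th θ0 ξ i j) = 0)
    : Closed (glue (Th θ0 ξ) ξ) := by
  intro i j k
  refine Fin.cases ?_ (fun i => ?_) i
  · refine Fin.cases ?_ (fun j => ?_) j
    · refine Fin.cases ?_ (fun k => ?_) k
      · rw [glue_00, map_zero]; ring
      · rw [glue_0s, glue_s0, glue_00, map_neg, map_zero]; ring
    · refine Fin.cases ?_ (fun k => ?_) k
      · rw [glue_0s, glue_s0, glue_00, map_neg, map_zero]; ring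
      · rw [glue_ss, glue_s0, glue_0s, pd0_Th, map_neg]; ring
  · refine Fin.cases ?_ (fun j => ?_) j
    · refine Fin.cases ?_ (fun k => ?_) k
      · rw [glue_00, glue_0s, glue_s0, map_neg, map_zero]; ring
      · rw [glue_0s, glue_ss, glue_s0, pd0_Th, map_neg]; ring
    · refine Fin.cases ?_ (fun k => ?_) k
      · rw [glue_s0, glue_0s, glue_ss, pd0_Th, map_neg]; ring
      · rw [glue_ss, glue_ss, glue_ss]; exact hT i j k

private theorem glue_dec {θ0 : Fin N → Fin N → MvPolynomial (Fin N) B}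
    {ξ : Fin N → MvPolynomial (Fin (N + 1)) B} (hT : Dec (Th θ0 ξ))
    (hs : ∀ i j k, w12 ξ (Th θ0 ξ) i j k = 0) : Dec (glue (Th θ0 ξ) ξ) := by
  have hw : ∀ i j k, ξ i * Th θ0 ξ j k + ξ j * Th θ0 ξ k i + ξ k * Th θ0 ξ i j = 0 := hs
  refine ⟨fun i => ?_, fun i j => ?_, fun i j k l => ?_⟩
  · refine Fin.cases ?_ (fun i => ?_) i
    · rw [glue_00]
    · rw [glue_ss]; exact hT.1 i
  · refine Fin.cases ?_ (fun i => ?_) i
    · refine Fin.cases ?_ (fun j => ?_) j
      · rw [glue_00, neg_zero]
      · rw [glue_0s, glue_s0, neg_neg]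
    · refine Fin.cases ?_ (fun j => ?_) j
      · rw [glue_0s, glue_s0]
      · rw [glue_ss, glue_ss]; exact hT.2.1 i j
  · have ha := hT.2.1
    unfold pf
    refine Fin.cases ?_ (fun i => ?_) i <;> refine Fin.cases ?_ (fun j => ?_) j <;>
      refine Fin.cases ?_ (fun k => ?_) k <;> refine Fin.cases ?_ (fun l => ?_) l <;>
      simp only [glue_00, glue_0s, glue_s0, glue_ss]
    · ring
    · ring
    · ring
    · ring
    · ring
    · ring
    · ring
    · linear_combination hw j k l - ξ k * ha j l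
    · ring
    · ring
    · ring
    · linear_combination (-1 : MvPolynomial (Fin (N + 1)) B) * hw i k l + ξ k * ha i l
    · ring
    · linear_combination hw i j l - ξ j * ha i l
    · linear_combination (-1 : MvPolynomial (Fin (N + 1)) B) * hw i j k + ξ j * ha i k
    · exact hT.2.2 i j k l

theorem conv_exists (hd : 0 < d) {A : Fin N → MvPolynomial (Fin N) B} (hA : A ∈ IntB N d B)
    {ξ : Fin N → MvPolynomial (Fin (N + 1)) B} (hξ : ∀ j, (ξ j).IsHomogeneous d)
    (hs : ∀ i j k, w12 ξ (Th (dd A) ξ) i j k = 0) :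
    ∃ A' ∈ IntB (N + 1) d B, res A' = A ∧ ∀ j, dd A' 0 (Fin.succ j) = ξ j := by
  have hdA := dd_dec hA.2.2
  have hcA := dd_closed A
  have hT := Th_dec hcA hdA hs
  have hTc := Th_closed hcA ξ
  have hc := glue_closed (θ0 := dd A) (ξ := ξ) hTc
  have hdec := glue_dec (θ0 := dd A) (ξ := ξ) hT hs
  have hhom : ∀ i j, (glue (Th (dd A) ξ) ξ i j).IsHomogeneous d := by
    intro i j
    refine Fin.cases ?_ (fun i => ?_) i
    · refine Fin.cases ?_ (fun j => ?_) j
      · rw [glue_00]; exact isHomogeneous_zero _ _ _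
      · rw [glue_0s]; exact hξ j
    · refine Fin.cases ?_ (fun j => ?_) j
      · rw [glue_s0]; exact (hξ i).neg
      · rw [glue_ss]; exact Th_hom (dd_hom hA.1) hξ hd i j
  obtain ⟨h1, h2⟩ := IntB_of_closed hc hdec hhom
  refine ⟨_, h1, ?_, fun j => by rw [h2, glue_0s]⟩
  funext i
  unfold res
  rw [map_mul, at0_C]
  have h3 : at0 N B (ct X (glue (Th (dd A) ξ) ξ) i.succ) = ct X (dd A) i := by
    unfold ct
    rw [Fin.sum_univ_succ, map_add, map_mul, at0_X0, zero_mul, zero_add, map_sum]
    apply Finset.sum_congr rfl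
    intro k _
    rw [map_mul, at0_Xs, glue_ss, at0_Th]
  rw [h3, euler_dd hA, inv_mul]

theorem conv_unique {A' A'' : Fin (N + 1) → MvPolynomial (Fin (N + 1)) B}
    (hA : A' ∈ IntB (N + 1) d B) (hA2 : A'' ∈ IntB (N + 1) d B) (hr : res A' = res A'')
    (hx : ∀ j : Fin N, dd A' 0 j.succ = dd A'' 0 j.succ) : A' = A'' := by
  have halt : ∀ (A : Fin (N + 1) → MvPolynomial (Fin (N + 1)) B) i j, dd A i j = - dd A j i := by
    intro A i j
    unfold dd
    ring
  have h0 : ∀ (A : Fin (N + 1) → MvPolynomial (Fin (N + 1)) B) i, dd A i i = 0 := by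
    intro A i
    unfold dd
    ring
  have hxx : (fun j : Fin N => dd A' 0 j.succ) = fun j => dd A'' 0 j.succ := funext hx
  have hdd : ∀ i j, dd A' i j = dd A'' i j := by
    intro i j
    refine Fin.cases ?_ (fun i => ?_) i
    · refine Fin.cases ?_ (fun j => ?_) j
      · rw [h0, h0]
      · exact hx j
    · refine Fin.cases ?_ (fun j => ?_) j
      · rw [halt A' i.succ 0, halt A'' i.succ 0, hx i]
      · rw [conv_Th, conv_Th, hr, hxx]
  funext j
  have h1 := euler_dd hA j
  have h2 := euler_dd hA2 j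
  have h3 : ct X (dd A') j = ct X (dd A'') j := by
    unfold ct
    exact Finset.sum_congr rfl (fun i _ => by rw [hdd i j])
  rw [← inv_mul (B := B) d (A' j), ← inv_mul (B := B) d (A'' j), ← h1, ← h2, h3]

theorem IntB_map {B' : Type} [CommRing B'] (φ : B →+* B') {A : Fin N → MvPolynomial (Fin N) B}
    (hA : A ∈ IntB N d B) : (fun i => MvPolynomial.map φ (A i)) ∈ IntB N d B' := by
  obtain ⟨h1, h2, h3⟩ := hA
  refine ⟨fun i => (h1 i).map φ, ?_, fun i j k => ?_⟩
  · have h := congrArg (MvPolynomial.map φ) h2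
    rw [map_sum, map_zero] at h
    rw [← h]
    apply Finset.sum_congr rfl
    intro i _
    rw [map_mul, map_X]
  · have h := congrArg (MvPolynomial.map φ) (h3 i j k)
    rw [map_zero, ← w12_map] at h
    rw [← h]
    unfold w12 dd
    simp only [map_sub, pderiv_map]

theorem dd_map {B' : Type} [CommRing B'] (φ : B →+* B') (A : Fin N → MvPolynomial (Fin N) B)
    (i j : Fin N) : MvPolynomial.map φ (dd A i j) = dd (fun i => MvPolynomial.map φ (A i)) i j := by
  unfold dd
  simp only [map_sub, pderiv_map]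

theorem res_map {B' : Type} [CommRing B'] (φ : B →+* B')
    (A' : Fin (N + 1) → MvPolynomial (Fin (N + 1)) B) (i : Fin N) :
    MvPolynomial.map φ (res A' i) = res (fun i => MvPolynomial.map φ (A' i)) i := by
  unfold res
  exact at0_map φ (A' i.succ)

end

end Pool.Agent.Helper71.FL
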