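import Pool.Agent.Helper71.FL.Conv
import Pool.Agent.Helper93.Mono

/-! FL-13: coordinate rings of the spaces of integrable forms.
`null`: Nullstellensatz (`MvPolynomial.vanishingIdeal_zeroLocus_eq_radical`, finite index type `TT`). -/

set_option autoImplicit false

namespace Pool.Agent.Helper71.FL

open MvPolynomial
open Pool.Agent.Helper93 (TT OF RE HomS IntS FolS Cop Comp PreIrr pb prj)

/-- polynomials in the coefficients of 1-forms with homogeneous coefficients of degree `d + 1` -/
abbrev PR (N d : ℕ) : Type := MvPolynomial (TT N (d + 1)) ℂ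

/-- the universal form -/
noncomputable def uni (N d : ℕ) : Fin N → MvPolynomial (Fin N) (PR N d) := fun i =>
  ∑ μ : {μ : Fin N →₀ ℕ // μ ∈ Finset.finsuppAntidiag (Finset.univ : Finset (Fin N)) (d + 1)},
    monomial μ.1 (X (i, μ))

/-- the equations of the space of integrable forms -/
noncomputable def IX (N d : ℕ) : Ideal (PR N d) :=
  Ideal.span ({p | ∃ ν, p = coeff ν (∑ i, X i * uni N d i)} ∪
    {p | ∃ ν i j k, p = coeff ν (w12 (uni N d) (dd (uni N d)) i j k)})

/-- the homomorphism given by the coefficients of a form -/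
noncomputable def pt (d : ℕ) {N : ℕ} {B : Type} [CommRing B] [Algebra ℂ B]
    (A : Fin N → MvPolynomial (Fin N) B) : PR N d →ₐ[ℂ] B :=
  aeval (fun t : TT N (d + 1) => coeff t.2.1 (A t.1))

section
variable {N d : ℕ} {B : Type} [CommRing B] [Algebra ℂ B]

private theorem deg_of_mem {k : ℕ} {μ : Fin N →₀ ℕ}
    (h : μ ∈ Finset.finsuppAntidiag (Finset.univ : Finset (Fin N)) k) : μ.degree = k := by
  rw [Finsupp.degree_eq_sum]
  exact (Finset.mem_finsuppAntidiag.mp h).1

private theorem mem_of_deg {k : ℕ} {μ : Fin N →₀ ℕ} (h : μ.degree = k) :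
    μ ∈ Finset.finsuppAntidiag (Finset.univ : Finset (Fin N)) k := by
  rw [Finset.mem_finsuppAntidiag]
  refine ⟨?_, Finset.subset_univ _⟩
  rw [← h, Finsupp.degree_eq_sum]

theorem uni_hom (i : Fin N) : (uni N d i).IsHomogeneous (d + 1) := by
  unfold uni
  apply IsHomogeneous.sum
  intro μ _
  exact isHomogeneous_monomial _ (deg_of_mem μ.2)

private theorem coeff_uni (i : Fin N)
    (μ : {μ : Fin N →₀ ℕ // μ ∈ Finset.finsuppAntidiag (Finset.univ : Finset (Fin N)) (d + 1)}) :
    coeff μ.1 (uni N d i) = X (i, μ) := by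
  classical
  unfold uni
  rw [coeff_sum, Finset.sum_eq_single μ]
  · rw [coeff_monomial, if_pos rfl]
  · intro ν _ hν
    rw [coeff_monomial, if_neg]
    intro h
    exact hν (Subtype.ext h)
  · intro h; exact absurd (Finset.mem_univ _) h

theorem pt_uni (ψ : PR N d →ₐ[ℂ] B) :
    pt d (fun i => MvPolynomial.map (ψ : PR N d →+* B) (uni N d i)) = ψ := by
  apply MvPolynomial.algHom_ext
  rintro ⟨i, μ⟩
  unfold pt
  rw [aeval_X]
  show coeff μ.1 (MvPolynomial.map (ψ : PR N d →+* B) (uni N d i)) = _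
  rw [coeff_map, coeff_uni]
  rfl

theorem uni_pt {A : Fin N → MvPolynomial (Fin N) B} (hA : ∀ i, (A i).IsHomogeneous (d + 1))
    (i : Fin N) : MvPolynomial.map (pt d A : PR N d →+* B) (uni N d i) = A i := by
  ext ν
  rw [coeff_map]
  by_cases h : ν.degree = d + 1
  · have h2 := coeff_uni (d := d) i ⟨ν, mem_of_deg h⟩
    simp only at h2
    rw [h2]
    show pt d A (X (i, ⟨ν, mem_of_deg h⟩)) = _
    unfold pt
    rw [aeval_X]
  · rw [(uni_hom i).coeff_eq_zero h, (hA i).coeff_eq_zero h, map_zero]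

private theorem map_rad {R S : Type} [CommRing R] [CommRing S] (φ : R →+* S)
    (A : Fin N → MvPolynomial (Fin N) R) :
    (∑ i, X i * MvPolynomial.map φ (A i)) = MvPolynomial.map φ (∑ i, X i * A i) := by
  rw [map_sum]
  apply Finset.sum_congr rfl
  intro i _
  rw [map_mul, map_X]

private theorem map_dd {R S : Type} [CommRing R] [CommRing S] (φ : R →+* S)
    (A : Fin N → MvPolynomial (Fin N) R) (i j : Fin N) :
    dd (fun l => MvPolynomial.map φ (A l)) i j = MvPolynomial.map φ (dd A i j) := by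
  unfold dd
  rw [map_sub, pderiv_map, pderiv_map]

private theorem map_w12 {R S : Type} [CommRing R] [CommRing S] (φ : R →+* S)
    (A : Fin N → MvPolynomial (Fin N) R) (i j k : Fin N) :
    w12 (fun l => MvPolynomial.map φ (A l)) (dd (fun l => MvPolynomial.map φ (A l))) i j k =
      MvPolynomial.map φ (w12 A (dd A) i j k) := by
  rw [← w12_map]
  congr 1
  funext l m
  exact map_dd φ A l m

theorem uni_IntB_iff (ψ : PR N d →ₐ[ℂ] B) :
    (fun i => MvPolynomial.map (ψ : PR N d →+* B) (uni N d i)) ∈ IntB N d B ↔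
      ∀ p ∈ IX N d, ψ p = 0 := by
  constructor
  · rintro ⟨-, h2, h3⟩ p hp
    rw [map_rad] at h2
    have hle : IX N d ≤ RingHom.ker ψ := by
      unfold IX
      rw [Ideal.span_le]
      rintro q (⟨ν, rfl⟩ | ⟨ν, i, j, k, rfl⟩)
      · rw [SetLike.mem_coe, RingHom.mem_ker]
        have h := congrArg (coeff ν) h2
        rw [coeff_map, coeff_zero] at h
        exact h
      · rw [SetLike.mem_coe, RingHom.mem_ker]
        have h := congrArg (coeff ν) (h3 i j k)
        rw [map_w12, coeff_map, coeff_zero] at h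
        exact h
    exact (RingHom.mem_ker).mp (hle hp)
  · intro h
    refine ⟨fun i => (uni_hom i).map _, ?_, fun i j k => ?_⟩
    · rw [map_rad]
      ext ν
      rw [coeff_map, coeff_zero]
      exact h _ (Ideal.subset_span (Or.inl ⟨ν, rfl⟩))
    · rw [map_w12]
      ext ν
      rw [coeff_map, coeff_zero]
      exact h _ (Ideal.subset_span (Or.inr ⟨ν, i, j, k, rfl⟩))

theorem pt_IX {A : Fin N → MvPolynomial (Fin N) B} (hA : A ∈ IntB N d B) {p : PR N d}
    (hp : p ∈ IX N d) : pt d A p = 0 := by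
  apply (uni_IntB_iff (pt d A)).mp ?_ p hp
  have h : (fun i => MvPolynomial.map (pt d A : PR N d →+* B) (uni N d i)) = A :=
    funext (uni_pt hA.1)
  rw [h]
  exact hA

theorem pt_map {B' : Type} [CommRing B'] [Algebra ℂ B'] (φ : B →ₐ[ℂ] B')
    (A : Fin N → MvPolynomial (Fin N) B) (p : PR N d) :
    pt d (fun i => MvPolynomial.map (φ : B →+* B') (A i)) p = φ (pt d A p) := by
  have h : pt d (fun i => MvPolynomial.map (φ : B →+* B') (A i)) = φ.comp (pt d A) := by
    apply MvPolynomial.algHom_ext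
    intro t
    unfold pt
    rw [AlgHom.comp_apply, aeval_X, aeval_X, coeff_map]
    rfl
  rw [h]
  rfl

theorem IntB_eq : IntB N d ℂ = IntS N d := by
  ext A
  have h : ∀ i j k, w12 A (dd A) i j k = Pool.Agent.Helper93.GG A i j k := by
    intro i j k
    rfl
  constructor
  · rintro ⟨h1, h2, h3⟩
    exact ⟨h1, h2, fun i j k => by rw [← h]; exact h3 i j k⟩
  · rintro ⟨h1, h2, h3⟩
    exact ⟨h1, h2, fun i j k => by rw [h]; exact h3 i j k⟩

theorem null {F : PR N d} (h : ∀ A ∈ IntS N d, pt d A F = 0) : ∃ M : ℕ, F ^ M ∈ IX N d := by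
  have h1 : F ∈ (IX N d).radical := by
    rw [← MvPolynomial.vanishingIdeal_zeroLocus_eq_radical (K := ℂ), mem_vanishingIdeal_iff]
    intro x hx
    rw [mem_zeroLocus_iff] at hx
    have h2 := (uni_IntB_iff (aeval x : PR N d →ₐ[ℂ] ℂ)).mpr hx
    rw [IntB_eq] at h2
    have h3 := h _ h2
    rwa [pt_uni] at h3
  exact h1

theorem exists_PR_of_RE {f : OF N → ℂ} (hf : f ∈ RE N) :
    ∃ F : PR N d, ∀ A ∈ HomS N d, f A = pt d A F := by
  unfold RE at hf
  induction hf using Algebra.adjoin_induction with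
  | mem f hf =>
    obtain ⟨i, μ, rfl⟩ := hf
    by_cases h : μ.degree = d + 1
    · refine ⟨X (i, ⟨μ, mem_of_deg h⟩), fun A _ => ?_⟩
      unfold pt
      rw [aeval_X]
    · refine ⟨0, fun A hA => ?_⟩
      rw [map_zero]
      exact (hA i).coeff_eq_zero h
  | algebraMap c =>
    refine ⟨C c, fun A _ => ?_⟩
    unfold pt
    rw [aeval_C]
    rfl
  | add f g _ _ hf hg =>
    obtain ⟨F, hF⟩ := hf
    obtain ⟨G, hG⟩ := hg
    refine ⟨F + G, fun A hA => ?_⟩
    rw [map_add, Pi.add_apply, hF A hA, hG A hA]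
  | mul f g _ _ hf hg =>
    obtain ⟨F, hF⟩ := hf
    obtain ⟨G, hG⟩ := hg
    refine ⟨F * G, fun A hA => ?_⟩
    rw [map_mul, Pi.mul_apply, hF A hA, hG A hA]

theorem pt_mem_RE (F : PR N d) : (fun A : OF N => pt d A F) ∈ RE N := by
  induction F using MvPolynomial.induction_on with
  | C c =>
    have h : (fun A : OF N => pt d A (C c : PR N d)) = algebraMap ℂ (OF N → ℂ) c := by
      funext A
      unfold pt
      rw [aeval_C]
      rfl
    rw [h]
    exact (RE N).algebraMap_mem c
  | add p q hp hq =>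
    have h : (fun A : OF N => pt d A (p + q)) = (fun A => pt d A p) + (fun A => pt d A q) := by
      funext A
      rw [map_add]
      rfl
    rw [h]
    exact (RE N).add_mem hp hq
  | mul_X p t hp =>
    have h : (fun A : OF N => pt d A (p * X t)) =
        (fun A => pt d A p) * (fun A => coeff t.2.1 (A t.1)) := by
      funext A
      rw [map_mul]
      unfold pt
      rw [aeval_X]
      rfl
    rw [h]
    exact (RE N).mul_mem hp (Algebra.subset_adjoin ⟨t.1, t.2.1, rfl⟩)

/-- restriction to the hyperplane in coordinates -/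
noncomputable def resP (N d : ℕ) : PR N d →ₐ[ℂ] PR (N + 1) d := pt d (res (uni (N + 1) d))

theorem pt_resP {A' : Fin (N + 1) → MvPolynomial (Fin (N + 1)) B}
    (hA : ∀ i, (A' i).IsHomogeneous (d + 1)) (p : PR N d) :
    pt d A' (resP N d p) = pt d (res A') p := by
  have h : (fun i => MvPolynomial.map (pt d A' : PR (N + 1) d →+* B)
      (res (uni (N + 1) d) i)) = res A' := by
    funext i
    unfold res
    rw [at0_map, uni_pt hA]
  unfold resP
  rw [← pt_map, h]

end

end Pool.Agent.Helper71.FL
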