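import Pool.Agent.Helper71.FL.Defs

/-! FL-9: polynomial curves in the range of a linear map.
Proof: by Vandermonde all coefficients `r k` lie in the range of `L`; choose preimages `v' k` (zero where `r k = 0`);
`a0 = v0 - ev 0 v'` and `a1 = v1 - ev 1 v' - a0` lie in the kernel of `L`; `v = v' + a0 + a1 t`. -/

set_option autoImplicit false

namespace Pool.Agent.Helper71.FL

/-- value of a polynomial curve -/
noncomputable def cev {W : Type} [AddCommGroup W] [Module ℂ W] (t : ℂ) (r : ℕ →₀ W) : W :=
  r.sum (fun k w => t ^ k • w)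

private theorem cev_add' {W : Type} [AddCommGroup W] [Module ℂ W] (t : ℂ) (r s : ℕ →₀ W) :
    cev t (r + s) = cev t r + cev t s := by
  unfold cev
  exact Finsupp.sum_add_index' (fun k => smul_zero _) (fun k a b => smul_add _ _ _)

private theorem cev_single' {W : Type} [AddCommGroup W] [Module ℂ W] (t : ℂ) (k : ℕ) (w : W) :
    cev t (Finsupp.single k w) = t ^ k • w := by
  unfold cev
  exact Finsupp.sum_single_index (smul_zero _)

private theorem cev_map' {V W : Type} [AddCommGroup V] [Module ℂ V] [AddCommGroup W] [Module ℂ W]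
    (L : V →ₗ[ℂ] W) (t : ℂ) (v : ℕ →₀ V) :
    cev t (Finsupp.mapRange L (map_zero L) v) = L (cev t v) := by
  unfold cev
  rw [Finsupp.sum_mapRange_index (fun k => smul_zero _), Finsupp.sum, Finsupp.sum, map_sum]
  refine Finset.sum_congr rfl fun k _ => ?_
  rw [map_smul]

private theorem coeff_zero' (c : ℕ →₀ ℂ) (h : ∀ t : ℂ, cev t c = 0) : c = 0 := by
  have hp : (∑ k ∈ c.support, Polynomial.monomial k (c k) : Polynomial ℂ) = 0 := by
    apply Polynomial.funext
    intro t
    have := h t
    unfold cev at this
    rw [Finsupp.sum] at this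
    rw [Polynomial.eval_finsetSum, Polynomial.eval_zero, ← this]
    refine Finset.sum_congr rfl fun k _ => ?_
    rw [Polynomial.eval_monomial, smul_eq_mul, mul_comm]
  ext k
  by_cases hk : k ∈ c.support
  · have := congrArg (fun p => Polynomial.coeff p k) hp
    simp only [Polynomial.finsetSum_coeff, Polynomial.coeff_monomial, Polynomial.coeff_zero] at this
    rw [Finset.sum_eq_single k] at this
    · simpa using this
    · intro j _ hj
      rw [if_neg hj]
    · intro hk'
      exact absurd hk hk'
  · simpa using hk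

private theorem coeff_range' {V W : Type} [AddCommGroup V] [Module ℂ V] [AddCommGroup W]
    [Module ℂ W] (L : V →ₗ[ℂ] W) (r : ℕ →₀ W) (hr : ∀ t : ℂ, cev t r ∈ LinearMap.range L)
    (k : ℕ) : r k ∈ LinearMap.range L := by
  rw [← Submodule.Quotient.mk_eq_zero, ← Submodule.mkQ_apply]
  rw [← Module.forall_dual_apply_eq_zero_iff ℂ]
  intro f
  have h := coeff_zero' (Finsupp.mapRange (f ∘ₗ (LinearMap.range L).mkQ)
    (map_zero (f ∘ₗ (LinearMap.range L).mkQ)) r) (fun t => by
      rw [cev_map', LinearMap.comp_apply]
      have : (LinearMap.range L).mkQ (cev t r) = 0 := by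
        rw [Submodule.mkQ_apply, Submodule.Quotient.mk_eq_zero]
        exact hr t
      rw [this, map_zero])
  have h2 := DFunLike.congr_fun h k
  simpa using h2

theorem curve_lift {V W : Type} [AddCommGroup V] [Module ℂ V] [AddCommGroup W] [Module ℂ W]
    (L : V →ₗ[ℂ] W) (r : ℕ →₀ W) (hr : ∀ t : ℂ, cev t r ∈ LinearMap.range L) (v0 v1 : V)
    (h0 : L v0 = cev 0 r) (h1 : L v1 = cev 1 r) :
    ∃ v : ℕ →₀ V, (∀ k, L (v k) = r k) ∧ cev 0 v = v0 ∧ cev 1 v = v1 := by
  classical
  choose g hg using fun k => coeff_range' L r hr k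
  let v' : ℕ →₀ V := Finsupp.onFinset r.support (fun k => if r k = 0 then 0 else g k)
    (fun k hk => by
      rw [Finsupp.mem_support_iff]
      intro h
      rw [if_pos h] at hk
      exact hk rfl)
  have hv' : ∀ k, L (v' k) = r k := by
    intro k
    change L (if r k = 0 then 0 else g k) = r k
    split_ifs with h
    · rw [map_zero, h]
    · exact hg k
  have hm : Finsupp.mapRange L (map_zero L) v' = r := by
    ext k
    rw [Finsupp.mapRange_apply]
    exact hv' k
  have hL : ∀ t, L (cev t v') = cev t r := by
    intro t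
    rw [← cev_map', hm]
  have ha0 : L (v0 - cev 0 v') = 0 := by
    rw [map_sub, h0, hL, sub_self]
  have ha1 : L (v1 - cev 1 v' - (v0 - cev 0 v')) = 0 := by
    rw [map_sub, ha0, map_sub, h1, hL, sub_self, sub_zero]
  refine ⟨v' + Finsupp.single 0 (v0 - cev 0 v') + Finsupp.single 1 (v1 - cev 1 v' - (v0 - cev 0 v')),
    ?_, ?_, ?_⟩
  · intro k
    rw [Finsupp.add_apply, Finsupp.add_apply, map_add, map_add, hv' k, Finsupp.single_apply,
      Finsupp.single_apply]
    have e0 : L (if 0 = k then v0 - cev 0 v' else 0) = 0 := by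
      split_ifs
      · exact ha0
      · exact map_zero L
    have e1 : L (if 1 = k then v1 - cev 1 v' - (v0 - cev 0 v') else 0) = 0 := by
      split_ifs
      · exact ha1
      · exact map_zero L
    rw [e0, e1, add_zero, add_zero]
  · rw [cev_add', cev_add', cev_single', cev_single', pow_zero, one_smul, pow_one, zero_smul,
      add_zero, add_sub_cancel]
  · rw [cev_add', cev_add', cev_single', cev_single', pow_zero, one_smul, pow_one, one_smul]
    abel

end Pool.Agent.Helper71.FL
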