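import Mathlib

/-!
Block L of the project on MP_45a28a (frozen statement S00166): lifting of deformations of
codimension one foliations along hyperplane sections.  Elementary form: forms are index functions.
-/

set_option autoImplicit false

namespace Pool.Agent.Helper71.FL

open MvPolynomial
open scoped BigOperators

section alg
variable {A : Type} [CommRing A] {ι : Type} [Fintype ι]

/-- wedge product of a 1-form and a 2-form -/
def w12 (ξ : ι → A) (θ : ι → ι → A) (i j k : ι) : A := ξ i * θ j k + ξ j * θ k i + ξ k * θ i j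

/-- one half of `θ ∧ θ` -/
def pf (θ : ι → ι → A) (i j k l : ι) : A := θ i j * θ k l - θ i k * θ j l + θ i l * θ j k

/-- contraction with a vector field -/
def ct (w : ι → A) (θ : ι → ι → A) (j : ι) : A := ∑ i, w i * θ i j

/-- alternating and decomposable -/
def Dec (θ : ι → ι → A) : Prop :=
  (∀ i, θ i i = 0) ∧ (∀ i j, θ i j = - θ j i) ∧ ∀ i j k l, pf θ i j k l = 0

/-- some power of `f` moves every 1-form annihilated by `θ` into the contractions of `θ` -/
def AnnI (θ : ι → ι → A) (f : A) : Prop :=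
  ∀ ξ : ι → A, (∀ i j k, w12 ξ θ i j k = 0) → ∃ (K : ℕ) (w : ι → A), ∀ j, f ^ K * ξ j = ct w θ j

/-- the multiples of `θ` in the 3-forms are saturated with respect to `AnnI θ` -/
def Good (θ : ι → ι → A) : Prop :=
  ∀ b : ι → ι → ι → A,
    (∀ f, AnnI θ f → ∃ (K : ℕ) (c : ι → A), ∀ i j k, f ^ K * b i j k = w12 c θ i j k) →
    ∃ c : ι → A, ∀ i j k, b i j k = w12 c θ i j k

theorem w12_ct {θ : ι → ι → A} (h : Dec θ) (w : ι → A) (i j k : ι) : w12 (ct w θ) θ i j k = 0 := by
  have h1 : w12 (ct w θ) θ i j k = ∑ l, w l * pf θ l i j k := by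
    unfold w12 ct pf
    rw [Finset.sum_mul, Finset.sum_mul, Finset.sum_mul, ← Finset.sum_add_distrib,
      ← Finset.sum_add_distrib]
    apply Finset.sum_congr rfl
    intro l _
    rw [h.2.1 k i]
    ring
  rw [h1]
  apply Finset.sum_eq_zero
  intro l _
  rw [h.2.2 l i j k, mul_zero]

theorem w12_add (ξ ξ' : ι → A) (θ : ι → ι → A) (i j k : ι) :
    w12 (fun l => ξ l + ξ' l) θ i j k = w12 ξ θ i j k + w12 ξ' θ i j k := by
  unfold w12; ring

theorem w12_sub (ξ ξ' : ι → A) (θ : ι → ι → A) (i j k : ι) :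
    w12 (fun l => ξ l - ξ' l) θ i j k = w12 ξ θ i j k - w12 ξ' θ i j k := by
  unfold w12; ring

theorem w12_smul (a : A) (ξ : ι → A) (θ : ι → ι → A) (i j k : ι) :
    w12 (fun l => a * ξ l) θ i j k = a * w12 ξ θ i j k := by
  unfold w12; ring

theorem w12_map {B : Type} [CommRing B] (φ : A →+* B) (ξ : ι → A) (θ : ι → ι → A) (i j k : ι) :
    w12 (fun l => φ (ξ l)) (fun l m => φ (θ l m)) i j k = φ (w12 ξ θ i j k) := by
  unfold w12; simp only [map_add, map_mul]

theorem ct_map {B : Type} [CommRing B] (φ : A →+* B) (w : ι → A) (θ : ι → ι → A) (j : ι) :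
    ct (fun l => φ (w l)) (fun l m => φ (θ l m)) j = φ (ct w θ j) := by
  unfold ct; simp only [map_sum, map_mul]

theorem pf_map {B : Type} [CommRing B] (φ : A →+* B) (θ : ι → ι → A) (i j k l : ι) :
    pf (fun l m => φ (θ l m)) i j k l = φ (pf θ i j k l) := by
  unfold pf; simp only [map_add, map_sub, map_mul]

theorem Dec.map {B : Type} [CommRing B] (φ : A →+* B) {θ : ι → ι → A} (h : Dec θ) :
    Dec (fun l m => φ (θ l m)) := by
  refine ⟨?_, ?_, ?_⟩
  · intro i
    show φ (θ i i) = 0
    rw [h.1 i, map_zero]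
  · intro i j
    show φ (θ i j) = - φ (θ j i)
    rw [h.2.1 i j, map_neg]
  · intro i j k l
    rw [pf_map, h.2.2, map_zero]

end alg

/-- local Artinian `ℂ`-algebra with residue field `ℂ` -/
structure Art (B : Type) [CommRing B] [Algebra ℂ B] (aug : B →ₐ[ℂ] ℂ) : Prop where
  fin : Module.Finite ℂ B
  nil : ∀ b, aug b = 0 → IsNilpotent b

/-- reduction of polynomials modulo the maximal ideal -/
noncomputable def red {B : Type} [CommRing B] [Algebra ℂ B] (aug : B →ₐ[ℂ] ℂ) (σ : Type) :
    MvPolynomial σ B →+* MvPolynomial σ ℂ := MvPolynomial.map (aug : B →+* ℂ)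

/-- constants -/
noncomputable def cst (B : Type) [CommRing B] [Algebra ℂ B] (σ : Type) :
    MvPolynomial σ ℂ →+* MvPolynomial σ B := MvPolynomial.map (algebraMap ℂ B)

section forms
variable {B : Type} [CommRing B] {N : ℕ}

/-- exterior derivative of a 1-form -/
noncomputable def dd (A : Fin N → MvPolynomial (Fin N) B) (i j : Fin N) : MvPolynomial (Fin N) B :=
  pderiv i (A j) - pderiv j (A i)

/-- closed 2-forms -/
def Closed (θ : Fin N → Fin N → MvPolynomial (Fin N) B) : Prop :=
  ∀ i j k, pderiv i (θ j k) + pderiv j (θ k i) + pderiv k (θ i j) = 0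

/-- homogeneous, radial, integrable 1-forms over `B` -/
def IntB (N d : ℕ) (B : Type) [CommRing B] : Set (Fin N → MvPolynomial (Fin N) B) :=
  {A | (∀ i, (A i).IsHomogeneous (d + 1)) ∧ (∑ i, X i * A i) = 0 ∧ ∀ i j k, w12 A (dd A) i j k = 0}

/-- restriction of polynomials to `x_0 = 0` -/
noncomputable def at0 (N : ℕ) (B : Type) [CommRing B] :
    MvPolynomial (Fin (N + 1)) B →ₐ[B] MvPolynomial (Fin N) B :=
  aeval (Fin.cons (0 : MvPolynomial (Fin N) B) (fun i => (X i : MvPolynomial (Fin N) B)))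

/-- polynomials not depending on `x_0` -/
noncomputable def emb (N : ℕ) (B : Type) [CommRing B] :
    MvPolynomial (Fin N) B →ₐ[B] MvPolynomial (Fin (N + 1)) B := rename Fin.succ

/-- restriction of 1-forms to the hyperplane `x_0 = 0` -/
noncomputable def res (A' : Fin (N + 1) → MvPolynomial (Fin (N + 1)) B) :
    Fin N → MvPolynomial (Fin N) B := fun i => at0 N B (A' i.succ)

end forms

end Pool.Agent.Helper71.FL
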