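import Pool.Agent.Helper71.FL.ArtL

/-! FL-2: exactness at the 1-forms lifts from `θ` to Artinian deformations (denominators cleared).
Proof: induction on `Module.finrank ℂ Q` (generalise over `Q`).  If `ker aug = ⊥` then `aug` is injective and
`cst`, `red` are inverse isomorphisms.  Otherwise take `ε` from `Art.socle` for `J = ker aug`, `Q1 = Q/(ε)` (smaller
dimension, `Art.quot`), get `f^K ξ - ct w Θ` with all coefficients in `(ε) = C ε * constants`, i.e. `= C ε * cst η`,
`C ε * cst (w12 η θ) = 0` (because `(ct w Θ) ∧ Θ = 0` by `w12_ct`, and `C ε * p = C ε * cst (red p)`), so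
`w12 η θ = 0` (`ε ≠ 0`), `f^K' η = ct u θ`, and `f^(K+K') ξ = ct (f^K' w + ε cst u) Θ`. -/

set_option autoImplicit false

namespace Pool.Agent.Helper71.FL

open MvPolynomial

private theorem red_cst {Q : Type} [CommRing Q] [Algebra ℂ Q] (aug : Q →ₐ[ℂ] ℂ) (σ : Type)
    (p : MvPolynomial σ ℂ) : red aug σ (cst Q σ p) = p := by
  unfold red cst
  rw [MvPolynomial.map_map]
  have : (aug : Q →+* ℂ).comp (algebraMap ℂ Q) = RingHom.id ℂ := by
    ext c
    simp
  rw [this]
  exact MvPolynomial.map_id p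

private theorem cst_red_of_inj {Q : Type} [CommRing Q] [Algebra ℂ Q] (aug : Q →ₐ[ℂ] ℂ) (σ : Type)
    (hinj : Function.Injective aug) (p : MvPolynomial σ Q) : cst Q σ (red aug σ p) = p := by
  unfold red cst
  rw [MvPolynomial.map_map]
  have : (algebraMap ℂ Q).comp (aug : Q →+* ℂ) = RingHom.id Q := by
    ext c
    apply hinj
    simp
  rw [this]
  exact MvPolynomial.map_id p

private theorem C_mul_cst_red {Q : Type} [CommRing Q] [Algebra ℂ Q] (aug : Q →ₐ[ℂ] ℂ) (σ : Type)
    (ε : Q) (hε : ∀ b, b * ε = algebraMap ℂ Q (aug b) * ε) (p : MvPolynomial σ Q) :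
    C ε * p = C ε * cst Q σ (red aug σ p) := by
  ext m
  rw [coeff_C_mul, coeff_C_mul]
  unfold cst red
  rw [coeff_map, coeff_map, mul_comm, hε, mul_comm]
  rfl

private theorem exists_of_map_mk_eq_zero {Q : Type} [CommRing Q] (σ : Type) (ε : Q)
    (p : MvPolynomial σ Q)
    (hp : MvPolynomial.map (Ideal.Quotient.mk (Ideal.span {ε})) p = 0) :
    ∃ r, p = C ε * r := by
  have h1 : p ∈ RingHom.ker (MvPolynomial.map (σ := σ) (Ideal.Quotient.mk (Ideal.span {ε}))) := hp
  rw [MvPolynomial.ker_map, Ideal.mk_ker, Ideal.map_span, Set.image_singleton,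
    Ideal.mem_span_singleton] at h1
  exact h1

private theorem EX_aux (n : ℕ) : ∀ {Q : Type} [CommRing Q] [Algebra ℂ Q] {aug : Q →ₐ[ℂ] ℂ}
    (_ : Art Q aug) (_ : Module.finrank ℂ Q = n)
    {σ ι : Type} [Fintype ι] (Θ : ι → ι → MvPolynomial σ Q) (_ : Dec Θ)
    (f : MvPolynomial σ ℂ) (_ : AnnI (fun i j => red aug σ (Θ i j)) f)
    (ξ : ι → MvPolynomial σ Q) (_ : ∀ i j k, w12 ξ Θ i j k = 0),
    ∃ (K : ℕ) (w : ι → MvPolynomial σ Q), ∀ j, cst Q σ f ^ K * ξ j = ct w Θ j := by
  induction n using Nat.strong_induction_on with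
  | _ n ih =>
  intro Q _ _ aug h hn σ ι _ Θ hΘ f hf ξ hξ
  by_cases hker : RingHom.ker (aug : Q →+* ℂ) = ⊥
  · have hinj : Function.Injective aug :=
      (RingHom.injective_iff_ker_eq_bot (aug : Q →+* ℂ)).mpr hker
    obtain ⟨K, w, hw⟩ := hf (fun l => red aug σ (ξ l)) (by
      intro i j k
      rw [w12_map, hξ, map_zero])
    refine ⟨K, fun i => cst Q σ (w i), fun j => ?_⟩
    have h1 := congrArg (cst Q σ) (hw j)
    rw [map_mul, map_pow, cst_red_of_inj aug σ hinj, ← ct_map] at h1
    rw [h1]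
    unfold ct
    apply Finset.sum_congr rfl
    intro i _
    show cst Q σ (w i) * cst Q σ (red aug σ (Θ i j)) = cst Q σ (w i) * Θ i j
    rw [cst_red_of_inj aug σ hinj]
  · obtain ⟨ε, hεJ, hε0, hε⟩ := h.socle (RingHom.ker (aug : Q →+* ℂ)) hker
    have haε : aug ε = 0 := hεJ
    have hJ : ∀ b ∈ Ideal.span {ε}, aug b = 0 := by
      intro b hb
      obtain ⟨c, rfl⟩ := Ideal.mem_span_singleton.mp hb
      rw [map_mul, haε, zero_mul]
    have hA := h.quot (Ideal.span {ε}) hJ
    have hfin : Module.Finite ℂ Q := h.fin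
    have hlt : Module.finrank ℂ (Q ⧸ Ideal.span {ε}) < n := by
      have h2 := LinearMap.finrank_range_add_finrank_ker
        (Ideal.Quotient.mkₐ ℂ (Ideal.span {ε})).toLinearMap
      have h3 : LinearMap.range (Ideal.Quotient.mkₐ ℂ (Ideal.span {ε})).toLinearMap = ⊤ := by
        rw [LinearMap.range_eq_top]
        exact Ideal.Quotient.mk_surjective
      rw [h3, finrank_top] at h2
      have h4 : 0 < Module.finrank ℂ
          (LinearMap.ker (Ideal.Quotient.mkₐ ℂ (Ideal.span {ε})).toLinearMap) := by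
        rw [Module.finrank_pos_iff_exists_ne_zero]
        refine ⟨⟨ε, ?_⟩, ?_⟩
        · rw [LinearMap.mem_ker]
          show Ideal.Quotient.mk (Ideal.span {ε}) ε = 0
          exact Ideal.Quotient.eq_zero_iff_mem.mpr (Ideal.mem_span_singleton_self ε)
        · intro h5
          exact hε0 (congrArg Subtype.val h5)
      omega
    set π : MvPolynomial σ Q →+* MvPolynomial σ (Q ⧸ Ideal.span {ε}) :=
      MvPolynomial.map (Ideal.Quotient.mk (Ideal.span {ε})) with hπ
    have hredπ : ∀ p, red (qaug aug (Ideal.span {ε}) hJ) σ (π p) = red aug σ p := by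
      intro p
      unfold red
      rw [hπ, MvPolynomial.map_map]
      rfl
    have hcstπ : ∀ p, π (cst Q σ p) = cst (Q ⧸ Ideal.span {ε}) σ p := by
      intro p
      unfold cst
      rw [hπ, MvPolynomial.map_map]
      rfl
    obtain ⟨K, w1, hw1⟩ := ih _ hlt hA rfl (fun i j => π (Θ i j)) (hΘ.map π) f (by
      have : (fun i j => red (qaug aug (Ideal.span {ε}) hJ) σ (π (Θ i j))) =
          fun i j => red aug σ (Θ i j) := by
        funext i j
        exact hredπ _
      rw [this]
      exact hf) (fun l => π (ξ l)) (by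
      intro i j k
      rw [w12_map, hξ, map_zero])
    have hsurj : Function.Surjective π :=
      MvPolynomial.map_surjective _ Ideal.Quotient.mk_surjective
    choose w hw using fun i => hsurj (w1 i)
    have hdiff : ∀ j, ∃ r, cst Q σ f ^ K * ξ j - ct w Θ j = C ε * r := by
      intro j
      apply exists_of_map_mk_eq_zero
      have h1 := hw1 j
      have h2 : ct w1 (fun i j => π (Θ i j)) j = π (ct w Θ j) := by
        rw [← ct_map]
        have : w1 = fun l => π (w l) := by
          funext l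
          exact (hw l).symm
        rw [this]
      rw [h2, ← hcstπ, ← map_pow, ← map_mul] at h1
      show π _ = 0
      rw [map_sub, h1, sub_self]
    choose r hr using hdiff
    have hη : ∀ i j k, w12 (fun l => red aug σ (r l)) (fun i j => red aug σ (Θ i j)) i j k = 0 := by
      intro i j k
      rw [w12_map]
      have h1 : C ε * w12 r Θ i j k = 0 := by
        rw [← w12_smul]
        have h2 : (fun l => C ε * r l) = fun l => (cst Q σ f ^ K * ξ l) - ct w Θ l := by
          funext l
          exact (hr l).symm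
        rw [h2, w12_sub, w12_smul, hξ, mul_zero]
        have h3 : w12 (fun l => ct w Θ l) Θ i j k = 0 := w12_ct hΘ w i j k
        rw [h3, sub_self]
      rw [C_mul_cst_red aug σ ε hε] at h1
      ext m
      have h2 := congrArg (coeff m) h1
      rw [coeff_C_mul, coeff_zero] at h2
      unfold cst at h2
      rw [coeff_map] at h2
      rw [coeff_zero]
      by_contra h3
      apply hε0
      have h4 : (coeff m (red aug σ (w12 r Θ i j k))) • ε = 0 := by
        rw [Algebra.smul_def, mul_comm]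
        exact h2
      exact (smul_eq_zero.mp h4).resolve_left h3
    obtain ⟨K', u, hu⟩ := hf (fun l => red aug σ (r l)) hη
    refine ⟨K + K', fun i => cst Q σ f ^ K' * w i + C ε * cst Q σ (u i), fun j => ?_⟩
    have h1 : cst Q σ f ^ K * ξ j = ct w Θ j + C ε * r j := by
      rw [← hr j]; ring
    have h2 : C ε * (cst Q σ f ^ K' * r j) = C ε * ct (fun i => cst Q σ (u i)) Θ j := by
      rw [C_mul_cst_red aug σ ε hε, C_mul_cst_red aug σ ε hε (ct _ _ _)]
      congr 2
      rw [map_mul, map_pow, red_cst, hu j, ← ct_map]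
      congr 1
      funext i
      rw [red_cst]
    have h3 : ct (fun i => cst Q σ f ^ K' * w i + C ε * cst Q σ (u i)) Θ j =
        cst Q σ f ^ K' * ct w Θ j + C ε * ct (fun i => cst Q σ (u i)) Θ j := by
      unfold ct
      rw [Finset.mul_sum, Finset.mul_sum, ← Finset.sum_add_distrib]
      apply Finset.sum_congr rfl
      intro i _
      ring
    rw [h3, ← h2, pow_add, mul_comm (cst Q σ f ^ K), mul_assoc, h1]
    ring

theorem EX {Q : Type} [CommRing Q] [Algebra ℂ Q] {aug : Q →ₐ[ℂ] ℂ} (h : Art Q aug)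
    {σ ι : Type} [Fintype ι] (Θ : ι → ι → MvPolynomial σ Q) (hΘ : Dec Θ)
    (f : MvPolynomial σ ℂ) (hf : AnnI (fun i j => red aug σ (Θ i j)) f)
    (ξ : ι → MvPolynomial σ Q) (hξ : ∀ i j k, w12 ξ Θ i j k = 0) :
    ∃ (K : ℕ) (w : ι → MvPolynomial σ Q), ∀ j, cst Q σ f ^ K * ξ j = ct w Θ j :=
  EX_aux _ h rfl Θ hΘ f hf ξ hξ

end Pool.Agent.Helper71.FL
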