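import Pool.Agent.Helper71.FL.EXL

/-! FL-3: LEMMA G.  `GP1` (one-dimensional ideal): for `f` with `AnnI θ f` (θ = red Θ) apply `EX` over `Q/(ε)` to `ξ`:
`f^K ξ = ct w Θ` modulo `(ε)`; lift `w` to `Q`; `f^K ξ - ct w Θ = C ε * cst c`; wedge with `Θ` and use `w12_ct`:
`f^K (w12 ξ Θ) = C ε * cst (w12 c θ)`.  Writing `w12 ξ Θ = C ε * cst b` (`b = red` of the quotient) and cancelling
`C ε * cst` (injective since `ε ≠ 0`; if `ε = 0` everything is trivial) gives `f^K b = w12 c θ`; `Good` finishes.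
`GP`: induction on `finrank ℂ Q`, `J ≠ ⊥`: `ε ∈ J` from `socle`.  If `aug ε ≠ 0` then `ε` is a unit, so `J = ⊤` and
`ξ'' = 0` works.  Otherwise `GP` over `Q/(ε)` for the image of `J`, lift (the difference with `ξ` in `J`), then `GP1`. -/

set_option autoImplicit false

namespace Pool.Agent.Helper71.FL

open MvPolynomial

private theorem red_cst' {Q : Type} [CommRing Q] [Algebra ℂ Q] (aug : Q →ₐ[ℂ] ℂ) (σ : Type)
    (p : MvPolynomial σ ℂ) : red aug σ (cst Q σ p) = p := by
  unfold red cst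
  rw [MvPolynomial.map_map]
  have : (aug : Q →+* ℂ).comp (algebraMap ℂ Q) = RingHom.id ℂ := by
    ext c
    simp
  rw [this]
  exact MvPolynomial.map_id p

private theorem C_mul_cst_red' {Q : Type} [CommRing Q] [Algebra ℂ Q] (aug : Q →ₐ[ℂ] ℂ) (σ : Type)
    (ε : Q) (hε : ∀ b, b * ε = algebraMap ℂ Q (aug b) * ε) (p : MvPolynomial σ Q) :
    C ε * p = C ε * cst Q σ (red aug σ p) := by
  ext m
  rw [coeff_C_mul, coeff_C_mul]
  unfold cst red
  rw [coeff_map, coeff_map, mul_comm, hε, mul_comm]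
  rfl

private theorem exists_of_map_mk_eq_zero' {Q : Type} [CommRing Q] (σ : Type) (ε : Q)
    (p : MvPolynomial σ Q)
    (hp : MvPolynomial.map (Ideal.Quotient.mk (Ideal.span {ε})) p = 0) :
    ∃ r, p = C ε * r := by
  have h1 : p ∈ RingHom.ker (MvPolynomial.map (σ := σ) (Ideal.Quotient.mk (Ideal.span {ε}))) := hp
  rw [MvPolynomial.ker_map, Ideal.mk_ker, Ideal.map_span, Set.image_singleton,
    Ideal.mem_span_singleton] at h1
  exact h1

private theorem C_mul_cst_inj {Q : Type} [CommRing Q] [Algebra ℂ Q] (σ : Type)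
    (ε : Q) (hε0 : ε ≠ 0) (p q : MvPolynomial σ ℂ) (h : C ε * cst Q σ p = C ε * cst Q σ q) :
    p = q := by
  ext m
  have h2 := congrArg (coeff m) h
  rw [coeff_C_mul, coeff_C_mul] at h2
  unfold cst at h2
  rw [coeff_map, coeff_map] at h2
  by_contra h3
  have h4 : (coeff m p - coeff m q) • ε = 0 := by
    rw [sub_smul, Algebra.smul_def, Algebra.smul_def, mul_comm, h2, mul_comm, sub_self]
  rcases smul_eq_zero.mp h4 with h5 | h5
  · exact h3 (sub_eq_zero.mp h5)
  · exact hε0 h5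

private theorem aug_span {Q : Type} [CommRing Q] [Algebra ℂ Q] (aug : Q →ₐ[ℂ] ℂ) {ε : Q}
    (haε : aug ε = 0) : ∀ b ∈ Ideal.span {ε}, aug b = 0 := by
  intro b hb
  obtain ⟨c, rfl⟩ := Ideal.mem_span_singleton.mp hb
  rw [map_mul, haε, zero_mul]

theorem GP1 {Q : Type} [CommRing Q] [Algebra ℂ Q] {aug : Q →ₐ[ℂ] ℂ} (h : Art Q aug)
    {σ ι : Type} [Fintype ι] (ε : Q) (hε : ∀ b, b * ε = algebraMap ℂ Q (aug b) * ε) (hε0 : aug ε = 0)
    (Θ : ι → ι → MvPolynomial σ Q) (hΘ : Dec Θ) (hg : Good (fun i j => red aug σ (Θ i j)))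
    (ξ : ι → MvPolynomial σ Q) (hξ : ∀ i j k, ∃ p, w12 ξ Θ i j k = C ε * p) :
    ∃ c : ι → MvPolynomial σ ℂ, ∀ i j k,
      w12 ξ Θ i j k = C ε * cst Q σ (w12 c (fun i j => red aug σ (Θ i j)) i j k) := by
  by_cases hz : ε = 0
  · refine ⟨fun _ => 0, fun i j k => ?_⟩
    obtain ⟨p, hp⟩ := hξ i j k
    rw [hp, hz, C_0, zero_mul, zero_mul]
  choose p hp using hξ
  have hJ := aug_span aug hε0
  have hA := h.quot (Ideal.span {ε}) hJ
  set π : MvPolynomial σ Q →+* MvPolynomial σ (Q ⧸ Ideal.span {ε}) :=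
    MvPolynomial.map (Ideal.Quotient.mk (Ideal.span {ε})) with hπ
  have hπε : π (C ε) = 0 := by
    rw [hπ, MvPolynomial.map_C]
    have : Ideal.Quotient.mk (Ideal.span {ε}) ε = 0 :=
      Ideal.Quotient.eq_zero_iff_mem.mpr (Ideal.mem_span_singleton_self ε)
    rw [this, C_0]
  have hredπ : ∀ p, red (qaug aug (Ideal.span {ε}) hJ) σ (π p) = red aug σ p := by
    intro p
    unfold red
    rw [hπ, MvPolynomial.map_map]
    rfl
  have hcstπ : ∀ p, π (cst Q σ p) = cst (Q ⧸ Ideal.span {ε}) σ p := by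
    intro p
    unfold cst
    rw [hπ, MvPolynomial.map_map]
    rfl
  obtain ⟨c, hc⟩ := hg (fun i j k => red aug σ (p i j k)) (by
    intro f hf
    obtain ⟨K, w1, hw1⟩ := EX hA (fun i j => π (Θ i j)) (hΘ.map π) f (by
      have : (fun i j => red (qaug aug (Ideal.span {ε}) hJ) σ (π (Θ i j))) =
          fun i j => red aug σ (Θ i j) := by
        funext i j
        exact hredπ _
      rw [this]
      exact hf) (fun l => π (ξ l)) (by
      intro i j k
      rw [w12_map, hp, map_mul, hπε, zero_mul])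
    have hsurj : Function.Surjective π :=
      MvPolynomial.map_surjective _ Ideal.Quotient.mk_surjective
    choose w hw using fun i => hsurj (w1 i)
    have hdiff : ∀ j, ∃ r, cst Q σ f ^ K * ξ j - ct w Θ j = C ε * r := by
      intro j
      apply exists_of_map_mk_eq_zero'
      have h1 := hw1 j
      have h2 : ct w1 (fun i j => π (Θ i j)) j = π (ct w Θ j) := by
        rw [← ct_map]
        have : w1 = fun l => π (w l) := by
          funext l
          exact (hw l).symm
        rw [this]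
      rw [h2, ← hcstπ, ← map_pow, ← map_mul] at h1
      show π _ = 0
      rw [map_sub, h1, sub_self]
    choose r hr using hdiff
    refine ⟨K, fun l => red aug σ (r l), fun i j k => ?_⟩
    apply C_mul_cst_inj σ ε hz
    have h1 : C ε * w12 r Θ i j k = cst Q σ f ^ K * (C ε * p i j k) := by
      rw [← w12_smul]
      have h2 : (fun l => C ε * r l) = fun l => (cst Q σ f ^ K * ξ l) - ct w Θ l := by
        funext l
        exact (hr l).symm
      rw [h2, w12_sub, w12_smul, hp]
      have h3 : w12 (fun l => ct w Θ l) Θ i j k = 0 := w12_ct hΘ w i j k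
      rw [h3, sub_zero]
    rw [w12_map, ← C_mul_cst_red' aug σ ε hε, h1, map_mul, map_pow,
      C_mul_cst_red' aug σ ε hε (p i j k)]
    ring)
  refine ⟨c, fun i j k => ?_⟩
  rw [← hc, hp]
  exact C_mul_cst_red' aug σ ε hε _

private theorem GP_aux (n : ℕ) : ∀ {Q : Type} [CommRing Q] [Algebra ℂ Q] {aug : Q →ₐ[ℂ] ℂ}
    (_ : Art Q aug) (_ : Module.finrank ℂ Q = n)
    {σ ι : Type} [Fintype ι] (J : Ideal Q)
    (Θ : ι → ι → MvPolynomial σ Q) (_ : Dec Θ) (_ : Good (fun i j => red aug σ (Θ i j)))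
    (ξ : ι → MvPolynomial σ Q)
    (_ : ∀ i j k, w12 ξ Θ i j k ∈ J.map (C : Q →+* MvPolynomial σ Q)),
    ∃ ξ' : ι → MvPolynomial σ Q, (∀ j, ξ' j - ξ j ∈ J.map (C : Q →+* MvPolynomial σ Q)) ∧
      ∀ i j k, w12 ξ' Θ i j k = 0 := by
  induction n using Nat.strong_induction_on with
  | _ n ih =>
  intro Q _ _ aug h hn σ ι _ J Θ hΘ hg ξ hξ
  by_cases hJb : J = ⊥
  · refine ⟨ξ, fun j => ?_, fun i j k => ?_⟩
    · rw [sub_self]
      exact Ideal.zero_mem _
    · have h1 := hξ i j k
      rw [hJb, Ideal.map_bot, Ideal.mem_bot] at h1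
      exact h1
  obtain ⟨ε, hεJ, hε0, hε⟩ := h.socle J hJb
  by_cases haε : aug ε = 0
  · have hJ := aug_span aug haε
    have hA := h.quot (Ideal.span {ε}) hJ
    have hfin : Module.Finite ℂ Q := h.fin
    have hlt : Module.finrank ℂ (Q ⧸ Ideal.span {ε}) < n := by
      have h2 := LinearMap.finrank_range_add_finrank_ker
        (Ideal.Quotient.mkₐ ℂ (Ideal.span {ε})).toLinearMap
      have h3 : LinearMap.range (Ideal.Quotient.mkₐ ℂ (Ideal.span {ε})).toLinearMap = ⊤ := by
        rw [LinearMap.range_eq_top]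
        exact Ideal.Quotient.mk_surjective
      rw [h3, finrank_top] at h2
      have h4 : 0 < Module.finrank ℂ
          (LinearMap.ker (Ideal.Quotient.mkₐ ℂ (Ideal.span {ε})).toLinearMap) := by
        rw [Module.finrank_pos_iff_exists_ne_zero]
        refine ⟨⟨ε, ?_⟩, ?_⟩
        · rw [LinearMap.mem_ker]
          show Ideal.Quotient.mk (Ideal.span {ε}) ε = 0
          exact Ideal.Quotient.eq_zero_iff_mem.mpr (Ideal.mem_span_singleton_self ε)
        · intro h5
          exact hε0 (congrArg Subtype.val h5)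
      omega
    set π : MvPolynomial σ Q →+* MvPolynomial σ (Q ⧸ Ideal.span {ε}) :=
      MvPolynomial.map (Ideal.Quotient.mk (Ideal.span {ε})) with hπ
    have hredπ : ∀ p, red (qaug aug (Ideal.span {ε}) hJ) σ (π p) = red aug σ p := by
      intro p
      unfold red
      rw [hπ, MvPolynomial.map_map]
      rfl
    have hsurj : Function.Surjective π :=
      MvPolynomial.map_surjective _ Ideal.Quotient.mk_surjective
    have hmap : (J.map (Ideal.Quotient.mk (Ideal.span {ε}))).map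
        (C : (Q ⧸ Ideal.span {ε}) →+* MvPolynomial σ (Q ⧸ Ideal.span {ε})) =
        (J.map (C : Q →+* MvPolynomial σ Q)).map π := by
      rw [Ideal.map_map, Ideal.map_map]
      congr 1
      ext1 q
      show C (Ideal.Quotient.mk (Ideal.span {ε}) q) = π (C q)
      rw [hπ, MvPolynomial.map_C]
    obtain ⟨ξ1, hξ1, hξ1'⟩ := ih _ hlt hA rfl (J.map (Ideal.Quotient.mk (Ideal.span {ε})))
      (fun i j => π (Θ i j)) (hΘ.map π) (by
      have : (fun i j => red (qaug aug (Ideal.span {ε}) hJ) σ (π (Θ i j))) =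
          fun i j => red aug σ (Θ i j) := by
        funext i j
        exact hredπ _
      rw [this]
      exact hg) (fun l => π (ξ l)) (by
      intro i j k
      rw [w12_map, hmap]
      exact Ideal.mem_map_of_mem π (hξ i j k))
    have hδ : ∀ j, ∃ δ ∈ J.map (C : Q →+* MvPolynomial σ Q), π δ = ξ1 j - π (ξ j) := by
      intro j
      have h1 := hξ1 j
      rw [hmap, Ideal.mem_map_iff_of_surjective π hsurj] at h1
      exact h1
    choose δ hδJ hδπ using hδ
    have h0 : ∀ i j k, ∃ p, w12 (fun l => ξ l + δ l) Θ i j k = C ε * p := by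
      intro i j k
      apply exists_of_map_mk_eq_zero'
      show π _ = 0
      rw [← w12_map]
      have h2 : (fun l => π (ξ l + δ l)) = ξ1 := by
        funext l
        rw [map_add, hδπ]
        ring
      rw [h2]
      exact hξ1' i j k
    obtain ⟨c, hc⟩ := GP1 h ε hε haε Θ hΘ hg (fun l => ξ l + δ l) h0
    refine ⟨fun l => (ξ l + δ l) - C ε * cst Q σ (c l), fun j => ?_, fun i j k => ?_⟩
    · have h1 : ξ j + δ j - C ε * cst Q σ (c j) - ξ j = δ j - C ε * cst Q σ (c j) := by ring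
      rw [h1]
      exact Ideal.sub_mem _ (hδJ j) (Ideal.mul_mem_right _ _ (Ideal.mem_map_of_mem _ hεJ))
    · have h2 : (fun l => red aug σ (cst Q σ (c l))) = c := by
        funext l
        exact red_cst' aug σ (c l)
      have h3 : red aug σ (w12 (fun l => cst Q σ (c l)) Θ i j k) =
          w12 c (fun i j => red aug σ (Θ i j)) i j k := by
        rw [← w12_map, h2]
      rw [w12_sub, w12_smul, hc, C_mul_cst_red' aug σ ε hε (w12 (fun l => cst Q σ (c l)) Θ i j k),
        h3, sub_self]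
  · refine ⟨fun _ => 0, fun j => ?_, fun i j k => ?_⟩
    · have hu : IsUnit ε := by
        have h1 : IsNilpotent (ε - algebraMap ℂ Q (aug ε)) := by
          apply h.nil
          rw [map_sub, AlgHom.commutes]
          simp
        have h2 : IsUnit (algebraMap ℂ Q (aug ε)) :=
          (IsUnit.mk0 _ haε).map (algebraMap ℂ Q)
        have h3 := h1.isUnit_add_right_of_commute h2 (Commute.all _ _)
        rwa [sub_add_cancel] at h3
      have hJt : J = ⊤ := Ideal.eq_top_of_isUnit_mem J hεJ hu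
      rw [hJt, Ideal.map_top]
      exact Submodule.mem_top
    · unfold w12
      ring

theorem GP {Q : Type} [CommRing Q] [Algebra ℂ Q] {aug : Q →ₐ[ℂ] ℂ} (h : Art Q aug)
    {σ ι : Type} [Fintype ι] (J : Ideal Q)
    (Θ : ι → ι → MvPolynomial σ Q) (hΘ : Dec Θ) (hg : Good (fun i j => red aug σ (Θ i j)))
    (ξ : ι → MvPolynomial σ Q)
    (hξ : ∀ i j k, w12 ξ Θ i j k ∈ J.map (C : Q →+* MvPolynomial σ Q)) :
    ∃ ξ' : ι → MvPolynomial σ Q, (∀ j, ξ' j - ξ j ∈ J.map (C : Q →+* MvPolynomial σ Q)) ∧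
      ∀ i j k, w12 ξ' Θ i j k = 0 :=
  GP_aux _ h rfl J Θ hΘ hg ξ hξ

end Pool.Agent.Helper71.FL
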