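import Pool.Agent.Helper71.FL.Defs

/-! FL-4: integration with respect to `x_0`. -/

set_option autoImplicit false

namespace Pool.Agent.Helper71.FL

open MvPolynomial

/-- integration with respect to `x_0`, no constant term -/
noncomputable def int0 (N : ℕ) (B : Type) [CommRing B] [Algebra ℂ B] :
    MvPolynomial (Fin (N + 1)) B →ₗ[B] MvPolynomial (Fin (N + 1)) B :=
  (basisMonomials (Fin (N + 1)) B).constr B (fun μ =>
    monomial (μ + Finsupp.single 0 1) (algebraMap ℂ B (1 / ((μ 0 : ℂ) + 1))))

section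
variable {N : ℕ} {B : Type} [CommRing B] [Algebra ℂ B]

theorem int0_monomial (μ : Fin (N + 1) →₀ ℕ) (b : B) : int0 N B (monomial μ b) =
    monomial (μ + Finsupp.single 0 1) (algebraMap ℂ B (1 / ((μ 0 : ℂ) + 1)) * b) := by
  have h : (monomial μ b : MvPolynomial (Fin (N + 1)) B)
      = b • basisMonomials (Fin (N + 1)) B μ := by
    rw [coe_basisMonomials, smul_monomial, smul_eq_mul, mul_one]
  rw [h, map_smul]
  unfold int0
  rw [Module.Basis.constr_basis, smul_monomial, smul_eq_mul, mul_comm]

private theorem inv_mul_cancelB (k : ℕ) :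
    algebraMap ℂ B (1 / ((k : ℂ) + 1)) * ((k : B) + 1) = 1 := by
  have h : ((k : B) + 1) = algebraMap ℂ B ((k : ℂ) + 1) := by
    rw [map_add, map_natCast, map_one]
  rw [h, ← map_mul, one_div, inv_mul_cancel₀ (Nat.cast_add_one_ne_zero k), map_one]

private theorem emb_mono (ν : Fin N →₀ ℕ) (b : B) (k : ℕ) :
    emb N B (monomial ν b) * X 0 ^ k = monomial (Finsupp.cons k ν) b := by
  unfold emb
  have h : Finsupp.mapDomain Fin.succ ν + Finsupp.single 0 k = Finsupp.cons k ν := by
    refine Finsupp.ext (fun i => ?_)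
    refine Fin.cases ?_ (fun j => ?_) i
    · rw [Finsupp.add_apply, Finsupp.cons_zero, Finsupp.single_eq_same,
        Finsupp.mapDomain_of_notMem_range, zero_add]
      rintro ⟨j, hj⟩
      exact Fin.succ_ne_zero j hj
    · rw [Finsupp.add_apply, Finsupp.cons_succ, Finsupp.mapDomain_apply (Fin.succ_injective N),
        Finsupp.single_eq_of_ne (Fin.succ_ne_zero j), add_zero]
  rw [rename_monomial, X_pow_eq_monomial, monomial_mul, mul_one, h]

private theorem ind {P : MvPolynomial (Fin (N + 1)) B → Prop}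
    (h : ∀ (q : MvPolynomial (Fin N) B) (k : ℕ), P (emb N B q * X 0 ^ k))
    (ha : ∀ p q, P p → P q → P (p + q)) (p : MvPolynomial (Fin (N + 1)) B) : P p := by
  refine MvPolynomial.induction_on' p (fun μ b => ?_) ha
  have h1 := h (monomial μ.tail b) (μ 0)
  rwa [emb_mono, Finsupp.cons_tail] at h1

private theorem int0_emb (q : MvPolynomial (Fin N) B) (k : ℕ) :
    int0 N B (emb N B q * X 0 ^ k) =
      C (algebraMap ℂ B (1 / ((k : ℂ) + 1))) * (emb N B q * X 0 ^ (k + 1)) := by
  refine MvPolynomial.induction_on' q (fun ν b => ?_) (fun p q hp hq => ?_)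
  · have h : Finsupp.cons k ν + Finsupp.single 0 1 = Finsupp.cons (k + 1) ν := by
      refine Finsupp.ext (fun i => ?_)
      refine Fin.cases ?_ (fun j => ?_) i
      · rw [Finsupp.add_apply, Finsupp.cons_zero, Finsupp.single_eq_same, Finsupp.cons_zero]
      · rw [Finsupp.add_apply, Finsupp.cons_succ, Finsupp.cons_succ,
          Finsupp.single_eq_of_ne (Fin.succ_ne_zero j), add_zero]
    rw [emb_mono, emb_mono, int0_monomial, C_mul_monomial, Finsupp.cons_zero, h]
  · rw [map_add, add_mul, map_add, hp, hq]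
    ring

private theorem pd0_emb (p : MvPolynomial (Fin N) B) : pderiv 0 (emb N B p) = 0 := by
  unfold emb
  induction p using MvPolynomial.induction_on with
  | C a => rw [rename_C, pderiv_C]
  | add p q hp hq => rw [map_add, map_add, hp, hq, add_zero]
  | mul_X p i hp =>
    rw [map_mul, rename_X, Derivation.leibniz, hp, pderiv_X_of_ne (Fin.succ_ne_zero i),
      smul_zero, smul_zero, add_zero]

theorem pderiv_int0 (p : MvPolynomial (Fin (N + 1)) B) : pderiv 0 (int0 N B p) = p := by
  induction p using ind with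
  | h q k =>
    rw [int0_emb, Derivation.leibniz, pderiv_C, smul_zero, add_zero, Derivation.leibniz,
      pd0_emb, smul_zero, add_zero, Derivation.leibniz_pow, pderiv_X_self]
    have h1 := congrArg (C : B → MvPolynomial (Fin (N + 1)) B) (inv_mul_cancelB (B := B) k)
    rw [map_mul, map_add, map_natCast, map_one] at h1
    simp only [smul_eq_mul, nsmul_eq_mul, Nat.add_sub_cancel, mul_one, Nat.cast_add, Nat.cast_one]
    linear_combination (emb N B q * X 0 ^ k) * h1
  | ha p q hp hq =>
    rw [map_add, map_add, hp, hq]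

private theorem at0X : at0 N B (X 0) = 0 := by
  unfold at0
  rw [aeval_X, Fin.cons_zero]

theorem at0_int0 (p : MvPolynomial (Fin (N + 1)) B) : at0 N B (int0 N B p) = 0 := by
  induction p using ind with
  | h q k =>
    rw [int0_emb, map_mul, map_mul, map_pow, at0X, zero_pow (Nat.succ_ne_zero k), mul_zero,
      mul_zero]
  | ha p q hp hq =>
    rw [map_add, map_add, hp, hq, add_zero]

theorem at0_emb (p : MvPolynomial (Fin N) B) : at0 N B (emb N B p) = p := by
  unfold at0 emb
  rw [aeval_rename]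
  have h : ((Fin.cons (0 : MvPolynomial (Fin N) B) (fun i => (X i : MvPolynomial (Fin N) B)) :
      Fin (N + 1) → MvPolynomial (Fin N) B) ∘ Fin.succ) = X := by
    funext i
    simp only [Function.comp_apply, Fin.cons_succ]
  rw [h, aeval_X_left_apply]

theorem at0_X0 : at0 N B (X 0) = 0 := at0X

theorem pderiv0_emb (p : MvPolynomial (Fin N) B) : pderiv 0 (emb N B p) = 0 := pd0_emb p

theorem pderiv_succ_emb (i : Fin N) (p : MvPolynomial (Fin N) B) :
    pderiv i.succ (emb N B p) = emb N B (pderiv i p) := by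
  unfold emb
  exact pderiv_rename (Fin.succ_injective N) i p

private theorem pds (i : Fin N) (q : MvPolynomial (Fin N) B) (k : ℕ) :
    pderiv i.succ (emb N B q * X 0 ^ k) = emb N B (pderiv i q) * X 0 ^ k := by
  rw [Derivation.leibniz, pderiv_succ_emb, Derivation.leibniz_pow,
    pderiv_X_of_ne (Fin.succ_ne_zero i).symm, smul_zero, smul_zero, smul_zero, zero_add,
    smul_eq_mul, mul_comm]

theorem at0_pderiv_succ (i : Fin N) (p : MvPolynomial (Fin (N + 1)) B) :
    at0 N B (pderiv i.succ p) = pderiv i (at0 N B p) := by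
  induction p using ind with
  | h q k =>
    rw [pds, map_mul, map_mul, map_pow, at0X, at0_emb, at0_emb]
    rcases k with _ | k
    · rw [pow_zero, mul_one, mul_one]
    · rw [zero_pow (Nat.succ_ne_zero k), mul_zero, mul_zero, map_zero]
  | ha p q hp hq =>
    rw [map_add, map_add, map_add, map_add, hp, hq]

theorem int0_pderiv (p : MvPolynomial (Fin (N + 1)) B) :
    int0 N B (pderiv 0 p) = p - emb N B (at0 N B p) := by
  induction p using ind with
  | h q k =>
    rcases k with _ | k
    · rw [pow_zero, mul_one, pd0_emb, map_zero, at0_emb, sub_self]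
    · have h0 : pderiv 0 (emb N B q * X 0 ^ (k + 1)) = ((k : B) + 1) • (emb N B q * X 0 ^ k) := by
        rw [Derivation.leibniz, pd0_emb, smul_zero, add_zero, Derivation.leibniz_pow,
          pderiv_X_self, Nat.add_sub_cancel, smul_eq_mul, smul_eq_mul, mul_one, nsmul_eq_mul,
          smul_eq_C_mul, map_add, map_natCast, map_one, Nat.cast_add, Nat.cast_one]
        ring
      rw [h0, map_smul, int0_emb, map_mul, map_pow, at0X, zero_pow (Nat.succ_ne_zero k), mul_zero,
        map_zero, sub_zero, smul_eq_C_mul, ← mul_assoc, ← map_mul, mul_comm ((k : B) + 1), inv_mul_cancelB, map_one, one_mul]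

  | ha p q hp hq =>
    rw [map_add, map_add, map_add, map_add, hp, hq]
    ring

theorem pderiv_succ_int0 (i : Fin N) (p : MvPolynomial (Fin (N + 1)) B) :
    pderiv i.succ (int0 N B p) = int0 N B (pderiv i.succ p) := by
  induction p using ind with
  | h q k =>
    rw [pds, int0_emb, int0_emb, Derivation.leibniz, pderiv_C, smul_zero, add_zero, pds,
      smul_eq_mul]
  | ha p q hp hq =>
    rw [map_add, map_add, map_add, map_add, hp, hq]

theorem int0_hom {n : ℕ} {p : MvPolynomial (Fin (N + 1)) B} (hp : p.IsHomogeneous n) :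
    (int0 N B p).IsHomogeneous (n + 1) := by
  rw [p.as_sum, map_sum]
  refine IsHomogeneous.sum _ _ _ (fun μ hμ => ?_)
  rw [int0_monomial]
  refine isHomogeneous_monomial _ ?_
  rw [map_add, Finsupp.degree_single, ← hp (mem_support_iff.mp hμ), Finsupp.degree_eq_weight_one]
  rfl

theorem at0_hom {n : ℕ} {p : MvPolynomial (Fin (N + 1)) B} (hp : p.IsHomogeneous n) :
    (at0 N B p).IsHomogeneous n := by
  unfold at0
  have h := hp.aeval (Fin.cons (0 : MvPolynomial (Fin N) B)
    (fun i => (X i : MvPolynomial (Fin N) B)) : Fin (N + 1) → MvPolynomial (Fin N) B) (n := 1)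
    (fun i => by
      refine Fin.cases ?_ (fun j => ?_) i
      · rw [Fin.cons_zero]; exact isHomogeneous_zero _ _ _
      · rw [Fin.cons_succ]; exact isHomogeneous_X _ _)
  rwa [one_mul] at h

theorem int0_dvd {m : ℕ} {p : MvPolynomial (Fin (N + 1)) B} (hp : X 0 ^ m ∣ p) :
    X 0 ^ (m + 1) ∣ int0 N B p := by
  obtain ⟨r, rfl⟩ := hp
  induction r using ind with
  | h q k =>
    have h1 : (X 0 ^ m * (emb N B q * X 0 ^ k) : MvPolynomial (Fin (N + 1)) B)
        = emb N B q * X 0 ^ (k + m) := by ring
    rw [h1, int0_emb]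
    exact ⟨C (algebraMap ℂ B (1 / (((k + m : ℕ) : ℂ) + 1))) * (emb N B q * X 0 ^ k), by ring⟩
  | ha p q hp hq =>
    rw [mul_add, map_add]
    exact dvd_add hp hq

theorem pderiv_succ_dvd {m : ℕ} (i : Fin N) {p : MvPolynomial (Fin (N + 1)) B} (hp : X 0 ^ m ∣ p) :
    X 0 ^ m ∣ pderiv i.succ p := by
  obtain ⟨r, rfl⟩ := hp
  rw [Derivation.leibniz, Derivation.leibniz_pow, pderiv_X_of_ne (Fin.succ_ne_zero i).symm,
    smul_zero, smul_zero, smul_zero, add_zero, smul_eq_mul]
  exact dvd_mul_right _ _

theorem int0_map {B' : Type} [CommRing B'] [Algebra ℂ B'] (φ : B →ₐ[ℂ] B')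
    (p : MvPolynomial (Fin (N + 1)) B) :
    MvPolynomial.map (φ : B →+* B') (int0 N B p) = int0 N B' (MvPolynomial.map (φ : B →+* B') p) := by
  refine MvPolynomial.induction_on' (P := fun p => MvPolynomial.map (φ : B →+* B') (int0 N B p)
    = int0 N B' (MvPolynomial.map (φ : B →+* B') p)) p (fun μ b => ?_) (fun p q hp hq => ?_)
  · rw [int0_monomial, map_monomial, map_monomial, int0_monomial, map_mul, AlgHom.coe_toRingHom,
      AlgHom.commutes]
  · simp only [map_add, hp, hq]

theorem at0_map {B' : Type} [CommRing B'] (φ : B →+* B') (p : MvPolynomial (Fin (N + 1)) B) :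
    MvPolynomial.map φ (at0 N B p) = at0 N B' (MvPolynomial.map φ p) := by
  induction p using MvPolynomial.induction_on with
  | C a =>
    rw [map_C, ← algebraMap_eq, ← algebraMap_eq, AlgHom.commutes, AlgHom.commutes, algebraMap_eq,
      algebraMap_eq, map_C]
  | add p q hp hq => rw [map_add, map_add, hp, hq, map_add, map_add]
  | mul_X p i hp =>
    rw [map_mul, map_mul, hp, map_mul, map_mul, map_X]
    congr 1
    unfold at0
    rw [aeval_X, aeval_X]
    refine Fin.cases ?_ (fun j => ?_) i
    · rw [Fin.cons_zero, Fin.cons_zero, map_zero]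
    · rw [Fin.cons_succ, Fin.cons_succ, map_X]

theorem emb_map {B' : Type} [CommRing B'] (φ : B →+* B') (p : MvPolynomial (Fin N) B) :
    MvPolynomial.map φ (emb N B p) = emb N B' (MvPolynomial.map φ p) := by
  unfold emb
  exact map_rename φ Fin.succ p

theorem dvd_of_pderiv0 {m : ℕ} {p : MvPolynomial (Fin (N + 1)) B} (hp : X 0 ^ m ∣ pderiv 0 p)
    (h0 : at0 N B p = 0) : X 0 ^ (m + 1) ∣ p := by
  have h1 := int0_dvd hp
  rwa [int0_pderiv, h0, map_zero, sub_zero] at h1

theorem eq_zero_of_pderiv0 {p : MvPolynomial (Fin (N + 1)) B} (hp : pderiv 0 p = 0)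
    (h0 : at0 N B p = 0) : p = 0 := by
  have h1 := int0_pderiv p
  rw [hp, map_zero, h0, map_zero, sub_zero] at h1
  exact h1.symm

/-- a homogeneous polynomial of degree `n` divisible by `x_0^(n+1)` vanishes -/
theorem eq_zero_of_dvd_hom {n : ℕ} {p : MvPolynomial (Fin (N + 1)) B} (hp : p.IsHomogeneous n)
    (hd : X 0 ^ (n + 1) ∣ p) : p = 0 := by
  obtain ⟨r, hr⟩ := hd
  by_contra hne
  obtain ⟨μ, hμ⟩ := ne_zero_iff.mp hne
  have h1 := hp hμ
  have h1 : μ.degree = n := by
    rw [Finsupp.degree_eq_weight_one]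
    exact h1
  rw [hr, X_pow_eq_monomial, coeff_monomial_mul'] at hμ
  have h2 : Finsupp.single 0 (n + 1) ≤ μ := by
    by_contra h3
    rw [if_neg h3] at hμ
    exact hμ rfl
  have h3 := Finsupp.degree_mono h2
  rw [Finsupp.degree_single] at h3
  omega

end

end Pool.Agent.Helper71.FL
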