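import Pool.Agent.Helper71.FL.ZLift
import Pool.Agent.Helper71.FL.Curve

/-! FL-10: two extensions of the same form over an Artinian algebra are joined by a polynomial path.
Proof: induction on `m`: a path `P` (homogeneous, ends `ξ1`, `ξ2`) with `Sol m` over `Polynomial B`; start (`m = 0`):
`(1 - τ) ξ1 + τ ξ2`.  Step: write `w12 P (Th θ0 P) = X 0 ^ m * b` modulo `X 0 ^ (m+1)` with `b` in `x_1..x_N` over
`Polynomial B` (homogeneous of degree `2 e - m`), a polynomial curve in the complex vector space `W` of triples of
homogeneous polynomials over `B`; for each `t : ℂ`, `zext` (applied to the value of `P` at `τ = t`) shows that the value at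
`t` lies in the range of `L : c ↦ (w12 c θ0)` (`c` homogeneous of degree `e - m`, zero if `m > e`); at `t = 0, 1` the value is
`0`.  `curve_lift` with `v0 = v1 = 0` gives `c(τ)` with `L c(τ) = - b(τ)`; `P + X 0 ^ m * emb c(τ)`.  After `2 e + 1` steps
`eq_zero_of_dvd_hom`. -/

set_option autoImplicit false

namespace Pool.Agent.Helper71.FL

open MvPolynomial

namespace PathAux

section gen
variable {N : ℕ} {B : Type} [CommRing B] [Algebra ℂ B]

theorem X0_dvd {f : MvPolynomial (Fin (N + 1)) B} (h : at0 N B f = 0) : X 0 ∣ f := by
  have h1 := int0_pderiv f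
  rw [h, map_zero, sub_zero] at h1
  have h2 : (X 0 : MvPolynomial (Fin (N + 1)) B) ^ (0 + 1) ∣ int0 N B (pderiv 0 f) :=
    int0_dvd (by rw [pow_zero]; exact one_dvd _)
  rw [h1] at h2
  simpa using h2

theorem X0_dvd_emb {s : MvPolynomial (Fin N) B} (m : ℕ) (h : X 0 ^ (m + 1) ∣ X 0 ^ m * emb N B s) :
    s = 0 := by
  obtain ⟨q, hq⟩ := h
  have h1 : emb N B s = X 0 * q := by
    apply (isRegular_X_pow m).left
    show X 0 ^ m * emb N B s = X 0 ^ m * (X 0 * q)
    rw [hq, pow_succ]
    ring
  have h2 := congrArg (at0 N B) h1
  rw [at0_emb, map_mul, at0_X0, zero_mul] at h2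
  exact h2

theorem exists_b {m : ℕ} {D : MvPolynomial (Fin (N + 1)) B} (h : X 0 ^ m ∣ D) :
    ∃ b : MvPolynomial (Fin N) B, X 0 ^ (m + 1) ∣ D - X 0 ^ m * emb N B b := by
  obtain ⟨q, hq⟩ := h
  refine ⟨at0 N B q, ?_⟩
  have h1 : (X 0 : MvPolynomial (Fin (N + 1)) B) ∣ q - emb N B (at0 N B q) := by
    apply X0_dvd
    rw [map_sub, at0_emb, sub_self]
  obtain ⟨r, hr⟩ := h1
  refine ⟨r, ?_⟩
  rw [hq, pow_succ, mul_assoc, ← hr]
  ring

theorem w12_step {m : ℕ} (θ0 : Fin N → Fin N → MvPolynomial (Fin N) B)
    (P : Fin N → MvPolynomial (Fin (N + 1)) B) (q : Fin N → MvPolynomial (Fin N) B)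
    (i j k : Fin N) :
    X 0 ^ (m + 1) ∣ w12 (fun j => P j + X 0 ^ m * emb N B (q j))
        (Th θ0 (fun j => P j + X 0 ^ m * emb N B (q j))) i j k
      - (w12 P (Th θ0 P) i j k + X 0 ^ m * emb N B (w12 q θ0 i j k)) := by
  have hT : ∀ i j, X 0 ^ (m + 1) ∣ Th θ0 (fun j => P j + X 0 ^ m * emb N B (q j)) i j - Th θ0 P i j := by
    intro i j
    apply Th_congr
    intro j
    rw [add_sub_cancel_left]
    exact dvd_mul_right _ _
  have hE : ∀ i j, X 0 ∣ Th θ0 P i j - emb N B (θ0 i j) := by
    intro i j
    apply X0_dvd
    rw [map_sub, at0_emb, at0_Th, sub_self]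
  have hT' : ∀ i j, ∃ r, Th θ0 (fun j => P j + X 0 ^ m * emb N B (q j)) i j
      = Th θ0 P i j + X 0 ^ (m + 1) * r := by
    intro i j
    obtain ⟨r, hr⟩ := hT i j
    exact ⟨r, by rw [← hr]; ring⟩
  have hE' : ∀ i j, ∃ r, Th θ0 P i j = emb N B (θ0 i j) + X 0 * r := by
    intro i j
    obtain ⟨r, hr⟩ := hE i j
    exact ⟨r, by rw [← hr]; ring⟩
  choose R hR using hT'
  choose S hS using hE'
  refine ⟨(P i + X 0 ^ m * emb N B (q i)) * R j k + (P j + X 0 ^ m * emb N B (q j)) * R k i
      + (P k + X 0 ^ m * emb N B (q k)) * R i j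
      + (emb N B (q i) * S j k + emb N B (q j) * S k i + emb N B (q k) * S i j), ?_⟩
  unfold w12
  simp only [hR, map_add, map_mul]
  have e1 := hS j k
  have e2 := hS k i
  have e3 := hS i j
  have : (P i + X 0 ^ m * emb N B (q i)) * (Th θ0 P j k + X 0 ^ (m + 1) * R j k)
      + (P j + X 0 ^ m * emb N B (q j)) * (Th θ0 P k i + X 0 ^ (m + 1) * R k i)
      + (P k + X 0 ^ m * emb N B (q k)) * (Th θ0 P i j + X 0 ^ (m + 1) * R i j)
      = (P i * Th θ0 P j k + P j * Th θ0 P k i + P k * Th θ0 P i j)
        + X 0 ^ m * (emb N B (q i) * Th θ0 P j k + emb N B (q j) * Th θ0 P k i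
          + emb N B (q k) * Th θ0 P i j)
        + X 0 ^ (m + 1) * ((P i + X 0 ^ m * emb N B (q i)) * R j k
          + (P j + X 0 ^ m * emb N B (q j)) * R k i
          + (P k + X 0 ^ m * emb N B (q k)) * R i j) := by ring
  rw [this]
  have e4 : emb N B (q i) * Th θ0 P j k + emb N B (q j) * Th θ0 P k i + emb N B (q k) * Th θ0 P i j
      = (emb N B (q i) * emb N B (θ0 j k) + emb N B (q j) * emb N B (θ0 k i)
          + emb N B (q k) * emb N B (θ0 i j))
        + X 0 * (emb N B (q i) * S j k + emb N B (q j) * S k i + emb N B (q k) * S i j) := by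
    rw [e1, e2, e3]; ring
  rw [e4, pow_succ]
  ring

theorem Sol_step_iff {m : ℕ} {θ0 : Fin N → Fin N → MvPolynomial (Fin N) B}
    {P : Fin N → MvPolynomial (Fin (N + 1)) B} {q : Fin N → MvPolynomial (Fin N) B}
    {b : Fin N → Fin N → Fin N → MvPolynomial (Fin N) B}
    (hb : ∀ i j k, X 0 ^ (m + 1) ∣ w12 P (Th θ0 P) i j k - X 0 ^ m * emb N B (b i j k)) :
    Sol (m + 1) θ0 (fun j => P j + X 0 ^ m * emb N B (q j)) ↔
      ∀ i j k, b i j k + w12 q θ0 i j k = 0 := by
  constructor
  · intro h i j k
    apply X0_dvd_emb m
    have h1 := h i j k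
    have h2 := w12_step (m := m) θ0 P q i j k
    have h3 := dvd_sub (dvd_sub h1 h2) (hb i j k)
    refine h3.trans (dvd_of_eq ?_)
    rw [map_add]
    ring
  · intro h i j k
    have h2 := w12_step (m := m) θ0 P q i j k
    have h3 := dvd_add h2 (hb i j k)
    refine h3.trans (dvd_of_eq ?_)
    have h4 : emb N B (w12 q θ0 i j k) = - emb N B (b i j k) := by
      rw [← map_neg]
      congr 1
      linear_combination h i j k
    rw [h4]
    ring

omit [Algebra ℂ B] in
theorem w12_hom {e : ℕ} {ξ : Fin N → MvPolynomial (Fin (N + 1)) B}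
    {θ : Fin N → Fin N → MvPolynomial (Fin (N + 1)) B} (hξ : ∀ j, (ξ j).IsHomogeneous e)
    (hθ : ∀ i j, (θ i j).IsHomogeneous e) (i j k : Fin N) :
    (w12 ξ θ i j k).IsHomogeneous (e + e) := by
  unfold w12
  exact (((hξ i).mul (hθ j k)).add ((hξ j).mul (hθ k i))).add ((hξ k).mul (hθ i j))

end gen

section poly
variable {σ : Type} {B : Type} [CommRing B]

/-- polynomials over `B[τ]` as polynomials in `τ` -/
noncomputable def Psi (σ B : Type) [CommRing B] :
    MvPolynomial σ (Polynomial B) →+* Polynomial (MvPolynomial σ B) :=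
  eval₂Hom (Polynomial.mapRingHom (C : B →+* MvPolynomial σ B)) (fun i => Polynomial.C (X i))

/-- inverse of `Psi` -/
noncomputable def Phi (σ B : Type) [CommRing B] :
    Polynomial (MvPolynomial σ B) →+* MvPolynomial σ (Polynomial B) :=
  Polynomial.eval₂RingHom (MvPolynomial.map Polynomial.C) (C Polynomial.X)

theorem Phi_C (p : MvPolynomial σ B) : Phi σ B (Polynomial.C p) = MvPolynomial.map Polynomial.C p := by
  simp [Phi]

theorem Phi_Psi (f : MvPolynomial σ (Polynomial B)) : Phi σ B (Psi σ B f) = f := by
  have : (Phi σ B).comp (Psi σ B) = RingHom.id _ := by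
    apply MvPolynomial.ringHom_ext
    · intro p
      have h2 : ((Phi σ B).comp (Psi σ B)).comp C = (C : Polynomial B →+* MvPolynomial σ (Polynomial B)) := by
        apply Polynomial.ringHom_ext
        · intro a
          simp [Phi, Psi]
        · simp [Phi, Psi]
      exact congrArg (fun g : Polynomial B →+* MvPolynomial σ (Polynomial B) => g p) h2
    · intro i
      simp [Phi, Psi]
  exact congrArg (fun g : MvPolynomial σ (Polynomial B) →+* _ => g f) this

theorem map_Phi (s : B) (g : Polynomial (MvPolynomial σ B)) :
    MvPolynomial.map (Polynomial.evalRingHom s) (Phi σ B g) = Polynomial.eval (C s) g := by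
  have : (MvPolynomial.map (Polynomial.evalRingHom s)).comp (Phi σ B)
      = Polynomial.evalRingHom (C s) := by
    apply Polynomial.ringHom_ext
    · intro p
      have h2 : (MvPolynomial.map (Polynomial.evalRingHom s)).comp (MvPolynomial.map Polynomial.C)
          = RingHom.id (MvPolynomial σ B) := by
        apply MvPolynomial.ringHom_ext
        · intro a; simp
        · intro i; simp
      have h3 := congrArg (fun g : MvPolynomial σ B →+* MvPolynomial σ B => g p) h2
      simpa [Phi] using h3
    · simp [Phi]
  exact congrArg (fun h : Polynomial (MvPolynomial σ B) →+* _ => h g) this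

theorem map_evalC (s : B) (p : MvPolynomial σ B) :
    MvPolynomial.map (Polynomial.evalRingHom s) (MvPolynomial.map Polynomial.C p) = p := by
  rw [← Phi_C, map_Phi, Polynomial.eval_C]

theorem eval_Psi (s : B) (f : MvPolynomial σ (Polynomial B)) :
    Polynomial.eval (C s) (Psi σ B f) = MvPolynomial.map (Polynomial.evalRingHom s) f := by
  rw [← map_Phi, Phi_Psi]

end poly

end PathAux

open PathAux

theorem zpath {N : ℕ} {B : Type} [CommRing B] [Algebra ℂ B] {aug : B →ₐ[ℂ] ℂ} (h : Art B aug)
    (e : ℕ) (he : 0 < e) (θ0 : Fin N → Fin N → MvPolynomial (Fin N) B)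
    (hc : Closed θ0) (hd : Dec θ0) (hθ : ∀ i j, (θ0 i j).IsHomogeneous e)
    (hg : Good (fun i j => red aug (Fin N) (θ0 i j)))
    (ξ1 ξ2 : Fin N → MvPolynomial (Fin (N + 1)) B) (h1 : ∀ j, (ξ1 j).IsHomogeneous e)
    (h2 : ∀ j, (ξ2 j).IsHomogeneous e) (hs1 : ∀ i j k, w12 ξ1 (Th θ0 ξ1) i j k = 0)
    (hs2 : ∀ i j k, w12 ξ2 (Th θ0 ξ2) i j k = 0) :
    ∃ P : Fin N → MvPolynomial (Fin (N + 1)) (Polynomial B), (∀ j, (P j).IsHomogeneous e) ∧
      (∀ i j k, w12 P (Th (fun i j => MvPolynomial.map Polynomial.C (θ0 i j)) P) i j k = 0) ∧
      (∀ j, MvPolynomial.map (Polynomial.evalRingHom (0 : B)) (P j) = ξ1 j) ∧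
      (∀ j, MvPolynomial.map (Polynomial.evalRingHom (1 : B)) (P j) = ξ2 j) := by
  set θ' : Fin N → Fin N → MvPolynomial (Fin N) (Polynomial B) :=
    fun i j => MvPolynomial.map Polynomial.C (θ0 i j) with hθ'
  have hθ'hom : ∀ i j, (θ' i j).IsHomogeneous e := fun i j => (hθ i j).map _
  have main : ∀ m : ℕ, ∃ P : Fin N → MvPolynomial (Fin (N + 1)) (Polynomial B),
      (∀ j, (P j).IsHomogeneous e) ∧ Sol m θ' P ∧
      (∀ j, MvPolynomial.map (Polynomial.evalRingHom (0 : B)) (P j) = ξ1 j) ∧
      (∀ j, MvPolynomial.map (Polynomial.evalRingHom (1 : B)) (P j) = ξ2 j) := by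
    intro m
    induction m with
    | zero =>
      refine ⟨fun j => C (1 - Polynomial.X) * MvPolynomial.map Polynomial.C (ξ1 j)
        + C Polynomial.X * MvPolynomial.map Polynomial.C (ξ2 j), ?_, ?_, ?_, ?_⟩
      · intro j
        have a1 : (C (1 - Polynomial.X) * MvPolynomial.map Polynomial.C (ξ1 j) :
            MvPolynomial (Fin (N + 1)) (Polynomial B)).IsHomogeneous (0 + e) :=
          (isHomogeneous_C _ _).mul ((h1 j).map _)
        have a2 : (C Polynomial.X * MvPolynomial.map Polynomial.C (ξ2 j) :
            MvPolynomial (Fin (N + 1)) (Polynomial B)).IsHomogeneous (0 + e) :=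
          (isHomogeneous_C _ _).mul ((h2 j).map _)
        rw [zero_add] at a1 a2
        exact a1.add a2
      · intro i j k
        rw [pow_zero]
        exact one_dvd _
      · intro j
        rw [map_add, map_mul, map_mul, map_evalC, map_evalC, map_C, map_C]
        simp
      · intro j
        rw [map_add, map_mul, map_mul, map_evalC, map_evalC, map_C, map_C]
        simp
    | succ m ih =>
      obtain ⟨P, hP, hS, hP0, hP1⟩ := ih
      have hb : ∀ i j k, ∃ b : MvPolynomial (Fin N) (Polynomial B),
          X 0 ^ (m + 1) ∣ w12 P (Th θ' P) i j k - X 0 ^ m * emb N (Polynomial B) b :=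
        fun i j k => exists_b (hS i j k)
      choose b hb using hb
      -- evaluation of the path
      have hev : ∀ s : B, (Polynomial.evalRingHom s : Polynomial B →+* B)
          = (((Polynomial.aeval (R := B) s).restrictScalars ℂ : Polynomial B →ₐ[ℂ] B) :
            Polynomial B →+* B) := by
        intro s
        apply Polynomial.ringHom_ext
        · intro a; simp
        · simp
      have hθev : ∀ s : B, (fun i j => MvPolynomial.map (Polynomial.evalRingHom s) (θ' i j)) = θ0 := by
        intro s
        funext i j
        exact map_evalC s (θ0 i j)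
      have hTev : ∀ (s : B) i j, MvPolynomial.map (Polynomial.evalRingHom s) (Th θ' P i j)
          = Th θ0 (fun j => MvPolynomial.map (Polynomial.evalRingHom s) (P j)) i j := by
        intro s i j
        have h3 := Th_map ((Polynomial.aeval (R := B) s).restrictScalars ℂ : Polynomial B →ₐ[ℂ] B) θ' P i j
        rw [← hev s, hθev s] at h3
        exact h3
      have hDev : ∀ (s : B) i j k, MvPolynomial.map (Polynomial.evalRingHom s) (w12 P (Th θ' P) i j k)
          = w12 (fun j => MvPolynomial.map (Polynomial.evalRingHom s) (P j))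
            (Th θ0 (fun j => MvPolynomial.map (Polynomial.evalRingHom s) (P j))) i j k := by
        intro s i j k
        rw [← w12_map]
        congr 1
        funext i j
        exact hTev s i j
      have hbev : ∀ (s : B) i j k, X 0 ^ (m + 1) ∣
          w12 (fun j => MvPolynomial.map (Polynomial.evalRingHom s) (P j))
            (Th θ0 (fun j => MvPolynomial.map (Polynomial.evalRingHom s) (P j))) i j k
          - X 0 ^ m * emb N B (MvPolynomial.map (Polynomial.evalRingHom s) (b i j k)) := by
        intro s i j k
        have h3 := map_dvd (MvPolynomial.map (Polynomial.evalRingHom s)) (hb i j k)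
        rw [map_sub, hDev, map_mul, map_pow, map_pow, map_X, emb_map] at h3
        exact h3
      have hb0 : ∀ (s : B), (∀ i j k, w12 (fun j => MvPolynomial.map (Polynomial.evalRingHom s) (P j))
            (Th θ0 (fun j => MvPolynomial.map (Polynomial.evalRingHom s) (P j))) i j k = 0) →
          ∀ i j k, MvPolynomial.map (Polynomial.evalRingHom s) (b i j k) = 0 := by
        intro s hz i j k
        apply X0_dvd_emb m
        have h3 := hbev s i j k
        rw [hz, zero_sub, dvd_neg] at h3
        exact h3
      -- the spaces
      let V : Submodule ℂ (Fin N → MvPolynomial (Fin N) B) :=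
        { carrier := {q | ∀ j, ((X 0 : MvPolynomial (Fin (N + 1)) B) ^ m * emb N B (q j)).IsHomogeneous e}
          add_mem' := by
            intro a c ha hc' j
            have : (X 0 : MvPolynomial (Fin (N + 1)) B) ^ m * emb N B ((a + c) j)
                = X 0 ^ m * emb N B (a j) + X 0 ^ m * emb N B (c j) := by
              rw [Pi.add_apply, map_add, mul_add]
            rw [this]
            exact (ha j).add (hc' j)
          zero_mem' := by
            intro j
            rw [Pi.zero_apply, map_zero, mul_zero]
            exact isHomogeneous_zero _ _ _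
          smul_mem' := by
            intro t a ha j
            have : (X 0 : MvPolynomial (Fin (N + 1)) B) ^ m * emb N B ((t • a) j)
                = C (algebraMap ℂ B t) * (X 0 ^ m * emb N B (a j)) := by
              rw [Pi.smul_apply, Algebra.smul_def, MvPolynomial.algebraMap_apply, map_mul]
              have : emb N B (C (algebraMap ℂ B t)) = C (algebraMap ℂ B t) := by
                simp [emb]
              rw [this]
              ring
            rw [this]
            have h5 := (isHomogeneous_C (Fin (N + 1)) (algebraMap ℂ B t)).mul (ha j)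
            rwa [zero_add] at h5 }
      let W : Type := Fin N → Fin N → Fin N → MvPolynomial (Fin N) B
      let L : V →ₗ[ℂ] W :=
        { toFun := fun q i j k => w12 (q : Fin N → MvPolynomial (Fin N) B) θ0 i j k
          map_add' := by
            intro a c
            funext i j k
            show w12 (fun l => (a : Fin N → MvPolynomial (Fin N) B) l + (c : Fin N → MvPolynomial (Fin N) B) l) θ0 i j k = _
            rw [w12_add]
            rfl
          map_smul' := by
            intro t a
            funext i j k
            show w12 (fun l => t • (a : Fin N → MvPolynomial (Fin N) B) l) θ0 i j k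
              = t • w12 (a : Fin N → MvPolynomial (Fin N) B) θ0 i j k
            unfold w12
            simp only [smul_add, smul_mul_assoc] }
      let M : ℕ := ∑ i, ∑ j, ∑ k, (Psi (Fin N) B (b i j k)).natDegree
      have hM : ∀ i j k, (Psi (Fin N) B (b i j k)).natDegree ≤ M := by
        intro i j k
        calc (Psi (Fin N) B (b i j k)).natDegree
            ≤ ∑ k, (Psi (Fin N) B (b i j k)).natDegree :=
              Finset.single_le_sum (f := fun k => (Psi (Fin N) B (b i j k)).natDegree)
                (fun _ _ => Nat.zero_le _) (Finset.mem_univ k)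
          _ ≤ ∑ j, ∑ k, (Psi (Fin N) B (b i j k)).natDegree :=
              Finset.single_le_sum (f := fun j => ∑ k, (Psi (Fin N) B (b i j k)).natDegree)
                (fun _ _ => Nat.zero_le _) (Finset.mem_univ j)
          _ ≤ M :=
              Finset.single_le_sum (f := fun i => ∑ j, ∑ k, (Psi (Fin N) B (b i j k)).natDegree)
                (fun _ _ => Nat.zero_le _) (Finset.mem_univ i)
      let r : ℕ →₀ W := Finsupp.onFinset (Finset.range (M + 1))
        (fun n i j k => - (Psi (Fin N) B (b i j k)).coeff n) (by
          intro n hn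
          rw [Finset.mem_range]
          by_contra hcon
          apply hn
          funext i j k
          have : (Psi (Fin N) B (b i j k)).coeff n = 0 := by
            apply Polynomial.coeff_eq_zero_of_natDegree_lt
            have := hM i j k
            omega
          rw [this, neg_zero]
          rfl)
      have hr : ∀ n i j k, r n i j k = - (Psi (Fin N) B (b i j k)).coeff n := fun n i j k => rfl
      have hcev : ∀ (t : ℂ) i j k, cev t r i j k
          = - MvPolynomial.map (Polynomial.evalRingHom (algebraMap ℂ B t)) (b i j k) := by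
        intro t i j k
        have h3 : cev t r = ∑ n ∈ Finset.range (M + 1), t ^ n • r n := by
          unfold cev
          apply Finsupp.sum_of_support_subset
          · exact Finsupp.support_onFinset_subset
          · intro n _
            rw [smul_zero]
        rw [h3, ← eval_Psi, Polynomial.eval_eq_sum_range' (Nat.lt_succ_of_le (hM i j k))]
        rw [Finset.sum_apply, Finset.sum_apply, Finset.sum_apply, ← Finset.sum_neg_distrib]
        apply Finset.sum_congr rfl
        intro n _
        show t ^ n • r n i j k = _
        rw [hr, Algebra.smul_def, MvPolynomial.algebraMap_apply, map_pow, C_pow]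
        ring
      obtain ⟨v, hv, hv0, hv1⟩ := curve_lift L r (by
        intro t
        have hPt : ∀ j, (MvPolynomial.map (Polynomial.evalRingHom (algebraMap ℂ B t)) (P j)).IsHomogeneous e :=
          fun j => (hP j).map _
        have hSt : Sol m θ0 (fun j => MvPolynomial.map (Polynomial.evalRingHom (algebraMap ℂ B t)) (P j)) := by
          intro i j k
          have h3 := map_dvd (MvPolynomial.map (Polynomial.evalRingHom (algebraMap ℂ B t))) (hS i j k)
          rw [hDev, map_pow, map_X] at h3
          exact h3
        obtain ⟨q, hq1, hq2⟩ := zext h m e he θ0 hc hd hθ hg _ hPt hSt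
        refine ⟨⟨q, ?_⟩, ?_⟩
        · intro j
          have h3 := (hq1 j).sub (hPt j)
          rwa [add_sub_cancel_left] at h3
        · funext i j k
          rw [hcev]
          have h3 := (Sol_step_iff (hbev (algebraMap ℂ B t))).1 hq2 i j k
          show w12 q θ0 i j k = _
          linear_combination h3) 0 0 (by
        funext i j k
        rw [hcev, map_zero]
        rw [hb0 _ (by rw [map_zero]; simpa only [hP0] using hs1), neg_zero]
        rfl) (by
        funext i j k
        rw [hcev, map_zero]
        rw [hb0 _ (by rw [map_one]; simpa only [hP1] using hs2), neg_zero]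
        rfl)
      -- the correction
      let pv : Fin N → Polynomial (MvPolynomial (Fin N) B) := fun j =>
        ∑ n ∈ v.support, Polynomial.monomial n ((v n : Fin N → MvPolynomial (Fin N) B) j)
      have hpv : ∀ j n, (pv j).coeff n = (v n : Fin N → MvPolynomial (Fin N) B) j := by
        intro j n
        show (∑ n' ∈ v.support, Polynomial.monomial n' ((v n' : Fin N → MvPolynomial (Fin N) B) j)).coeff n = _
        rw [Polynomial.finsetSum_coeff]
        simp only [Polynomial.coeff_monomial]
        rw [Finset.sum_ite_eq' v.support n]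
        split_ifs with hn
        · rfl
        · rw [Finsupp.notMem_support_iff] at hn
          rw [hn]
          rfl
      have hpw : ∀ i j k, Psi (Fin N) B (b i j k)
          + w12 pv (fun i j => Polynomial.C (θ0 i j)) i j k = 0 := by
        intro i j k
        ext1 n
        have h3 : w12 (v n : Fin N → MvPolynomial (Fin N) B) θ0 i j k = r n i j k :=
          congrFun (congrFun (congrFun (hv n) i) j) k
        rw [hr] at h3
        rw [Polynomial.coeff_add, Polynomial.coeff_zero]
        unfold w12 at h3 ⊢
        simp only [Polynomial.coeff_add, Polynomial.coeff_mul_C, hpv]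
        rw [h3]
        ring
      have hpev : ∀ (t : ℂ), cev t v = 0 → ∀ j, Polynomial.eval (C (algebraMap ℂ B t)) (pv j) = 0 := by
        intro t ht j
        have h3 : (cev t v : V) = ∑ n ∈ v.support, t ^ n • v n := rfl
        rw [ht] at h3
        have h4 := congrArg (fun w : V => (w : Fin N → MvPolynomial (Fin N) B) j) h3
        show Polynomial.eval (C (algebraMap ℂ B t))
          (∑ n ∈ v.support, Polynomial.monomial n ((v n : Fin N → MvPolynomial (Fin N) B) j)) = 0
        rw [Polynomial.eval_finsetSum]
        have h5 : ((∑ n ∈ v.support, t ^ n • v n : V) : Fin N → MvPolynomial (Fin N) B) j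
            = ∑ n ∈ v.support, t ^ n • ((v n : Fin N → MvPolynomial (Fin N) B) j) := by
          rw [Submodule.coe_sum, Finset.sum_apply]
          rfl
        rw [h5] at h4
        have h6 : (0 : MvPolynomial (Fin N) B) = ∑ n ∈ v.support, t ^ n • ((v n : Fin N → MvPolynomial (Fin N) B) j) := h4
        rw [h6]
        apply Finset.sum_congr rfl
        intro n _
        rw [Polynomial.eval_monomial, Algebra.smul_def, MvPolynomial.algebraMap_apply, map_pow, C_pow]
        ring
      refine ⟨fun j => P j + X 0 ^ m * emb N (Polynomial B) (Phi (Fin N) B (pv j)), ?_, ?_, ?_, ?_⟩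
      · intro j
        refine (hP j).add ?_
        have h3 : (X 0 : MvPolynomial (Fin (N + 1)) (Polynomial B)) ^ m
              * emb N (Polynomial B) (Phi (Fin N) B (pv j))
            = ∑ n ∈ v.support, C (Polynomial.X ^ n) * MvPolynomial.map Polynomial.C
              (X 0 ^ m * emb N B ((v n : Fin N → MvPolynomial (Fin N) B) j)) := by
          show X 0 ^ m * emb N (Polynomial B) (Phi (Fin N) B
            (∑ n ∈ v.support, Polynomial.monomial n ((v n : Fin N → MvPolynomial (Fin N) B) j))) = _
          rw [map_sum, map_sum, Finset.mul_sum]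
          apply Finset.sum_congr rfl
          intro n _
          rw [← Polynomial.C_mul_X_pow_eq_monomial, map_mul, map_pow, Phi_C]
          have h4 : Phi (Fin N) B Polynomial.X = C Polynomial.X := by simp [Phi]
          have h5 : emb N (Polynomial B) (C Polynomial.X) = C Polynomial.X := by simp [emb]
          have h6 : MvPolynomial.map Polynomial.C ((X 0 : MvPolynomial (Fin (N + 1)) B) ^ m
                * emb N B ((v n : Fin N → MvPolynomial (Fin N) B) j))
              = X 0 ^ m * emb N (Polynomial B) (MvPolynomial.map Polynomial.C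
                ((v n : Fin N → MvPolynomial (Fin N) B) j)) := by
            rw [map_mul, map_pow, map_X, emb_map]
          rw [h4, h6, map_mul, map_pow, h5, C_pow]
          ring
        rw [h3]
        apply IsHomogeneous.sum
        intro n _
        have h4 := (isHomogeneous_C (Fin (N + 1)) (Polynomial.X ^ n : Polynomial B)).mul
          (((v n).2 j).map (Polynomial.C : B →+* Polynomial B))
        rwa [zero_add] at h4
      · rw [Sol_step_iff hb]
        intro i j k
        have h3 := congrArg (Phi (Fin N) B) (hpw i j k)
        rw [map_add, Phi_Psi, map_zero, ← w12_map] at h3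
        have h4 : (fun i j => Phi (Fin N) B (Polynomial.C (θ0 i j))) = θ' := by
          funext i j
          exact Phi_C _
        rw [h4] at h3
        exact h3
      · intro j
        rw [map_add, hP0, map_mul, emb_map, map_Phi]
        have h3 := hpev 0 hv0 j
        rw [map_zero] at h3
        rw [h3, map_zero, mul_zero, add_zero]
      · intro j
        rw [map_add, hP1, map_mul, emb_map, map_Phi]
        have h3 := hpev 1 hv1 j
        rw [map_one] at h3
        rw [h3, map_zero, mul_zero, add_zero]
  obtain ⟨P, hP, hS, hP0, hP1⟩ := main (e + e + 1)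
  refine ⟨P, hP, ?_, hP0, hP1⟩
  intro i j k
  exact eq_zero_of_dvd_hom (w12_hom hP (fun i j => Th_hom hθ'hom hP he i j) i j k) (hS i j k)

end Pool.Agent.Helper71.FL
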