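import Pool.Agent.Helper71.FL.Conv
import Pool.Agent.Helper71.FL.Path

/-! FL-12: lifting of deformations and paths, for 1-forms.  Direct translation of `zlift`, `zpath` by `Conv`. -/

set_option autoImplicit false

namespace Pool.Agent.Helper71.FL

open MvPolynomial

theorem lift_Int {N d : ℕ} (hd : 0 < d) {B : Type} [CommRing B] [Algebra ℂ B] {aug : B →ₐ[ℂ] ℂ}
    (h : Art B aug) {A : Fin N → MvPolynomial (Fin N) B} (hA : A ∈ IntB N d B)
    {A0 : Fin (N + 1) → MvPolynomial (Fin (N + 1)) ℂ} (hA0 : A0 ∈ IntB (N + 1) d ℂ)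
    (hr : ∀ i, res A0 i = red aug (Fin N) (A i)) (hg : Good (dd (res A0))) :
    ∃ A' ∈ IntB (N + 1) d B, res A' = A ∧ ∀ i, red aug (Fin (N + 1)) (A' i) = A0 i := by
  have hr' : (fun i => red aug (Fin N) (A i)) = res A0 := by
    funext i
    exact (hr i).symm
  have hθ : (fun i j => red aug (Fin N) (dd A i j)) = dd (res A0) := by
    funext i j
    rw [← hr']
    exact dd_map (aug : B →+* ℂ) A i j
  obtain ⟨ξ, hξ1, hξ2, hξ3⟩ := zlift h d hd (dd A) (dd_closed A) (dd_dec hA.2.2)
    (dd_hom hA.1) (by rw [hθ]; exact hg) (fun j => dd A0 0 j.succ)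
    (fun j => dd_hom hA0.1 0 j.succ) (by
      intro i j k
      rw [hθ]
      exact conv_sol hA0 i j k)
  obtain ⟨A', hA', hres, hx⟩ := conv_exists hd hA hξ1 hξ3
  refine ⟨A', hA', hres, ?_⟩
  have h1 : (fun i => red aug (Fin (N + 1)) (A' i)) = A0 := by
    refine conv_unique (IntB_map (aug : B →+* ℂ) hA') hA0 ?_ ?_
    · funext i
      have h2 := res_map (aug : B →+* ℂ) A' i
      rw [hres] at h2
      exact h2.symm.trans (hr i).symm
    · intro j
      have h2 := dd_map (aug : B →+* ℂ) A' 0 j.succ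
      rw [hx] at h2
      exact h2.symm.trans (hξ2 j)
  intro i
  exact congrFun h1 i

theorem path_Int {N d : ℕ} (hd : 0 < d) {B : Type} [CommRing B] [Algebra ℂ B] {aug : B →ₐ[ℂ] ℂ}
    (h : Art B aug) {A1 A2 : Fin (N + 1) → MvPolynomial (Fin (N + 1)) B}
    (hA1 : A1 ∈ IntB (N + 1) d B) (hA2 : A2 ∈ IntB (N + 1) d B) (hr : res A1 = res A2)
    (hg : Good (dd (fun i => red aug (Fin N) (res A1 i)))) :
    ∃ P ∈ IntB (N + 1) d (Polynomial B),
      (∀ i, MvPolynomial.map (Polynomial.evalRingHom (0 : B)) (P i) = A1 i) ∧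
      (∀ i, MvPolynomial.map (Polynomial.evalRingHom (1 : B)) (P i) = A2 i) := by
  have hR := res_IntB hA1
  obtain ⟨P, hP1, hP2, hP3, hP4⟩ := zpath h d hd (dd (res A1)) (dd_closed _) (dd_dec hR.2.2)
    (dd_hom hR.1) (by
      have h2 : (fun i j => red aug (Fin N) (dd (res A1) i j))
          = dd (fun i => red aug (Fin N) (res A1 i)) := by
        funext i j
        exact dd_map (aug : B →+* ℂ) (res A1) i j
      rw [h2]
      exact hg) (fun j => dd A1 0 j.succ) (fun j => dd A2 0 j.succ)
    (fun j => dd_hom hA1.1 0 j.succ) (fun j => dd_hom hA2.1 0 j.succ)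
    (fun i j k => conv_sol hA1 i j k) (by
      intro i j k
      rw [hr]
      exact conv_sol hA2 i j k)
  have hθ : (fun i j => MvPolynomial.map (Polynomial.C : B →+* Polynomial B) (dd (res A1) i j))
      = dd (fun i => MvPolynomial.map (Polynomial.C : B →+* Polynomial B) (res A1 i)) := by
    funext i j
    exact dd_map (Polynomial.C : B →+* Polynomial B) (res A1) i j
  rw [hθ] at hP2
  obtain ⟨P', hP', hres, hx⟩ := conv_exists hd (IntB_map (Polynomial.C : B →+* Polynomial B) hR)
    hP1 hP2
  have key : ∀ (t : B) (A' : Fin (N + 1) → MvPolynomial (Fin (N + 1)) B), A' ∈ IntB (N + 1) d B →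
      res A' = res A1 →
      (∀ j : Fin N, MvPolynomial.map (Polynomial.evalRingHom t) (P j) = dd A' 0 j.succ) →
      ∀ i, MvPolynomial.map (Polynomial.evalRingHom t) (P' i) = A' i := by
    intro t A' hA' hr' hP
    have h1 : (fun i => MvPolynomial.map (Polynomial.evalRingHom t) (P' i)) = A' := by
      refine conv_unique (IntB_map (Polynomial.evalRingHom t) hP') hA' ?_ ?_
      · funext i
        have h2 := res_map (Polynomial.evalRingHom t) P' i
        rw [hres] at h2
        rw [hr', ← h2, MvPolynomial.map_map]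
        have h3 : (Polynomial.evalRingHom t).comp (Polynomial.C : B →+* Polynomial B)
            = RingHom.id B := by
          ext b
          simp
        rw [h3, MvPolynomial.map_id]
      · intro j
        have h2 := dd_map (Polynomial.evalRingHom t) P' 0 j.succ
        rw [hx] at h2
        exact h2.symm.trans (hP j)
    intro i
    exact congrFun h1 i
  exact ⟨P', hP', key 0 A1 hA1 rfl hP3, key 1 A2 hA2 hr.symm hP4⟩

end Pool.Agent.Helper71.FL
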