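import Pool.Agent.Helper71.FL.Coord
import Pool.Agent.Helper71.FL.LiftA

/-! FL-14: infinitesimal lifting implies dominance (Krull intersection theorem).
`dom`: let `R = PR N d ⧸ IX N d`, `m` the kernel of `R → ℂ` given by `pt d (res A0)`, `B_k = R ⧸ m^k` (`art_pow`), `A_k` the image of
the universal form in `IntB N d B_k` (`uni_IntB_iff`).  `lift_Int` gives `A'_k ∈ IntB (N+1) d B_k` with `res A'_k = A_k`, reducing
to `A0`.  By hypothesis `resP F * G` vanishes on `IntS (N+1) d`, so `null` gives `(resP F * G)^M ∈ IX (N+1) d`, hence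
`(pt (A'_k) (resP F))^M * (pt A'_k G)^M = 0` in `B_k`, the second factor is a unit (its value under `aug` is `pt A0 G ≠ 0`) and the
first is `(pt A_k F)^M`, the class of `F^M`.  So `F^M ∈ m^k` in `R` for all `k`, and Krull (`Ideal.mem_iInf_smul_pow_eq_bot_iff`)
gives `a ∈ m` with `(1 - a) F^M = 0` in `R`; `U` = a representative of `1 - a`. -/

set_option autoImplicit false

namespace Pool.Agent.Helper71.FL

open MvPolynomial
open Pool.Agent.Helper93 (TT OF RE HomS IntS FolS Cop Comp PreIrr pb prj)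

theorem krull_one {R : Type} [CommRing R] [IsNoetherianRing R] (m : Ideal R) (x : R)
    (h : ∀ k, x ∈ m ^ k) : ∃ a ∈ m, (1 - a) * x = 0 := by
  have h1 : x ∈ (⨅ i : ℕ, m ^ i • ⊤ : Submodule R R) := by
    rw [Submodule.mem_iInf]
    intro i
    simpa using h i
  obtain ⟨r, hr⟩ := (Ideal.mem_iInf_smul_pow_eq_bot_iff m x).mp h1
  refine ⟨r.1, r.2, ?_⟩
  rw [sub_mul, one_mul]
  rw [smul_eq_mul] at hr
  rw [hr, sub_self]

theorem art_pow {R : Type} [CommRing R] [Algebra ℂ R] [Algebra.FiniteType ℂ R] (ev : R →ₐ[ℂ] ℂ)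
    (k : ℕ) (hk : 0 < k) (hJ : ∀ b ∈ (RingHom.ker (ev : R →+* ℂ)) ^ k, ev b = 0) :
    Art (R ⧸ (RingHom.ker (ev : R →+* ℂ)) ^ k) (qaug ev _ hJ) := by
  have hsurj : Function.Surjective (ev : R →+* ℂ) := by
    intro c
    exact ⟨algebraMap ℂ R c, by simp⟩
  have hmax : (RingHom.ker (ev : R →+* ℂ)).IsMaximal := RingHom.ker_isMaximal_of_surjective _ hsurj
  have hft : Algebra.FiniteType ℂ (R ⧸ (RingHom.ker (ev : R →+* ℂ)) ^ k) :=
    Algebra.FiniteType.of_surjective (Ideal.Quotient.mkₐ ℂ _) (Ideal.Quotient.mkₐ_surjective ℂ _)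
  refine ⟨?_, ?_⟩
  · rw [Module.finite_iff_krullDimLE_zero]
    refine Ring.KrullDimLE.mk₀ ?_
    intro I hI
    have hs : Function.Surjective (Ideal.Quotient.mk ((RingHom.ker (ev : R →+* ℂ)) ^ k)) :=
      Ideal.Quotient.mk_surjective
    have hp : (I.comap (Ideal.Quotient.mk ((RingHom.ker (ev : R →+* ℂ)) ^ k))).IsPrime :=
      Ideal.IsPrime.comap _
    have hle : (RingHom.ker (ev : R →+* ℂ)) ^ k ≤
        I.comap (Ideal.Quotient.mk ((RingHom.ker (ev : R →+* ℂ)) ^ k)) := by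
      intro b hb
      rw [Ideal.mem_comap, Ideal.Quotient.eq_zero_iff_mem.mpr hb]
      exact I.zero_mem
    have hle2 : RingHom.ker (ev : R →+* ℂ) ≤
        I.comap (Ideal.Quotient.mk ((RingHom.ker (ev : R →+* ℂ)) ^ k)) := hp.le_of_pow_le hle
    have heq : RingHom.ker (ev : R →+* ℂ) =
        I.comap (Ideal.Quotient.mk ((RingHom.ker (ev : R →+* ℂ)) ^ k)) :=
      hmax.eq_of_le hp.ne_top hle2
    have hm2 : (I.comap (Ideal.Quotient.mk ((RingHom.ker (ev : R →+* ℂ)) ^ k))).IsMaximal := by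
      rw [← heq]
      exact hmax
    have := Ideal.map_eq_top_or_isMaximal_of_surjective _ hs hm2
    rw [Ideal.map_comap_of_surjective _ hs] at this
    rcases this with h | h
    · exact absurd h hI.ne_top
    · exact h
  · intro b hb
    obtain ⟨b, rfl⟩ := Ideal.Quotient.mk_surjective b
    rw [qaug_mk] at hb
    refine ⟨k, ?_⟩
    rw [← map_pow, Ideal.Quotient.eq_zero_iff_mem]
    exact Ideal.pow_mem_pow (by rw [RingHom.mem_ker]; exact hb) k

private theorem art_unit {B : Type} [CommRing B] [Algebra ℂ B] {aug : B →ₐ[ℂ] ℂ} (h : Art B aug)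
    {b : B} (hb : aug b ≠ 0) : IsUnit b := by
  have h1 : IsNilpotent (b - algebraMap ℂ B (aug b)) := by
    refine h.nil _ ?_
    rw [map_sub, AlgHom.commutes]
    simp
  have h2 : IsUnit (algebraMap ℂ B (aug b)) := (isUnit_iff_ne_zero.mpr hb).map _
  have h3 := h1.isUnit_add_left_of_commute h2 (Commute.all _ _)
  simpa using h3

private theorem dom_step {N d : ℕ} (hd : 0 < d) {A0 : OF (N + 1)} (hA0 : A0 ∈ IntB (N + 1) d ℂ)
    (hg : Good (dd (res A0))) {G : PR (N + 1) d} (hG : pt d A0 G ≠ 0) {F : PR N d} {M : ℕ}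
    (hM : (resP N d F * G) ^ M ∈ IX (N + 1) d)
    {B : Type} [CommRing B] [Algebra ℂ B] {aug : B →ₐ[ℂ] ℂ} (hart : Art B aug)
    (ψ : PR N d →ₐ[ℂ] B) (hψ : ∀ p ∈ IX N d, ψ p = 0)
    (haug : ∀ p, aug (ψ p) = pt d (res A0) p) : (ψ F) ^ M = 0 := by
  have hres : res A0 ∈ IntB N d ℂ := res_IntB hA0
  have hAk := (uni_IntB_iff ψ).mpr hψ
  have hr : ∀ i, res A0 i = red aug (Fin N)
      (MvPolynomial.map (ψ : PR N d →+* B) (uni N d i)) := by
    intro i
    unfold red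
    rw [MvPolynomial.map_map]
    have hc : (aug : B →+* ℂ).comp (ψ : PR N d →+* B) = (pt d (res A0) : PR N d →+* ℂ) := by
      ext p
      · simp
      · exact haug _
    rw [hc]
    exact (uni_pt hres.1 i).symm
  obtain ⟨A', hA', hA'r, hA'0⟩ := lift_Int hd hart hAk hA0 hr hg
  have h1 : pt d A' ((resP N d F * G) ^ M) = 0 := pt_IX hA' hM
  have h2 : pt d A' (resP N d F) = ψ F := by
    rw [pt_resP hA'.1, hA'r, pt_uni]
  have h3 : IsUnit (pt d A' G) := by
    refine art_unit hart ?_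
    rw [← pt_map]
    have : (fun i => MvPolynomial.map (aug : B →+* ℂ) (A' i)) = A0 := by
      funext i
      exact hA'0 i
    rw [this]
    exact hG
  rw [map_pow, map_mul, mul_pow, h2] at h1
  exact ((h3.pow M).mul_left_eq_zero).mp h1

private theorem dom_key {N d : ℕ} (hd : 0 < d) {A0 : OF (N + 1)} (hA0 : A0 ∈ IntB (N + 1) d ℂ)
    (hg : Good (dd (res A0))) {G : PR (N + 1) d} (hG : pt d A0 G ≠ 0) {F : PR N d} {M : ℕ}
    (hM : (resP N d F * G) ^ M ∈ IX (N + 1) d)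
    {R : Type} [CommRing R] [Algebra ℂ R] [Algebra.FiniteType ℂ R] (ev : R →ₐ[ℂ] ℂ)
    (q : PR N d →ₐ[ℂ] R) (hq : ∀ p ∈ IX N d, q p = 0)
    (hev : ∀ p, ev (q p) = pt d (res A0) p) (k : ℕ) :
    (q F) ^ M ∈ (RingHom.ker (ev : R →+* ℂ)) ^ k := by
  rcases Nat.eq_zero_or_pos k with hk | hk
  · subst hk
    simp
  have hJ : ∀ b ∈ (RingHom.ker (ev : R →+* ℂ)) ^ k, ev b = 0 := by
    intro b hb
    have := Ideal.pow_le_self hk.ne' hb
    rw [RingHom.mem_ker] at this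
    exact this
  have h := dom_step hd hA0 hg hG hM (art_pow ev k hk hJ)
    ((Ideal.Quotient.mkₐ ℂ ((RingHom.ker (ev : R →+* ℂ)) ^ k)).comp q) (by
      intro p hp
      rw [AlgHom.comp_apply, hq p hp, map_zero]) (by
      intro p
      rw [AlgHom.comp_apply, Ideal.Quotient.mkₐ_eq_mk, qaug_mk]
      exact hev p)
  rw [AlgHom.comp_apply, ← map_pow, Ideal.Quotient.mkₐ_eq_mk] at h
  exact Ideal.Quotient.eq_zero_iff_mem.mp h

theorem dom {N d : ℕ} (hd : 0 < d) {A0 : OF (N + 1)} (hA0 : A0 ∈ IntS (N + 1) d)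
    (hg : Good (dd (res A0))) {G : PR (N + 1) d} (hG : pt d A0 G ≠ 0) {F : PR N d}
    (hF : ∀ A' ∈ IntS (N + 1) d, pt d A' G ≠ 0 → pt d (res A') F = 0) :
    ∃ U : PR N d, pt d (res A0) U ≠ 0 ∧ ∀ A ∈ IntS N d, pt d A U ≠ 0 → pt d A F = 0 := by
  have hA0' : A0 ∈ IntB (N + 1) d ℂ := by rw [IntB_eq]; exact hA0
  have hres : res A0 ∈ IntB N d ℂ := res_IntB hA0'
  have hnoe : IsNoetherianRing (PR N d ⧸ IX N d) := inferInstance
  obtain ⟨M, hM⟩ := null (N := N + 1) (d := d) (F := resP N d F * G) (by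
    intro A' hA'
    have hA'B : A' ∈ IntB (N + 1) d ℂ := by rw [IntB_eq]; exact hA'
    rw [map_mul, pt_resP hA'B.1]
    by_cases hz : pt d A' G = 0
    · rw [hz, mul_zero]
    · rw [hF A' hA' hz, zero_mul])
  have hft : Algebra.FiniteType ℂ (PR N d ⧸ IX N d) :=
    Algebra.FiniteType.of_surjective (Ideal.Quotient.mkₐ ℂ _) (Ideal.Quotient.mkₐ_surjective ℂ _)
  obtain ⟨ev, hev⟩ : ∃ ev : (PR N d ⧸ IX N d) →ₐ[ℂ] ℂ,
      ∀ p, ev (Ideal.Quotient.mkₐ ℂ (IX N d) p) = pt d (res A0) p :=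
    ⟨Ideal.Quotient.liftₐ (IX N d) (pt d (res A0)) (fun p hp => pt_IX hres hp), fun p => rfl⟩
  have key := dom_key hd hA0' hg hG hM ev (Ideal.Quotient.mkₐ ℂ (IX N d)) (by
    intro p hp
    rw [Ideal.Quotient.mkₐ_eq_mk]
    exact Ideal.Quotient.eq_zero_iff_mem.mpr hp) hev
  obtain ⟨a, ha, hax⟩ := krull_one _ _ key
  obtain ⟨U, hU⟩ := Ideal.Quotient.mkₐ_surjective ℂ (IX N d) (1 - a)
  refine ⟨U, ?_, ?_⟩
  · rw [← hev, hU, map_sub, map_one]
    rw [RingHom.mem_ker] at ha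
    have ha' : ev a = 0 := ha
    rw [ha', sub_zero]
    exact one_ne_zero
  · intro A hA hAU
    have hAB : A ∈ IntB N d ℂ := by rw [IntB_eq]; exact hA
    have h7 : U * F ^ M ∈ IX N d := by
      rw [← Ideal.Quotient.eq_zero_iff_mem, ← Ideal.Quotient.mkₐ_eq_mk ℂ, map_mul, map_pow, hU]
      exact hax
    have h8 := pt_IX hAB h7
    rw [map_mul, map_pow] at h8
    by_contra hne
    exact (mul_ne_zero hAU (pow_ne_zero M hne)) h8

end Pool.Agent.Helper71.FL
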