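import Pool.Agent.Helper71.FL.ArtL
import Pool.Agent.Helper71.FL.Int0

/-! FL-6: reduction modulo `x_0^(m+1)` as polynomials in `x_1..x_N` over `B[z]/(z^(m+1))`.
Hint: `tau` factors through `MvPolynomial (Fin N) (Polynomial B)` (isomorphic to `MvPolynomial (Fin (N+1)) B`);
work with coefficients: the coefficient of `tau p` at `ν` is the class of `∑_k (coeff (cons k ν) p) z^k`. -/

set_option autoImplicit false

namespace Pool.Agent.Helper71.FL

open MvPolynomial

/-- reduction modulo `x_0^(m+1)` -/
noncomputable def tau (N : ℕ) (B : Type) [CommRing B] (m : ℕ) :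
    MvPolynomial (Fin (N + 1)) B →+* MvPolynomial (Fin N) (Tr B m) :=
  eval₂Hom ((C : Tr B m →+* MvPolynomial (Fin N) (Tr B m)).comp
      ((Ideal.Quotient.mk (Ideal.span {(Polynomial.X : Polynomial B) ^ (m + 1)})).comp
        (Polynomial.C : B →+* Polynomial B)))
    (Fin.cons (C (Ideal.Quotient.mk _ (Polynomial.X : Polynomial B))) (fun i => X i))

/-- the ideal `J z^m` of `B[z]/(z^(m+1))` -/
noncomputable def Jz {B : Type} [CommRing B] (J : Ideal B) (m : ℕ) : Ideal (Tr B m) :=
  Ideal.map ((Ideal.Quotient.mk (Ideal.span {(Polynomial.X : Polynomial B) ^ (m + 1)})).comp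
      (Polynomial.C : B →+* Polynomial B)) J *
    Ideal.span {Ideal.Quotient.mk _ ((Polynomial.X : Polynomial B) ^ m)}

section
variable {N : ℕ} {B : Type} [CommRing B]

private theorem tau_C (m : ℕ) (b : B) : tau N B m (C b) =
    C (Ideal.Quotient.mk (Ideal.span {(Polynomial.X : Polynomial B) ^ (m + 1)})
      (Polynomial.C b)) := by
  simp [tau]

private theorem tau_X0 (m : ℕ) : tau N B m (X 0) =
    C (Ideal.Quotient.mk (Ideal.span {(Polynomial.X : Polynomial B) ^ (m + 1)})
      (Polynomial.X : Polynomial B)) := by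
  simp [tau]

private theorem tau_Xs (m : ℕ) (i : Fin N) : tau N B m (X i.succ) = X i := by
  simp [tau]

/-- the polynomial of the coefficients over `ν` -/
private noncomputable def cf (p : MvPolynomial (Fin (N + 1)) B) (ν : Fin N →₀ ℕ) : Polynomial B :=
  ∑ k ∈ (finSuccEquiv B N p).support, Polynomial.monomial k (coeff (Finsupp.cons k ν) p)

private theorem cf_coeff (p : MvPolynomial (Fin (N + 1)) B) (ν : Fin N →₀ ℕ) (k : ℕ) :
    (cf p ν).coeff k = coeff (Finsupp.cons k ν) p := by
  classical
  unfold cf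
  rw [Polynomial.finsetSum_coeff]
  simp only [Polynomial.coeff_monomial]
  rw [Finset.sum_ite_eq' (finSuccEquiv B N p).support k]
  split_ifs with h
  · rfl
  · rw [Polynomial.notMem_support_iff] at h
    rw [← finSuccEquiv_coeff_coeff, h, coeff_zero]

private theorem cf_add (p q : MvPolynomial (Fin (N + 1)) B) (ν : Fin N →₀ ℕ) :
    cf (p + q) ν = cf p ν + cf q ν := by
  ext k
  rw [Polynomial.coeff_add, cf_coeff, cf_coeff, cf_coeff, coeff_add]

private theorem tau_monomial (m : ℕ) (μ : Fin (N + 1) →₀ ℕ) (b : B) :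
    tau N B m (monomial μ b) = monomial μ.tail
      (Ideal.Quotient.mk (Ideal.span {(Polynomial.X : Polynomial B) ^ (m + 1)})
        (Polynomial.monomial (μ 0) b)) := by
  have h1 : (monomial μ b : MvPolynomial (Fin (N + 1)) B) =
      C b * (X 0 ^ (μ 0) * ∏ i : Fin N, X i.succ ^ (μ i.succ)) := by
    rw [monomial_eq, Finsupp.prod_fintype _ _ (fun i => pow_zero _), Fin.prod_univ_succ]
  rw [h1, map_mul, map_mul, map_pow, map_prod, tau_C, tau_X0]
  have h2 : ∏ i : Fin N, tau N B m (X i.succ ^ (μ i.succ)) =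
      ∏ i : Fin N, (X i : MvPolynomial (Fin N) (Tr B m)) ^ (μ.tail i) := by
    apply Finset.prod_congr rfl
    intro i _
    rw [map_pow, tau_Xs, Finsupp.tail_apply]
  rw [h2, ← mul_assoc, ← map_pow C, ← map_mul C, ← map_pow, ← map_mul,
    Polynomial.C_mul_X_pow_eq_monomial, monomial_eq (s := μ.tail),
    Finsupp.prod_fintype _ _ (fun i => pow_zero _)]

private theorem coeff_tau (m : ℕ) (p : MvPolynomial (Fin (N + 1)) B) (ν : Fin N →₀ ℕ) :
    coeff ν (tau N B m p) = Ideal.Quotient.mk
      (Ideal.span {(Polynomial.X : Polynomial B) ^ (m + 1)}) (cf p ν) := by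
  classical
  induction p using MvPolynomial.induction_on' with
  | monomial μ b =>
    rw [tau_monomial, coeff_monomial]
    have h : cf (monomial μ b) ν = if μ.tail = ν then Polynomial.monomial (μ 0) b else 0 := by
      ext k
      rw [cf_coeff, coeff_monomial]
      by_cases h1 : μ.tail = ν
      · rw [if_pos h1, Polynomial.coeff_monomial]
        by_cases h2 : μ 0 = k
        · rw [if_pos h2, if_pos]
          rw [← h1, ← h2, Finsupp.cons_tail]
        · rw [if_neg h2, if_neg]
          intro h3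
          apply h2
          rw [h3, Finsupp.cons_zero]
      · rw [if_neg h1, Polynomial.coeff_zero, if_neg]
        intro h3
        apply h1
        rw [h3, Finsupp.tail_cons]
    rw [h]
    split_ifs
    · rfl
    · rw [map_zero]
  | add p q hp hq =>
    rw [map_add, coeff_add, hp, hq, cf_add, map_add]

private theorem X0_pow_dvd_iff (n : ℕ) (p : MvPolynomial (Fin (N + 1)) B) :
    X 0 ^ n ∣ p ↔ ∀ k < n, ∀ ν : Fin N →₀ ℕ, coeff (Finsupp.cons k ν) p = 0 := by
  have h1 : X 0 ^ n ∣ p ↔ (Polynomial.X : Polynomial (MvPolynomial (Fin N) B)) ^ n ∣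
      finSuccEquiv B N p := by
    rw [← map_dvd_iff (finSuccEquiv B N), map_pow, finSuccEquiv_X_zero]
  rw [h1, Polynomial.X_pow_dvd_iff]
  constructor
  · intro h k hk ν
    rw [← finSuccEquiv_coeff_coeff, h k hk, coeff_zero]
  · intro h k hk
    ext ν
    rw [finSuccEquiv_coeff_coeff, h k hk ν, coeff_zero]

theorem tau_eq_zero_iff (m : ℕ) (p : MvPolynomial (Fin (N + 1)) B) :
    tau N B m p = 0 ↔ X 0 ^ (m + 1) ∣ p := by
  rw [X0_pow_dvd_iff]
  constructor
  · intro h k hk ν
    have h1 := coeff_tau m p ν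
    rw [h, coeff_zero, eq_comm, Ideal.Quotient.eq_zero_iff_mem, Ideal.mem_span_singleton,
      Polynomial.X_pow_dvd_iff] at h1
    rw [← cf_coeff]
    exact h1 k hk
  · intro h
    ext ν
    rw [coeff_tau, coeff_zero, Ideal.Quotient.eq_zero_iff_mem, Ideal.mem_span_singleton,
      Polynomial.X_pow_dvd_iff]
    intro k hk
    rw [cf_coeff]
    exact h k hk ν

/-- the reduction of `tau p` modulo the maximal ideal only sees `x_0 = 0` -/
theorem red_tau [Algebra ℂ B] (aug : B →ₐ[ℂ] ℂ) (m : ℕ) (p : MvPolynomial (Fin (N + 1)) B) :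
    red (traug aug m) (Fin N) (tau N B m p) = red aug (Fin N) (at0 N B p) := by
  have h : (red (traug aug m) (Fin N)).comp (tau N B m) =
      (red aug (Fin N)).comp (at0 N B : MvPolynomial (Fin (N + 1)) B →+* MvPolynomial (Fin N) B) := by
    apply MvPolynomial.ringHom_ext
    · intro b
      rw [RingHom.comp_apply, tau_C, RingHom.comp_apply]
      have h1 : ((at0 N B : MvPolynomial (Fin (N + 1)) B →+* MvPolynomial (Fin N) B)) (C b) = C b := by
        show at0 N B (C b) = C b
        unfold at0
        rw [aeval_C]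
        rfl
      rw [h1]
      unfold red
      rw [map_C, map_C]
      congr 1
      show traug aug m (Ideal.Quotient.mk _ (Polynomial.C b)) = aug b
      rw [traug_mk, Polynomial.coeff_C_zero]
    · intro i
      refine Fin.cases ?_ (fun j => ?_) i
      · rw [RingHom.comp_apply, tau_X0, RingHom.comp_apply]
        have h1 : ((at0 N B : MvPolynomial (Fin (N + 1)) B →+* MvPolynomial (Fin N) B)) (X 0) = 0 := by
          show at0 N B (X 0) = 0
          unfold at0
          rw [aeval_X]
          rfl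
        rw [h1, map_zero]
        unfold red
        rw [map_C]
        have h2 : (traug aug m : Tr B m →+* ℂ) (Ideal.Quotient.mk _ (Polynomial.X : Polynomial B)) = 0 := by
          show traug aug m (Ideal.Quotient.mk _ (Polynomial.X : Polynomial B)) = 0
          rw [traug_mk, Polynomial.coeff_X_zero, map_zero]
        rw [h2, map_zero]
      · rw [RingHom.comp_apply, tau_Xs, RingHom.comp_apply]
        have h1 : ((at0 N B : MvPolynomial (Fin (N + 1)) B →+* MvPolynomial (Fin N) B)) (X j.succ)
            = X j := by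
          show at0 N B (X j.succ) = X j
          unfold at0
          rw [aeval_X]
          rfl
        rw [h1]
        unfold red
        rw [map_X, map_X]
  exact congrFun (congrArg DFunLike.coe h) p

private theorem tau_comp_C (m : ℕ) : (tau N B m).comp (C : B →+* MvPolynomial (Fin (N + 1)) B) =
    (C : Tr B m →+* MvPolynomial (Fin N) (Tr B m)).comp
      ((Ideal.Quotient.mk (Ideal.span {(Polynomial.X : Polynomial B) ^ (m + 1)})).comp
        (Polynomial.C : B →+* Polynomial B)) := by
  apply RingHom.ext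
  intro b
  rw [RingHom.comp_apply, tau_C]
  rfl

theorem tau_mem_Jz (m : ℕ) (J : Ideal B) {p q : MvPolynomial (Fin (N + 1)) B}
    (hq : q ∈ J.map (C : B →+* MvPolynomial (Fin (N + 1)) B))
    (h : X 0 ^ (m + 1) ∣ p - X 0 ^ m * q) :
    tau N B m p ∈ (Jz J m).map (C : Tr B m →+* MvPolynomial (Fin N) (Tr B m)) := by
  have h1 : tau N B m p = tau N B m q * C (Ideal.Quotient.mk
      (Ideal.span {(Polynomial.X : Polynomial B) ^ (m + 1)}) ((Polynomial.X : Polynomial B) ^ m)) := by
    have h2 := (tau_eq_zero_iff m (p - X 0 ^ m * q)).mpr h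
    rw [map_sub, sub_eq_zero, map_mul, map_pow, tau_X0] at h2
    rw [h2, mul_comm, map_pow, map_pow]
  rw [h1]
  unfold Jz
  rw [Ideal.map_mul]
  apply Ideal.mul_mem_mul
  · have h3 := Ideal.mem_map_of_mem (tau N B m) hq
    rw [Ideal.map_map, tau_comp_C, ← Ideal.map_map] at h3
    exact h3
  · exact Ideal.mem_map_of_mem _ (Ideal.mem_span_singleton_self _)

private theorem mem_Jz_exists (m : ℕ) (J : Ideal B) {z : Tr B m} (hz : z ∈ Jz J m) :
    ∃ j ∈ J, z = Ideal.Quotient.mk (Ideal.span {(Polynomial.X : Polynomial B) ^ (m + 1)})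
      (Polynomial.C j * (Polynomial.X : Polynomial B) ^ m) := by
  unfold Jz at hz
  rw [Ideal.mem_mul_span_singleton] at hz
  obtain ⟨w, hw, rfl⟩ := hz
  have key : ∀ w ∈ Ideal.map ((Ideal.Quotient.mk (Ideal.span
      {(Polynomial.X : Polynomial B) ^ (m + 1)})).comp (Polynomial.C : B →+* Polynomial B)) J,
      ∃ j ∈ J, w * Ideal.Quotient.mk _ ((Polynomial.X : Polynomial B) ^ m) =
        Ideal.Quotient.mk (Ideal.span {(Polynomial.X : Polynomial B) ^ (m + 1)})
          (Polynomial.C j * (Polynomial.X : Polynomial B) ^ m) := by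
    intro w hw
    refine Submodule.span_induction (p := fun w _ => ∃ j ∈ J,
      w * Ideal.Quotient.mk _ ((Polynomial.X : Polynomial B) ^ m) =
        Ideal.Quotient.mk (Ideal.span {(Polynomial.X : Polynomial B) ^ (m + 1)})
          (Polynomial.C j * (Polynomial.X : Polynomial B) ^ m)) ?_ ?_ ?_ ?_ hw
    · rintro x ⟨j, hj, rfl⟩
      exact ⟨j, hj, by rw [RingHom.comp_apply, ← map_mul]⟩
    · exact ⟨0, J.zero_mem, by rw [zero_mul, map_zero, zero_mul, map_zero]⟩
    · rintro x y _ _ ⟨j, hj, h1⟩ ⟨k, hk, h2⟩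
      exact ⟨j + k, J.add_mem hj hk, by
        rw [add_mul, h1, h2, Polynomial.C_add, add_mul, map_add]⟩
    · rintro a x _ ⟨j, hj, h1⟩
      obtain ⟨f, rfl⟩ := Ideal.Quotient.mk_surjective a
      refine ⟨f.coeff 0 * j, J.mul_mem_left _ hj, ?_⟩
      rw [smul_eq_mul, mul_assoc, h1, ← map_mul, Ideal.Quotient.eq, Ideal.mem_span_singleton]
      refine ⟨f.divX * Polynomial.C j, ?_⟩
      nth_rewrite 1 [← Polynomial.divX_mul_X_add f]
      rw [map_mul]
      ring
  exact key w hw

private theorem tau_emb (m : ℕ) (q : MvPolynomial (Fin N) B) : tau N B m (emb N B q) =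
    MvPolynomial.map ((Ideal.Quotient.mk (Ideal.span {(Polynomial.X : Polynomial B) ^ (m + 1)})).comp
        (Polynomial.C : B →+* Polynomial B)) q := by
  induction q using MvPolynomial.induction_on with
  | C b =>
    have h1 : emb N B (C b) = C b := by
      unfold emb
      rw [rename_C]
    rw [h1, tau_C, map_C]
    rfl
  | add p q hp hq => rw [map_add, map_add, map_add, hp, hq]
  | mul_X p i hp =>
    have h1 : emb N B (X i) = X i.succ := by
      unfold emb
      rw [rename_X]
    rw [map_mul, map_mul, map_mul, hp, h1, tau_Xs, map_X]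

theorem exists_of_mem_Jz (m : ℕ) (J : Ideal B) {y : MvPolynomial (Fin N) (Tr B m)}
    (hy : y ∈ (Jz J m).map (C : Tr B m →+* MvPolynomial (Fin N) (Tr B m))) :
    ∃ q : MvPolynomial (Fin N) B, q ∈ J.map (C : B →+* MvPolynomial (Fin N) B) ∧
      y = tau N B m (X 0 ^ m * emb N B q) := by
  classical
  rw [mem_map_C_iff] at hy
  choose j hj hjy using fun ν => mem_Jz_exists m J (hy ν)
  have hc : ∀ ν, coeff ν (∑ ν ∈ y.support, monomial ν (j ν)) = if ν ∈ y.support then j ν else 0 := by
    intro ν
    rw [coeff_sum]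
    simp only [coeff_monomial]
    rw [Finset.sum_ite_eq']
  refine ⟨∑ ν ∈ y.support, monomial ν (j ν), ?_, ?_⟩
  · rw [mem_map_C_iff]
    intro ν
    rw [hc]
    split_ifs
    · exact hj ν
    · exact J.zero_mem
  · ext ν
    rw [map_mul, map_pow, tau_X0, tau_emb, ← map_pow C, coeff_C_mul, coeff_map, hc]
    split_ifs with h
    · rw [hjy ν, ← map_pow, RingHom.comp_apply, ← map_mul, mul_comm]
    · rw [map_zero, mul_zero]
      exact notMem_support_iff.mp h

end

end Pool.Agent.Helper71.FL
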