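import Pool.Agent.Helper71.FL.Int0

/-! FL-5: the 2-form `θ(z) = θ0 + ∫ dξ`. -/

set_option autoImplicit false

namespace Pool.Agent.Helper71.FL

open MvPolynomial

section
variable {N : ℕ} {B : Type} [CommRing B] [Algebra ℂ B]

/-- `θ(z)` with `z = x_0` -/
noncomputable def Th (θ0 : Fin N → Fin N → MvPolynomial (Fin N) B)
    (ξ : Fin N → MvPolynomial (Fin (N + 1)) B) (i j : Fin N) : MvPolynomial (Fin (N + 1)) B :=
  emb N B (θ0 i j) + int0 N B (pderiv i.succ (ξ j) - pderiv j.succ (ξ i))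

/-- `ξ` solves the extension equation modulo `z^m` -/
def Sol (m : ℕ) (θ0 : Fin N → Fin N → MvPolynomial (Fin N) B)
    (ξ : Fin N → MvPolynomial (Fin (N + 1)) B) : Prop :=
  ∀ i j k, X 0 ^ m ∣ w12 ξ (Th θ0 ξ) i j k

theorem at0_Th (θ0 : Fin N → Fin N → MvPolynomial (Fin N) B)
    (ξ : Fin N → MvPolynomial (Fin (N + 1)) B) (i j : Fin N) : at0 N B (Th θ0 ξ i j) = θ0 i j := by
  unfold Th
  rw [map_add, at0_emb, at0_int0, add_zero]

theorem Th_alt {θ0 : Fin N → Fin N → MvPolynomial (Fin N) B} (h : Dec θ0)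
    (ξ : Fin N → MvPolynomial (Fin (N + 1)) B) :
    (∀ i, Th θ0 ξ i i = 0) ∧ ∀ i j, Th θ0 ξ i j = - Th θ0 ξ j i := by
  refine ⟨?_, ?_⟩
  · intro i
    unfold Th
    rw [h.1 i, sub_self, map_zero, map_zero, add_zero]
  · intro i j
    unfold Th
    have e1 : (pderiv i.succ (ξ j) - pderiv j.succ (ξ i)) = -(pderiv j.succ (ξ i) - pderiv i.succ (ξ j)) := by
      ring
    rw [h.2.1 i j, e1, map_neg, map_neg]
    ring

theorem Th_hom {e : ℕ} {θ0 : Fin N → Fin N → MvPolynomial (Fin N) B}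
    (h : ∀ i j, (θ0 i j).IsHomogeneous e) {ξ : Fin N → MvPolynomial (Fin (N + 1)) B}
    (hξ : ∀ j, (ξ j).IsHomogeneous e) (he : 0 < e) (i j : Fin N) : (Th θ0 ξ i j).IsHomogeneous e := by
  unfold Th
  refine IsHomogeneous.add ?_ ?_
  · exact (h i j).rename_isHomogeneous
  · have h1 : (pderiv i.succ (ξ j) - pderiv j.succ (ξ i)).IsHomogeneous (e - 1) :=
      ((hξ j).pderiv).sub ((hξ i).pderiv)
    have h2 := int0_hom h1
    rwa [Nat.sub_add_cancel he] at h2

theorem Th_map {B' : Type} [CommRing B'] [Algebra ℂ B'] (φ : B →ₐ[ℂ] B')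
    (θ0 : Fin N → Fin N → MvPolynomial (Fin N) B) (ξ : Fin N → MvPolynomial (Fin (N + 1)) B)
    (i j : Fin N) : MvPolynomial.map (φ : B →+* B') (Th θ0 ξ i j) =
      Th (fun i j => MvPolynomial.map (φ : B →+* B') (θ0 i j))
        (fun j => MvPolynomial.map (φ : B →+* B') (ξ j)) i j := by
  unfold Th
  rw [map_add, emb_map, int0_map, map_sub, ← pderiv_map, ← pderiv_map]

private theorem h86_comm {σ : Type} {R : Type} [CommRing R] (i j : σ) (p : MvPolynomial σ R) :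
    pderiv i (pderiv j p) = pderiv j (pderiv i p) := by
  classical
  have h : ⁅(pderiv i : Derivation R (MvPolynomial σ R) (MvPolynomial σ R)),
      (pderiv j : Derivation R (MvPolynomial σ R) (MvPolynomial σ R))⁆ = 0 := by
    apply MvPolynomial.derivation_ext
    intro k
    rw [Derivation.commutator_apply, pderiv_X, pderiv_X, Derivation.zero_apply]
    rcases eq_or_ne j k with h1 | h1 <;> rcases eq_or_ne i k with h2 | h2 <;>
      simp [Pi.single_apply, h1, h2]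
  have h2 := congrArg (fun D => D p) h
  simp only [Derivation.commutator_apply, Derivation.zero_apply] at h2
  exact sub_eq_zero.mp h2

theorem Th_closed {θ0 : Fin N → Fin N → MvPolynomial (Fin N) B} (h : Closed θ0)
    (ξ : Fin N → MvPolynomial (Fin (N + 1)) B) (i j k : Fin N) :
    pderiv i.succ (Th θ0 ξ j k) + pderiv j.succ (Th θ0 ξ k i) + pderiv k.succ (Th θ0 ξ i j) = 0 := by
  unfold Th
  have h0 := congrArg (emb N B) (h i j k)
  rw [map_add, map_add, map_zero] at h0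
  simp only [map_add, pderiv_succ_emb, pderiv_succ_int0]
  have h1 : int0 N B (pderiv i.succ (pderiv j.succ (ξ k) - pderiv k.succ (ξ j)))
      + int0 N B (pderiv j.succ (pderiv k.succ (ξ i) - pderiv i.succ (ξ k)))
      + int0 N B (pderiv k.succ (pderiv i.succ (ξ j) - pderiv j.succ (ξ i))) = 0 := by
    rw [← map_add, ← map_add]
    have h2 : pderiv i.succ (pderiv j.succ (ξ k) - pderiv k.succ (ξ j))
      + pderiv j.succ (pderiv k.succ (ξ i) - pderiv i.succ (ξ k))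
      + pderiv k.succ (pderiv i.succ (ξ j) - pderiv j.succ (ξ i)) = 0 := by
      simp only [map_sub]
      rw [h86_comm i.succ j.succ (ξ k), h86_comm i.succ k.succ (ξ j), h86_comm j.succ k.succ (ξ i)]
      ring
    rw [h2, map_zero]
  linear_combination h0 + h1

theorem Th_congr {m : ℕ} (θ0 : Fin N → Fin N → MvPolynomial (Fin N) B)
    {ξ ξ' : Fin N → MvPolynomial (Fin (N + 1)) B} (h : ∀ j, X 0 ^ m ∣ ξ' j - ξ j) (i j : Fin N) :
    X 0 ^ (m + 1) ∣ Th θ0 ξ' i j - Th θ0 ξ i j := by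
  have h1 : Th θ0 ξ' i j - Th θ0 ξ i j =
      int0 N B (pderiv i.succ (ξ' j - ξ j) - pderiv j.succ (ξ' i - ξ i)) := by
    unfold Th
    simp only [map_sub]
    ring
  rw [h1]
  exact int0_dvd (dvd_sub (pderiv_succ_dvd _ (h j)) (pderiv_succ_dvd _ (h i)))

/-- the derivative of `pf θ(z)` with respect to `z` is the exterior derivative of `ξ ∧ θ(z)` -/
theorem pderiv0_pf {θ0 : Fin N → Fin N → MvPolynomial (Fin N) B} (hc : Closed θ0) (hd : Dec θ0)
    (ξ : Fin N → MvPolynomial (Fin (N + 1)) B) (i j k l : Fin N) :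
    pderiv 0 (pf (Th θ0 ξ) i j k l) =
      pderiv i.succ (w12 ξ (Th θ0 ξ) j k l) - pderiv j.succ (w12 ξ (Th θ0 ξ) i k l)
      + pderiv k.succ (w12 ξ (Th θ0 ξ) i j l) - pderiv l.succ (w12 ξ (Th θ0 ξ) i j k) := by
  have hT : ∀ a b : Fin N, pderiv 0 (Th θ0 ξ a b) = pderiv a.succ (ξ b) - pderiv b.succ (ξ a) := by
    intro a b
    unfold Th
    rw [map_add, pderiv0_emb, pderiv_int0, zero_add]
  have hA := (Th_alt hd ξ).2
  have hC := Th_closed hc ξ
  unfold pf w12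
  simp only [map_add, map_sub, pderiv_mul, hT]
  have a1 := hA l j
  have a2 := hA l i
  have a3 := hA k i
  have a4 := hA k j
  have a5 := hA j i
  have a6 := hA l k
  have c1 := hC j k l
  have c2 := hC i k l
  have c3 := hC i j l
  have c4 := hC i j k
  simp only [a1, a2, a3, map_neg] at c1 c2 c3 c4 ⊢
  linear_combination (ξ i) * c1 - (ξ j) * c2 + (ξ k) * c3 - (ξ l) * c4

private theorem h86_at0_pf {N : ℕ} {B : Type} [CommRing B] [Algebra ℂ B]
    {θ0 : Fin N → Fin N → MvPolynomial (Fin N) B} (hd : Dec θ0)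
    (ξ : Fin N → MvPolynomial (Fin (N + 1)) B) (i j k l : Fin N) :
    at0 N B (pf (Th θ0 ξ) i j k l) = 0 := by
  have h1 := hd.2.2 i j k l
  unfold pf at h1 ⊢
  simp only [map_add, map_sub, map_mul, at0_Th]
  exact h1

theorem pf_Th_dvd {m : ℕ} {θ0 : Fin N → Fin N → MvPolynomial (Fin N) B} (hc : Closed θ0)
    (hd : Dec θ0) {ξ : Fin N → MvPolynomial (Fin (N + 1)) B} (hs : Sol m θ0 ξ) (i j k l : Fin N) :
    X 0 ^ (m + 1) ∣ pf (Th θ0 ξ) i j k l := by
  refine dvd_of_pderiv0 ?_ ?_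
  · rw [pderiv0_pf hc hd ξ i j k l]
    exact dvd_sub (dvd_add (dvd_sub (pderiv_succ_dvd _ (hs _ _ _)) (pderiv_succ_dvd _ (hs _ _ _)))
      (pderiv_succ_dvd _ (hs _ _ _))) (pderiv_succ_dvd _ (hs _ _ _))
  · exact h86_at0_pf hd ξ i j k l

theorem Th_dec {θ0 : Fin N → Fin N → MvPolynomial (Fin N) B} (hc : Closed θ0)
    (hd : Dec θ0) {ξ : Fin N → MvPolynomial (Fin (N + 1)) B}
    (hs : ∀ i j k, w12 ξ (Th θ0 ξ) i j k = 0) : Dec (Th θ0 ξ) := by
  refine ⟨(Th_alt hd ξ).1, (Th_alt hd ξ).2, ?_⟩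
  intro i j k l
  refine eq_zero_of_pderiv0 ?_ (h86_at0_pf hd ξ i j k l)
  rw [pderiv0_pf hc hd ξ i j k l, hs, hs, hs, hs]
  simp only [map_zero, sub_zero, add_zero]

end

end Pool.Agent.Helper71.FL
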