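import Pool.Agent.Helper71.FL.GP
import Pool.Agent.Helper71.FL.Tau
import Pool.Agent.Helper71.FL.Th

/-! FL-7: one step in the order of `z`.
Proof: apply `GP` with `Q = Tr B m` (`Tr.art`), the ideal `Jz J m`, `Θ = tau (Th θ0 ξ)` (decomposable by `Th_alt`,
`pf_Th_dvd`, `tau_eq_zero_iff`; reduction = `red θ0` by `red_tau`, `at0_Th`), `ξ := tau ξ` (`tau_mem_Jz`).  The difference
`ξ'' - tau ξ` is `tau (X 0 ^ m * emb q_j)` with `q_j ∈ J` (`exists_of_mem_Jz`).  Replace `q_j` by its homogeneous
component of degree `e - m` (zero if `e < m`): since `w12 ξ (Th θ0 ξ)` is homogeneous of degree `2 e` and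
`w12 (X 0 ^ m * emb q) (Th θ0 ξ)` is `X 0 ^ m * emb (w12 q θ0)` modulo `X 0 ^ (m+1)`, the equation modulo `X 0 ^ (m+1)` is
unchanged (compare homogeneous components of degree `2 e - m` in `x_1..x_N`).  `ξ' = ξ + X 0 ^ m * emb q`; `Th_congr` shows
`Th θ0 ξ' = Th θ0 ξ` modulo `X 0 ^ (m+1)`. -/

set_option autoImplicit false

namespace Pool.Agent.Helper71.FL

open MvPolynomial

private theorem hc_mul {σ R : Type} [CommRing R] (n k : ℕ) (a b : MvPolynomial σ R)
    (hb : b.IsHomogeneous k) :
    homogeneousComponent n (a * b) =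
      (if k ≤ n then homogeneousComponent (n - k) a * b else 0) := by
  classical
  conv_lhs => rw [← sum_homogeneousComponent a, Finset.sum_mul, map_sum]
  have h1 : ∀ i ∈ Finset.range (a.totalDegree + 1),
      homogeneousComponent n (homogeneousComponent i a * b) =
        if n = i + k then homogeneousComponent i a * b else 0 := by
    intro i _
    exact homogeneousComponent_of_mem
      ((homogeneousComponent_isHomogeneous i a).mul hb)
  rw [Finset.sum_congr rfl h1]
  by_cases hk : k ≤ n
  · rw [if_pos hk]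
    have h2 : ∀ i ∈ Finset.range (a.totalDegree + 1),
        (if n = i + k then homogeneousComponent i a * b else 0) =
          if i = n - k then homogeneousComponent (n - k) a * b else 0 := by
      intro i _
      by_cases h : i = n - k
      · subst h
        rw [if_pos rfl, if_pos (by omega)]
      · rw [if_neg h, if_neg (by omega)]
    rw [Finset.sum_congr rfl h2, Finset.sum_ite_eq']
    by_cases h3 : n - k ∈ Finset.range (a.totalDegree + 1)
    · rw [if_pos h3]
    · rw [if_neg h3]
      have h4 : a.totalDegree < n - k := by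
        rw [Finset.mem_range] at h3
        omega
      rw [homogeneousComponent_eq_zero _ _ h4, zero_mul]
  · rw [if_neg hk]
    apply Finset.sum_eq_zero
    intro i _
    rw [if_neg (by omega)]

private theorem hc_dvd {σ R : Type} [CommRing R] (s : σ) (m n : ℕ) (f : MvPolynomial σ R)
    (h : X s ^ m ∣ f) : X s ^ m ∣ homogeneousComponent n f := by
  obtain ⟨g, rfl⟩ := h
  rw [mul_comm, hc_mul n m g (X s ^ m) (isHomogeneous_X_pow s m)]
  split_ifs
  · exact Dvd.intro_left _ rfl
  · exact dvd_zero _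

theorem step {N : ℕ} {B : Type} [CommRing B] [Algebra ℂ B] {aug : B →ₐ[ℂ] ℂ} (h : Art B aug)
    (J : Ideal B) (m e : ℕ) (he : 0 < e) (θ0 : Fin N → Fin N → MvPolynomial (Fin N) B)
    (hc : Closed θ0) (hd : Dec θ0) (hθ : ∀ i j, (θ0 i j).IsHomogeneous e)
    (hg : Good (fun i j => red aug (Fin N) (θ0 i j)))
    (ξ : Fin N → MvPolynomial (Fin (N + 1)) B) (hξ : ∀ j, (ξ j).IsHomogeneous e)
    (hs : Sol m θ0 ξ)
    (hJ : ∀ i j k, ∃ q ∈ J.map (C : B →+* MvPolynomial (Fin (N + 1)) B),
      X 0 ^ (m + 1) ∣ w12 ξ (Th θ0 ξ) i j k - X 0 ^ m * q) :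
    ∃ q : Fin N → MvPolynomial (Fin N) B,
      (∀ j, q j ∈ J.map (C : B →+* MvPolynomial (Fin N) B)) ∧
      (∀ j, (ξ j + X 0 ^ m * emb N B (q j)).IsHomogeneous e) ∧
      Sol (m + 1) θ0 (fun j => ξ j + X 0 ^ m * emb N B (q j)) := by
  classical
  have hDec : Dec (fun i j => tau N B m (Th θ0 ξ i j)) := by
    refine ⟨?_, ?_, ?_⟩
    · intro i
      show tau N B m (Th θ0 ξ i i) = 0
      rw [(Th_alt hd ξ).1 i, map_zero]
    · intro i j
      show tau N B m (Th θ0 ξ i j) = - tau N B m (Th θ0 ξ j i)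
      rw [(Th_alt hd ξ).2 i j, map_neg]
    · intro i j k l
      rw [pf_map, tau_eq_zero_iff]
      exact pf_Th_dvd hc hd hs i j k l
  have hgood : Good (fun i j => red (traug aug m) (Fin N) (tau N B m (Th θ0 ξ i j))) := by
    have h1 : (fun i j => red (traug aug m) (Fin N) (tau N B m (Th θ0 ξ i j))) =
        (fun i j => red aug (Fin N) (θ0 i j)) := by
      funext i j
      rw [red_tau, at0_Th]
    rw [h1]
    exact hg
  obtain ⟨ξ1, h1, h2⟩ := GP (Tr.art h m) (Jz J m) (fun i j => tau N B m (Th θ0 ξ i j)) hDec hgood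
    (fun j => tau N B m (ξ j)) (by
      intro i j k
      rw [w12_map]
      obtain ⟨q, hq, hq2⟩ := hJ i j k
      exact tau_mem_Jz m J hq hq2)
  choose q hq1 hq2 using fun j => exists_of_mem_Jz m J (h1 j)
  have h3 : ∀ j, ξ1 j = tau N B m (ξ j + X 0 ^ m * emb N B (q j)) := by
    intro j
    rw [map_add, ← hq2 j]
    ring
  have h4 : ∀ i j k, X 0 ^ (m + 1) ∣
      w12 (fun l => ξ l + X 0 ^ m * emb N B (q l)) (Th θ0 ξ) i j k := by
    intro i j k
    rw [← tau_eq_zero_iff]
    have h5 : (fun l => tau N B m (ξ l + X 0 ^ m * emb N B (q l))) = ξ1 := by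
      funext l
      exact (h3 l).symm
    have h6 := w12_map (B := MvPolynomial (Fin N) (Tr B m)) (tau N B m)
      (fun l => ξ l + X 0 ^ m * emb N B (q l)) (Th θ0 ξ) i j k
    refine h6.symm.trans ?_
    show w12 (fun l => tau N B m (ξ l + X 0 ^ m * emb N B (q l)))
      (fun i j => tau N B m (Th θ0 ξ i j)) i j k = 0
    rw [h5]
    exact h2 i j k
  have hTh : ∀ i j, (Th θ0 ξ i j).IsHomogeneous e := fun i j => Th_hom hθ hξ he i j
  refine ⟨fun j => if m ≤ e then homogeneousComponent (e - m) (q j) else 0, ?_, ?_, ?_⟩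
  · intro j
    show (if m ≤ e then homogeneousComponent (e - m) (q j) else 0) ∈ _
    split_ifs with hme
    · rw [MvPolynomial.mem_map_C_iff]
      intro d
      rw [coeff_homogeneousComponent]
      split_ifs
      · exact (MvPolynomial.mem_map_C_iff.mp (hq1 j)) d
      · exact J.zero_mem
    · exact Ideal.zero_mem _
  · intro j
    show (ξ j + X 0 ^ m * emb N B (if m ≤ e then homogeneousComponent (e - m) (q j) else 0)).IsHomogeneous e
    refine (hξ j).add ?_
    split_ifs with hme
    · have h5 : (emb N B (homogeneousComponent (e - m) (q j))).IsHomogeneous (e - m) :=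
        (homogeneousComponent_isHomogeneous (e - m) (q j)).rename_isHomogeneous
      have h6 := (isHomogeneous_X_pow (R := B) (0 : Fin (N + 1)) m).mul h5
      rwa [Nat.add_sub_cancel' hme] at h6
    · rw [map_zero, mul_zero]
      exact isHomogeneous_zero _ _ _
  · intro i j k
    set q' : Fin N → MvPolynomial (Fin N) B :=
      fun j => if m ≤ e then homogeneousComponent (e - m) (q j) else 0 with hq'
    show X 0 ^ (m + 1) ∣ w12 (fun l => ξ l + X 0 ^ m * emb N B (q' l))
      (Th θ0 (fun l => ξ l + X 0 ^ m * emb N B (q' l))) i j k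
    -- each product
    have key : ∀ l a b, homogeneousComponent (e + e) ((ξ l + X 0 ^ m * emb N B (q l)) * Th θ0 ξ a b) =
        (ξ l + X 0 ^ m * emb N B (q' l)) * Th θ0 ξ a b := by
      intro l a b
      rw [hc_mul (e + e) e _ _ (hTh a b), if_pos (by omega), Nat.add_sub_cancel, map_add,
        homogeneousComponent_eq_self (hξ l), mul_comm (X 0 ^ m) (emb N B (q l)),
        hc_mul e m _ _ (isHomogeneous_X_pow (R := B) (0 : Fin (N + 1)) m)]
      congr 2
      rw [hq']
      show _ = X 0 ^ m * emb N B (if m ≤ e then homogeneousComponent (e - m) (q l) else 0)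
      split_ifs with hme
      · rw [mul_comm]
        congr 1
        exact (rename_homogeneousComponent (e - m) (q l)).symm
      · rw [map_zero, mul_zero]
    have h5 : X 0 ^ (m + 1) ∣ w12 (fun l => ξ l + X 0 ^ m * emb N B (q' l)) (Th θ0 ξ) i j k := by
      have h6 := hc_dvd (0 : Fin (N + 1)) (m + 1) (e + e) _ (h4 i j k)
      have h7 : homogeneousComponent (e + e)
          (w12 (fun l => ξ l + X 0 ^ m * emb N B (q l)) (Th θ0 ξ) i j k) =
          w12 (fun l => ξ l + X 0 ^ m * emb N B (q' l)) (Th θ0 ξ) i j k := by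
        unfold w12
        rw [map_add, map_add, key, key, key]
      rwa [h7] at h6
    have hcg : ∀ a b, X 0 ^ (m + 1) ∣
        Th θ0 (fun l => ξ l + X 0 ^ m * emb N B (q' l)) a b - Th θ0 ξ a b := by
      intro a b
      apply Th_congr
      intro l
      exact ⟨emb N B (q' l), by ring⟩
    have h8 : w12 (fun l => ξ l + X 0 ^ m * emb N B (q' l))
        (Th θ0 (fun l => ξ l + X 0 ^ m * emb N B (q' l))) i j k =
        w12 (fun l => ξ l + X 0 ^ m * emb N B (q' l)) (Th θ0 ξ) i j k +
        ((ξ i + X 0 ^ m * emb N B (q' i)) *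
            (Th θ0 (fun l => ξ l + X 0 ^ m * emb N B (q' l)) j k - Th θ0 ξ j k) +
          (ξ j + X 0 ^ m * emb N B (q' j)) *
            (Th θ0 (fun l => ξ l + X 0 ^ m * emb N B (q' l)) k i - Th θ0 ξ k i) +
          (ξ k + X 0 ^ m * emb N B (q' k)) *
            (Th θ0 (fun l => ξ l + X 0 ^ m * emb N B (q' l)) i j - Th θ0 ξ i j)) := by
      unfold w12
      ring
    rw [h8]
    exact dvd_add h5 (dvd_add (dvd_add (Dvd.dvd.mul_left (hcg j k) _) (Dvd.dvd.mul_left (hcg k i) _))
      (Dvd.dvd.mul_left (hcg i j) _))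

end Pool.Agent.Helper71.FL
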