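import Pool.Agent.Helper71.FL.KrullL

/-! FL-15: uniqueness of the component over a given one (argument of helper1).
Proof of `uniq`: `I' = {p : PR (N+1) d | p vanishes on S'}` is a prime ideal (`PreIrr`, `pt_mem_RE`, nonempty), contains
`IX (N+1) d` (`pt_IX`); `R' = PR (N+1) d ⧸ I'`, `m'` = kernel of the evaluation at `c1 = cone (res A0)`, `B = R' ⧸ m'^k`
(`art_pow`), `s'` = image of the universal form in `IntB (N+1) d B` (`uni_IntB_iff`), `res s'` reduces to `res A0`.  `lift_Int`
gives `A'` over `B` with `res A' = res s'`, reducing to `A0`; `path_Int` joins `s'` (τ = 0) and `A'` (τ = 1) by `P` over `B[τ]`.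
`(F * G)^M ∈ IX (N+1) d` by `null`, so `(pt P F)^M * (pt P G)^M = 0` in `B[τ]`; `pt P G` is a nonzerodivisor of `B[τ]`: its
reduction modulo the maximal ideal is a polynomial over `ℂ` whose value at `τ = 1` is `pt A0 G ≠ 0` (`nonzerodiv_of_red`).
So `(pt P F)^M = 0`, at `τ = 0`: `(pt s' F)^M = 0` in `R' ⧸ m'^k` for all `k`; Krull in the domain `R'`: `F^M = 0` in `R'`, `F ∈ I'`. -/

set_option autoImplicit false

namespace Pool.Agent.Helper71.FL

open MvPolynomial
open Pool.Agent.Helper93 (TT OF RE HomS IntS FolS Cop Comp PreIrr pb prj)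

/-- the cone over a form: constant in `x_0` -/
noncomputable def cone {N : ℕ} (A : OF N) : OF (N + 1) :=
  Fin.cons 0 (fun i => emb N ℂ (A i))

theorem res_cone {N : ℕ} (A : OF N) : res (cone A) = A := by
  funext i
  show at0 N ℂ ((Fin.cons 0 (fun i => emb N ℂ (A i)) : OF (N + 1)) i.succ) = A i
  rw [Fin.cons_succ, at0_emb]

theorem nonzerodiv_of_red {B : Type} [CommRing B] [Algebra ℂ B] {aug : B →ₐ[ℂ] ℂ} (h : Art B aug)
    (g : Polynomial B) (hg : Polynomial.map (aug : B →+* ℂ) g ≠ 0) (f : Polynomial B)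
    (hfg : f * g = 0) : f = 0 := by
  have hmem : g ∈ nonZeroDivisors (Polynomial B) := by
    rw [Polynomial.mem_nonZeroDivisors_iff]
    intro a ha
    obtain ⟨n, hn⟩ : ∃ n, (Polynomial.map (aug : B →+* ℂ) g).coeff n ≠ 0 := by
      by_contra hcon
      push Not at hcon
      exact hg (Polynomial.ext (fun n => by rw [hcon n, Polynomial.coeff_zero]))
    rw [Polynomial.coeff_map] at hn
    have hn' : aug (g.coeff n) ≠ 0 := hn
    have h1 : a * g.coeff n = 0 := by
      have := congrArg (fun p => Polynomial.coeff p n) ha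
      simpa using this
    have hu : IsUnit (algebraMap ℂ B (aug (g.coeff n))) :=
      (isUnit_iff_ne_zero.mpr hn').map (algebraMap ℂ B)
    have hnil : IsNilpotent (g.coeff n - algebraMap ℂ B (aug (g.coeff n))) := by
      apply h.nil
      rw [map_sub, AlgHom.commutes]
      simp
    have hunit : IsUnit (g.coeff n) := by
      have := hnil.isUnit_add_left_of_commute hu (Commute.all _ _)
      simpa using this
    exact (hunit.mul_left_eq_zero).mp h1
  exact (mem_nonZeroDivisors_iff_right.mp hmem) f hfg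

section uniq_aux
variable {N d : ℕ}

private noncomputable def van (d : ℕ) {M : ℕ} (S : Set (OF M)) : Ideal (PR M d) where
  carrier := {p | ∀ A ∈ S, pt d A p = 0}
  add_mem' := by
    intro a b ha hb A hA
    rw [map_add, ha A hA, hb A hA, add_zero]
  zero_mem' := by
    intro A _
    exact map_zero _
  smul_mem' := by
    intro c x hx A hA
    rw [smul_eq_mul, map_mul, hx A hA, mul_zero]

private theorem van_prime {M : ℕ} {S : Set (OF M)}
    (hS2 : PreIrr (RE M : Set (OF M → ℂ)) S) {c : OF M} (hc : c ∈ S) : (van d S).IsPrime := by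
  rw [Ideal.isPrime_iff]
  constructor
  · intro h1
    have h2 : (1 : PR M d) ∈ van d S := by rw [h1]; trivial
    have h3 := h2 c hc
    rw [map_one] at h3
    exact one_ne_zero h3
  · intro x y hxy
    rcases hS2 (fun A => pt d A x) (pt_mem_RE x) (fun A => pt d A y) (pt_mem_RE y) (by
      intro p hp
      have := hxy p hp
      rwa [map_mul] at this) with h | h
    · exact Or.inl h
    · exact Or.inr h


private theorem core {A0 : OF (N + 1)} (hd : 0 < d) (hA0 : A0 ∈ IntS (N + 1) d)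
    (hg : Good (dd (res A0))) {G : PR (N + 1) d} (hG : pt d A0 G ≠ 0) {F : PR (N + 1) d} {M : ℕ}
    (hM : (F * G) ^ M ∈ IX (N + 1) d) (hc : cone (res A0) ∈ IntS (N + 1) d)
    {B : Type} [CommRing B] [Algebra ℂ B] {aug : B →ₐ[ℂ] ℂ} (hart : Art B aug)
    (ψ : PR (N + 1) d →ₐ[ℂ] B) (hψ : ∀ p, aug (ψ p) = pt d (cone (res A0)) p)
    (hIX : ∀ p ∈ IX (N + 1) d, ψ p = 0) : ψ (F ^ M) = 0 := by
  let s' : Fin (N + 1) → MvPolynomial (Fin (N + 1)) B :=
    fun i => MvPolynomial.map (ψ : PR (N + 1) d →+* B) (uni (N + 1) d i)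
  have hs' : s' ∈ IntB (N + 1) d B := (uni_IntB_iff ψ).mpr hIX
  have hcomp : (aug : B →+* ℂ).comp (ψ : PR (N + 1) d →+* B) =
      (pt d (cone (res A0)) : PR (N + 1) d →+* ℂ) := RingHom.ext hψ
  have hreds : ∀ i, red aug (Fin (N + 1)) (s' i) = cone (res A0) i := by
    intro i
    have h1 := uni_pt (B := ℂ) (A := cone (res A0)) hc.1 i
    show MvPolynomial.map (aug : B →+* ℂ)
      (MvPolynomial.map (ψ : PR (N + 1) d →+* B) (uni (N + 1) d i)) = _
    rw [MvPolynomial.map_map, hcomp]
    exact h1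
  have hress : ∀ i, red aug (Fin N) (res s' i) = res A0 i := by
    intro i
    show MvPolynomial.map (aug : B →+* ℂ) (at0 N B (s' i.succ)) = res A0 i
    rw [at0_map]
    have h2 := hreds i.succ
    change MvPolynomial.map (aug : B →+* ℂ) (s' i.succ) = cone (res A0) i.succ at h2
    rw [h2]
    exact congrFun (res_cone (res A0)) i
  have hA0' : A0 ∈ IntB (N + 1) d ℂ := by
    rw [IntB_eq]
    exact hA0
  obtain ⟨A', hA', hA'res, hA'red⟩ := lift_Int hd hart (res_IntB hs') hA0'
    (fun i => (hress i).symm) hg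
  obtain ⟨P, hP, hP0, hP1⟩ := path_Int hd hart hs' hA' hA'res.symm (by
    have h3 : (fun i => red aug (Fin N) (res s' i)) = res A0 := funext hress
    rw [h3]
    exact hg)
  have hz : pt d P F ^ M * pt d P G ^ M = 0 := by
    have h4 := pt_IX hP hM
    rw [map_pow, map_mul, mul_pow] at h4
    exact h4
  let e0 : Polynomial B →ₐ[ℂ] B := (Polynomial.aeval (0 : B)).restrictScalars ℂ
  let e1 : Polynomial B →ₐ[ℂ] B := (Polynomial.aeval (1 : B)).restrictScalars ℂ
  have he0 : (e0 : Polynomial B →+* B) = Polynomial.evalRingHom 0 := by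
    ext x
    · simp [e0]
    · simp [e0]
  have he1 : (e1 : Polynomial B →+* B) = Polynomial.evalRingHom 1 := by
    ext x
    · simp [e1]
    · simp [e1]
  have hf1 : (fun i => MvPolynomial.map (e1 : Polynomial B →+* B) (P i)) = A' := by
    funext i
    rw [he1]
    exact hP1 i
  have hpt1 : e1 (pt d P G) = pt d A' G := by
    rw [← hf1]
    exact (pt_map e1 P G).symm
  have hf0 : (fun i => MvPolynomial.map (e0 : Polynomial B →+* B) (P i)) = s' := by
    funext i
    rw [he0]
    exact hP0 i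
  have hpt0 : e0 (pt d P F) = pt d s' F := by
    rw [← hf0]
    exact (pt_map e0 P F).symm
  have hfa : (fun i => MvPolynomial.map (aug : B →+* ℂ) (A' i)) = A0 := funext hA'red
  have hA'G : aug (pt d A' G) = pt d A0 G := by
    rw [← hfa]
    exact (pt_map aug A' G).symm
  have hgne : Polynomial.map (aug : B →+* ℂ) (pt d P G ^ M) ≠ 0 := by
    rw [Polynomial.map_pow]
    apply pow_ne_zero
    intro h5
    apply hG
    rw [← hA'G, ← hpt1]
    have h6 : e1 (pt d P G) = Polynomial.eval 1 (pt d P G) := by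
      have := congrArg (fun φ : Polynomial B →+* B => φ (pt d P G)) he1
      exact this
    rw [h6]
    have h7 : Polynomial.eval (aug (1 : B)) (Polynomial.map (aug : B →+* ℂ) (pt d P G)) =
        aug (Polynomial.eval 1 (pt d P G)) :=
      Polynomial.eval_map_apply (aug : B →+* ℂ) 1
    rw [h5, Polynomial.eval_zero] at h7
    exact h7.symm
  have hF0 := nonzerodiv_of_red hart _ hgne _ hz
  have h8 : pt d s' = ψ := pt_uni ψ
  rw [map_pow, ← h8, ← hpt0, ← map_pow, hF0, map_zero]

end uniq_aux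

theorem uniq {N d : ℕ} (hd : 0 < d) {A0 : OF (N + 1)} (hA0 : A0 ∈ IntS (N + 1) d)
    (hg : Good (dd (res A0))) {G : PR (N + 1) d} (hG : pt d A0 G ≠ 0) {F : PR (N + 1) d}
    (hF : ∀ A' ∈ IntS (N + 1) d, pt d A' G ≠ 0 → pt d A' F = 0) {S' : Set (OF (N + 1))}
    (hS : S' ⊆ IntS (N + 1) d) (hS2 : PreIrr (RE (N + 1) : Set (OF (N + 1) → ℂ)) S')
    (hc : cone (res A0) ∈ S') : ∀ A' ∈ S', pt d A' F = 0 := by
  have hprime : (van d S').IsPrime := van_prime (d := d) hS2 hc
  obtain ⟨M, hM⟩ : ∃ M : ℕ, (F * G) ^ M ∈ IX (N + 1) d := by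
    apply null
    intro A hA
    rw [map_mul]
    by_cases h : pt d A G = 0
    · rw [h, mul_zero]
    · rw [hF A hA h, zero_mul]
  have hIX : ∀ p ∈ IX (N + 1) d, p ∈ van d S' := by
    intro p hp A hA
    have hA2 : A ∈ IntB (N + 1) d ℂ := by
      rw [IntB_eq]
      exact hS hA
    exact pt_IX hA2 hp
  let ev : (PR (N + 1) d ⧸ van d S') →ₐ[ℂ] ℂ :=
    Ideal.Quotient.liftₐ (van d S') (pt d (cone (res A0))) (fun a ha => ha _ hc)
  have hft : Algebra.FiniteType ℂ (PR (N + 1) d ⧸ van d S') :=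
    Algebra.FiniteType.of_surjective (Ideal.Quotient.mkₐ ℂ (van d S'))
      (Ideal.Quotient.mkₐ_surjective ℂ (van d S'))
  have key : ∀ k : ℕ, 0 < k → (Ideal.Quotient.mk (van d S') (F ^ M)) ∈
      (RingHom.ker (ev : (PR (N + 1) d ⧸ van d S') →+* ℂ)) ^ k := by
    intro k hk
    have hJ : ∀ b ∈ (RingHom.ker (ev : (PR (N + 1) d ⧸ van d S') →+* ℂ)) ^ k, ev b = 0 := by
      intro b hb
      exact Ideal.pow_le_self hk.ne' hb
    have hart := art_pow ev k hk hJ
    have h1 := core hd hA0 hg hG hM (hS hc) hart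
      ((Ideal.Quotient.mkₐ ℂ _).comp (Ideal.Quotient.mkₐ ℂ (van d S')))
      (fun p => rfl) (by
        intro p hp
        show (Ideal.Quotient.mk _) ((Ideal.Quotient.mk (van d S')) p) = 0
        rw [Ideal.Quotient.eq_zero_iff_mem.mpr (hIX p hp), map_zero])
    exact Ideal.Quotient.eq_zero_iff_mem.mp h1
  have hne : RingHom.ker (ev : (PR (N + 1) d ⧸ van d S') →+* ℂ) ≠ ⊤ := by
    rw [Ideal.ne_top_iff_one, RingHom.mem_ker, map_one]
    exact one_ne_zero
  have hbot : (Ideal.Quotient.mk (van d S') (F ^ M)) ∈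
      (⨅ k : ℕ, (RingHom.ker (ev : (PR (N + 1) d ⧸ van d S') →+* ℂ)) ^ k) := by
    rw [Submodule.mem_iInf]
    intro k
    rcases Nat.eq_zero_or_pos k with h | h
    · subst h
      simp
    · exact key k h
  rw [Ideal.iInf_pow_eq_bot_of_isDomain _ hne, Submodule.mem_bot, map_pow] at hbot
  have hFz : Ideal.Quotient.mk (van d S') F = 0 := by
    by_contra hcon
    exact pow_ne_zero M hcon hbot
  exact Ideal.Quotient.eq_zero_iff_mem.mp hFz

end Pool.Agent.Helper71.FL
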