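import Pool.Agent.Helper71.FL.Step

/-! FL-8: iteration of `step`.
`zext`: `step` with `J = ⊤` (`hs` gives `w12 .. = X 0 ^ m * q`).
`zlift`: start with homogeneous lifts `ξ_0` of `ξ0` (coefficients by `algebraMap`), invariant: `red ξ = ξ0` and `Sol m θ0 ξ`;
`w12 ξ (Th θ0 ξ) = X 0 ^ m * q` with `red (X 0 ^ m * q) = w12 ξ0 (Th (red θ0) ξ0) = 0` (`Th_map`), so `q` has coefficients in
`ker aug`; apply `step` with `J = RingHom.ker aug`; after `2 e + 1` steps use `eq_zero_of_dvd_hom`. -/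

set_option autoImplicit false

namespace Pool.Agent.Helper71.FL

open MvPolynomial

theorem zext {N : ℕ} {B : Type} [CommRing B] [Algebra ℂ B] {aug : B →ₐ[ℂ] ℂ} (h : Art B aug)
    (m e : ℕ) (he : 0 < e) (θ0 : Fin N → Fin N → MvPolynomial (Fin N) B)
    (hc : Closed θ0) (hd : Dec θ0) (hθ : ∀ i j, (θ0 i j).IsHomogeneous e)
    (hg : Good (fun i j => red aug (Fin N) (θ0 i j)))
    (ξ : Fin N → MvPolynomial (Fin (N + 1)) B) (hξ : ∀ j, (ξ j).IsHomogeneous e)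
    (hs : Sol m θ0 ξ) :
    ∃ q : Fin N → MvPolynomial (Fin N) B,
      (∀ j, (ξ j + X 0 ^ m * emb N B (q j)).IsHomogeneous e) ∧
      Sol (m + 1) θ0 (fun j => ξ j + X 0 ^ m * emb N B (q j)) := by
  refine (step h ⊤ m e he θ0 hc hd hθ hg ξ hξ hs ?_).imp (fun q hq => ⟨hq.2.1, hq.2.2⟩)
  intro i j k
  obtain ⟨q, hq⟩ := hs i j k
  refine ⟨q, ?_, ?_⟩
  · rw [Ideal.map_top]
    exact Submodule.mem_top
  · rw [hq, sub_self]
    exact dvd_zero _

private theorem red_eq_zero_iff {B : Type} [CommRing B] [Algebra ℂ B] (aug : B →ₐ[ℂ] ℂ) (σ : Type)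
    (p : MvPolynomial σ B) :
    red aug σ p = 0 ↔ p ∈ (RingHom.ker (aug : B →+* ℂ)).map (C : B →+* MvPolynomial σ B) := by
  rw [mem_map_C_iff]
  constructor
  · intro h m
    have h1 := congrArg (coeff m) h
    unfold red at h1
    rw [coeff_map, coeff_zero] at h1
    exact h1
  · intro h
    ext m
    unfold red
    rw [coeff_map, coeff_zero]
    exact h m

private theorem red_cst {B : Type} [CommRing B] [Algebra ℂ B] (aug : B →ₐ[ℂ] ℂ) (σ : Type)
    (p : MvPolynomial σ ℂ) : red aug σ (cst B σ p) = p := by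
  unfold red cst
  rw [MvPolynomial.map_map]
  have h : (aug : B →+* ℂ).comp (algebraMap ℂ B) = RingHom.id ℂ := by
    ext x
    simp
  rw [h, MvPolynomial.map_id]

private theorem red_w12 {N : ℕ} {B : Type} [CommRing B] [Algebra ℂ B] (aug : B →ₐ[ℂ] ℂ)
    (θ0 : Fin N → Fin N → MvPolynomial (Fin N) B) (ξ : Fin N → MvPolynomial (Fin (N + 1)) B)
    (i j k : Fin N) :
    red aug (Fin (N + 1)) (w12 ξ (Th θ0 ξ) i j k) =
      w12 (fun j => red aug (Fin (N + 1)) (ξ j)) (Th (fun i j => red aug (Fin N) (θ0 i j))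
        (fun j => red aug (Fin (N + 1)) (ξ j))) i j k := by
  rw [← w12_map (red aug (Fin (N + 1))) ξ (Th θ0 ξ) i j k]
  have h : (fun l m => red aug (Fin (N + 1)) (Th θ0 ξ l m)) =
      Th (fun i j => red aug (Fin N) (θ0 i j)) (fun j => red aug (Fin (N + 1)) (ξ j)) := by
    funext l m
    exact Th_map aug θ0 ξ l m
  rw [h]

private theorem zlift_aux {N : ℕ} {B : Type} [CommRing B] [Algebra ℂ B] {aug : B →ₐ[ℂ] ℂ}
    (h : Art B aug)
    (e : ℕ) (he : 0 < e) (θ0 : Fin N → Fin N → MvPolynomial (Fin N) B)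
    (hc : Closed θ0) (hd : Dec θ0) (hθ : ∀ i j, (θ0 i j).IsHomogeneous e)
    (hg : Good (fun i j => red aug (Fin N) (θ0 i j)))
    (ξ0 : Fin N → MvPolynomial (Fin (N + 1)) ℂ) (hξ : ∀ j, (ξ0 j).IsHomogeneous e)
    (hs : ∀ i j k, w12 ξ0 (Th (fun i j => red aug (Fin N) (θ0 i j)) ξ0) i j k = 0) (m : ℕ) :
    ∃ ξ : Fin N → MvPolynomial (Fin (N + 1)) B, (∀ j, (ξ j).IsHomogeneous e) ∧
      (∀ j, red aug (Fin (N + 1)) (ξ j) = ξ0 j) ∧ Sol m θ0 ξ := by
  induction m with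
  | zero =>
    refine ⟨fun j => cst B (Fin (N + 1)) (ξ0 j), fun j => (hξ j).map _, fun j => red_cst _ _ _, ?_⟩
    intro i j k
    rw [pow_zero]
    exact one_dvd _
  | succ m ih =>
    obtain ⟨ξ, h1, h2, h3⟩ := ih
    have h2' : (fun j => red aug (Fin (N + 1)) (ξ j)) = ξ0 := funext h2
    obtain ⟨q, q1, q2, q3⟩ := step h (RingHom.ker (aug : B →+* ℂ)) m e he θ0 hc hd hθ hg ξ h1 h3 (by
      intro i j k
      obtain ⟨q, hq⟩ := h3 i j k
      refine ⟨q, ?_, ?_⟩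
      · rw [← red_eq_zero_iff]
        have h4 := red_w12 aug θ0 ξ i j k
        rw [h2', hs, hq, map_mul, map_pow] at h4
        have h5 : red aug (Fin (N + 1)) (X 0) = X 0 := by
          unfold red
          rw [map_X]
        rw [h5] at h4
        exact (mul_eq_zero.1 h4).resolve_left (pow_ne_zero _ (X_ne_zero _))
      · rw [hq, sub_self]
        exact dvd_zero _)
    refine ⟨_, q2, fun j => ?_, q3⟩
    have h4 : red aug (Fin (N + 1)) (emb N B (q j)) = 0 := by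
      have h5 := (red_eq_zero_iff aug (Fin N) (q j)).2 (q1 j)
      unfold red emb at *
      rw [map_rename, h5, map_zero]
    show red aug (Fin (N + 1)) (ξ j + X 0 ^ m * emb N B (q j)) = ξ0 j
    rw [map_add, map_mul, h4, mul_zero, add_zero]
    exact h2 j

theorem zlift {N : ℕ} {B : Type} [CommRing B] [Algebra ℂ B] {aug : B →ₐ[ℂ] ℂ} (h : Art B aug)
    (e : ℕ) (he : 0 < e) (θ0 : Fin N → Fin N → MvPolynomial (Fin N) B)
    (hc : Closed θ0) (hd : Dec θ0) (hθ : ∀ i j, (θ0 i j).IsHomogeneous e)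
    (hg : Good (fun i j => red aug (Fin N) (θ0 i j)))
    (ξ0 : Fin N → MvPolynomial (Fin (N + 1)) ℂ) (hξ : ∀ j, (ξ0 j).IsHomogeneous e)
    (hs : ∀ i j k, w12 ξ0 (Th (fun i j => red aug (Fin N) (θ0 i j)) ξ0) i j k = 0) :
    ∃ ξ : Fin N → MvPolynomial (Fin (N + 1)) B, (∀ j, (ξ j).IsHomogeneous e) ∧
      (∀ j, red aug (Fin (N + 1)) (ξ j) = ξ0 j) ∧ ∀ i j k, w12 ξ (Th θ0 ξ) i j k = 0 := by
  obtain ⟨ξ, h1, h2, h3⟩ := zlift_aux h e he θ0 hc hd hθ hg ξ0 hξ hs (2 * e + 1)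
  refine ⟨ξ, h1, h2, fun i j k => ?_⟩
  have hT := fun i j => Th_hom hθ h1 he i j
  refine eq_zero_of_dvd_hom (n := 2 * e) ?_ (h3 i j k)
  have h4 : ∀ a b c, (ξ a * Th θ0 ξ b c).IsHomogeneous (2 * e) := by
    intro a b c
    have := (h1 a).mul (hT b c)
    rwa [← two_mul] at this
  unfold w12
  exact ((h4 i j k).add (h4 j k i)).add (h4 k i j)

end Pool.Agent.Helper71.FL
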